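import Mathlib
import Pool.Agent.K4H74.ST.Chr

/-!
# Finite group theory: parity of multiplicities
-/

set_option autoImplicit false
set_option linter.unusedSectionVars false

namespace Pool.Agent.W2helper73.SO

open Pool.Agent.K4H74.ST

/-- the mean of a character is a natural number -/
lemma avg_nat {H : Type} [Group H] [Fintype H] {f : H → ℂ} (hf : IsChar f) :
    ∃ n : ℕ, (Nat.card H : ℂ)⁻¹ * ∑ h, f h = n := by
  obtain ⟨V, _, _, _, ρ, rfl⟩ := hf
  have h0 : (Nat.card H : ℂ) ≠ 0 := by exact_mod_cast Nat.card_pos.ne'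
  let : Invertible (Nat.card H : ℂ) := invertibleOfNonzero h0
  exact ⟨_, Representation.card_inv_mul_sum_char_eq_finrank ρ⟩

/-- a proper subgroup of a finite `2`-group is contained in the kernel of a quadratic character -/
lemma exists_quad {S : Type} [Group S] [Finite S] (hS : IsPGroup 2 S) (T : Subgroup S)
    (hT : T ≠ ⊤) : ∃ l : S →* ℤˣ, l ≠ 1 ∧ ∀ t ∈ T, l t = 1 := by
  classical
  have h2 : Fact (Nat.Prime 2) := ⟨Nat.prime_two⟩
  obtain ⟨n, hn⟩ := hS.exists_card_eq
  obtain ⟨m, hm⟩ := (hS.to_subgroup T).exists_card_eq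
  have hmn : m < n := by
    by_contra h
    push Not at h
    apply hT
    apply Subgroup.eq_top_of_card_eq
    apply le_antisymm (Subgroup.card_le_card_group T)
    rw [hn, hm]
    exact Nat.pow_le_pow_right (by norm_num) h
  obtain ⟨n', rfl⟩ : ∃ n', n = n' + 1 := ⟨n - 1, by omega⟩
  obtain ⟨M, hM, hTM⟩ := Sylow.exists_subgroup_card_pow_prime_le 2
    (show 2 ^ n' ∣ Nat.card S by rw [hn]; exact pow_dvd_pow 2 (by omega)) T hm (by omega)
  have hi : M.index = 2 := by
    have h1 := M.card_mul_index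
    rw [hn, hM, pow_succ] at h1
    exact Nat.eq_of_mul_eq_mul_left (by positivity) h1
  let l : S →* ℤˣ := MonoidHom.mk' (fun s => if s ∈ M then 1 else -1) (by
    intro a b
    have h := Subgroup.mul_mem_iff_of_index_two hi (a := a) (b := b)
    by_cases ha : a ∈ M <;> by_cases hb : b ∈ M <;> simp [h, ha, hb])
  refine ⟨l, fun h => ?_, fun t ht => if_pos (hTM ht)⟩
  have hM1 : M ≠ ⊤ := by
    intro h1
    rw [h1, Subgroup.index_top] at hi
    norm_num at hi
  obtain ⟨s, hs⟩ : ∃ s, s ∉ M := by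
    by_contra hc
    push Not at hc
    exact hM1 (eq_top_iff.mpr fun x _ => hc x)
  have h3 : l s = -1 := if_neg hs
  rw [h, MonoidHom.one_apply] at h3
  exact absurd h3 (by decide)

instance finHom {S : Type} [Group S] [Finite S] : Finite (S →* ℤˣ) := DFunLike.finite _

noncomputable instance ftHom {S : Type} [Group S] [Finite S] : Fintype (S →* ℤˣ) :=
  Fintype.ofFinite _

/-- a sum which is invariant under a fixed point free involution is even -/
lemma even_sum {I : Type} [Fintype I] (g : I → I) (hg : ∀ i, g (g i) = i) (hg' : ∀ i, g i ≠ i)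
    (a : I → ℂ) (ha : ∀ i, ∃ n : ℕ, a i = n) (hga : ∀ i, a (g i) = a i) :
    ∃ n : ℤ, ∑ i, a i = 2 * n := by
  classical
  choose m hm using ha
  have h1 : ∑ i, (m i : ZMod 2) = 0 := by
    refine Finset.sum_involution (fun i _ => g i) (fun i _ => ?_) (fun i _ _ => hg' i)
      (fun i _ => Finset.mem_univ _) (fun i _ => hg i)
    have h2 : m (g i) = m i := by
      have := hga i
      rw [hm, hm] at this
      exact_mod_cast this
    rw [h2, ← two_mul]
    have : (2 : ZMod 2) = 0 := rfl
    rw [this, zero_mul]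
  have h2 : ((∑ i, m i : ℕ) : ZMod 2) = 0 := by
    rw [Nat.cast_sum]
    exact h1
  rw [ZMod.natCast_eq_zero_iff] at h2
  obtain ⟨n, hn⟩ := h2
  refine ⟨n, ?_⟩
  have h3 : ∑ i, a i = ((∑ i, m i : ℕ) : ℂ) := by
    rw [Nat.cast_sum]
    exact Finset.sum_congr rfl fun i _ => hm i
  rw [h3, hn]
  push_cast
  ring

/-- the sum of the quadratic characters -/
noncomputable def Lam {S : Type} [Group S] [Finite S] (s : S) : ℂ :=
  ∑ l : S →* ℤˣ, ((l s : ℤ) : ℂ)

section orbit

variable {A Y : Type} [Group A] [Fintype A] [Fintype Y] [MulAction A Y]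

open Classical in
/-- the sum over the stabiliser -/
noncomputable def Ss (W : A → ℂ) (y : Y) : ℂ := ∑ a : A, if a • y = y then W a else 0

/-- the mean over the stabiliser -/
noncomputable def Bm (W : A → ℂ) (y : Y) : ℂ :=
  (Nat.card (MulAction.stabilizer A y) : ℂ)⁻¹ * Ss W y

lemma Ss_smul {W : A → ℂ} (hW : ∀ a b, W (a * b * a⁻¹) = W b) (b : A) (y : Y) :
    Ss W (b • y) = Ss W y := by
  classical
  rw [Ss, Ss]
  symm
  refine Fintype.sum_equiv (MulAut.conj b).toEquiv _ _ fun a => ?_
  have h : (MulAut.conj b) a = b * a * b⁻¹ := rfl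
  change (if a • y = y then W a else 0) = if (b * a * b⁻¹) • b • y = b • y then W (b * a * b⁻¹) else 0
  rw [hW, smul_smul, inv_mul_cancel_right, mul_smul, smul_left_cancel_iff]

lemma Bm_smul {W : A → ℂ} (hW : ∀ a b, W (a * b * a⁻¹) = W b) (b : A) (y : Y) :
    Bm W (b • y) = Bm W y := by
  rw [Bm, Bm, Ss_smul hW]
  congr 3
  exact (Nat.card_congr
    (MulAction.stabilizerEquivStabilizer (G := A) (a := y) (b := b • y) (g := b) rfl).toEquiv).symm

lemma Ss_eq (W : A → ℂ) (y : Y) : Ss W y = Nat.card (MulAction.stabilizer A y) * Bm W y := by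
  have h0 : (Nat.card (MulAction.stabilizer A y) : ℂ) ≠ 0 := by exact_mod_cast Nat.card_pos.ne'
  rw [Bm, mul_inv_cancel_left₀ h0]

open Classical in
noncomputable instance ftQ : Fintype (MulAction.orbitRel.Quotient A Y) := Fintype.ofFinite _

/-- the representative of an orbit -/
noncomputable def rp (w : MulAction.orbitRel.Quotient A Y) : Y := Quotient.out w

lemma rp_spec (w : MulAction.orbitRel.Quotient A Y) : (Quotient.mk _ (rp w) : _) = w :=
  Quotient.out_eq w

lemma exists_rp (y : Y) : ∃ a : A, y = a • rp (A := A) (Quotient.mk _ y) := by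
  have h : (Quotient.mk (MulAction.orbitRel A Y) (rp (A := A) (Quotient.mk _ y)))
      = Quotient.mk _ y := rp_spec _
  have h1 : MulAction.orbitRel A Y (rp (A := A) (Quotient.mk _ y)) y := Quotient.exact h
  obtain ⟨a, ha⟩ := MulAction.orbitRel_apply.mp ((MulAction.orbitRel A Y).symm h1)
  exact ⟨a, ha.symm⟩

lemma orbit_sum {W : A → ℂ} (hW : ∀ a b, W (a * b * a⁻¹) = W b) :
    (Nat.card A : ℂ)⁻¹ * ∑ y : Y, Ss W y
      = ∑ w : MulAction.orbitRel.Quotient A Y, Bm W (rp w) := by
  classical
  have hA : (Nat.card A : ℂ) ≠ 0 := by exact_mod_cast Nat.card_pos.ne'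
  rw [inv_mul_eq_iff_eq_mul₀ hA, Finset.mul_sum,
    ← Finset.sum_fiberwise (s := Finset.univ) (g := fun y : Y =>
      (Quotient.mk _ y : MulAction.orbitRel.Quotient A Y))]
  refine Finset.sum_congr rfl fun w _ => ?_
  have h1 : ∀ y ∈ Finset.univ.filter (fun y : Y =>
      (Quotient.mk _ y : MulAction.orbitRel.Quotient A Y) = w), Ss W y = Ss W (rp w) := by
    intro y hy
    rw [Finset.mem_filter] at hy
    obtain ⟨a, ha⟩ := exists_rp (A := A) y
    rw [hy.2] at ha
    rw [ha, Ss_smul hW]
  rw [Finset.sum_congr rfl h1, Finset.sum_const, nsmul_eq_mul, Ss_eq, ← mul_assoc]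
  congr 1
  have h2 : (Finset.univ.filter (fun y : Y =>
      (Quotient.mk _ y : MulAction.orbitRel.Quotient A Y) = w)).card
      = Nat.card (MulAction.orbit A (rp w)) := by
    rw [Nat.card_eq_card_toFinset]
    congr 1
    ext y
    rw [Finset.mem_filter, Set.mem_toFinset, ← MulAction.orbitRel_apply]
    constructor
    · rintro ⟨-, h⟩
      have h3 := rp_spec w
      exact Quotient.exact (h.trans h3.symm)
    · intro h
      refine ⟨Finset.mem_univ _, ?_⟩
      rw [← rp_spec w]
      exact Quotient.sound h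
  rw [h2, ← Nat.cast_mul]
  congr 1
  have h4 := MulAction.card_orbit_mul_card_stabilizer_eq_card_group A (rp w)
  rw [Nat.card_eq_fintype_card, Nat.card_eq_fintype_card, Nat.card_eq_fintype_card]
  exact h4

end orbit

end Pool.Agent.W2helper73.SO
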