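import Mathlib
import Pool.Agent.W2helper73.SO.Grp
import Pool.Agent.K4H74.SC.Inst

/-!
# The invariant at a finite level
-/

set_option autoImplicit false
set_option linter.unusedSectionVars false

namespace Pool.Agent.W2helper73.SO

open Pool.Agent.K4H74.ST NumberField NumberField.ComplexEmbedding

section def1

variable {N : Type} [Field N] [NumberField N] [IsGalois ℚ N]

noncomputable instance finAut (K L : Type) [Field K] [NumberField K] [Field L] [NumberField L]
    [Algebra K L] : Fintype (L ≃ₐ[K] L) :=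
  have : FiniteDimensional K L := Module.Finite.of_restrictScalars_finite ℚ K L
  Fintype.ofFinite _

noncomputable instance finSub (S : Subgroup (N ≃ₐ[ℚ] N)) : Fintype S := Fintype.ofFinite _

variable (S : Subgroup (N ≃ₐ[ℚ] N)) (w : S → ℂ)
variable (K L : Type) [Field K] [NumberField K] [Field L] [NumberField L] [Algebra K L]

/-- `s J = J h` -/
def Rl {S : Subgroup (N ≃ₐ[ℚ] N)} {K L : Type} [Field K] [Field L] [Algebra K L]
    (s : S) (J : L →+* N) (h : L ≃ₐ[K] L) : Prop := ∀ x, (s : N ≃ₐ[ℚ] N) (J x) = J (h x)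

open Classical in
/-- the value of `χ` at the element `h` with `s J = J h` -/
noncomputable def Dd {S : Subgroup (N ≃ₐ[ℚ] N)} {K L : Type} [Field K] [NumberField K] [Field L]
    [NumberField L] [Algebra K L] (χ : (L ≃ₐ[K] L) → ℂ) (J : L →+* N) (s : S) : ℂ :=
  ∑ h : L ≃ₐ[K] L, if Rl s J h then χ h else 0

/-- the weighted mean of the induced character over `S` -/
noncomputable def FN (χ : (L ≃ₐ[K] L) → ℂ) : ℂ :=
  ((Nat.card S : ℂ) * (Nat.card (L ≃ₐ[K] L) : ℂ))⁻¹ * ∑ s : S, w s * ∑ J : L →+* N, Dd χ J s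

lemma Dd_add {K L : Type} [Field K] [NumberField K] [Field L]
    [NumberField L] [Algebra K L] (χ χ' : (L ≃ₐ[K] L) → ℂ) (J : L →+* N) (s : S) :
    Dd (χ + χ') J s = Dd χ J s + Dd χ' J s := by
  classical
  rw [Dd, Dd, Dd, ← Finset.sum_add_distrib]
  refine Finset.sum_congr rfl fun h _ => ?_
  split_ifs
  · rfl
  · rw [add_zero]

lemma FN_add (χ χ' : (L ≃ₐ[K] L) → ℂ) : FN S w K L (χ + χ') = FN S w K L χ + FN S w K L χ' := by
  rw [FN, FN, FN, ← mul_add, ← Finset.sum_add_distrib]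
  congr 1
  refine Finset.sum_congr rfl fun s _ => ?_
  rw [← mul_add, ← Finset.sum_add_distrib]
  congr 1
  exact Finset.sum_congr rfl fun J _ => Dd_add S χ χ' J s

end def1

section ind

variable {N : Type} [Field N] [NumberField N] [IsGalois ℚ N]
variable (S : Subgroup (N ≃ₐ[ℚ] N)) (w : S → ℂ)
variable (K F L : Type) [Field K] [NumberField K] [Field F] [NumberField F] [Field L]
    [NumberField L] [Algebra K F] [Algebra F L] [Algebra K L] [IsScalarTower K F L]

open Classical in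
lemma indChar_sum (χ : (L ≃ₐ[F] L) → ℂ) (g : L ≃ₐ[K] L) :
    indChar K F L χ g = (Nat.card (L ≃ₐ[F] L) : ℂ)⁻¹ * ∑ x : L ≃ₐ[K] L, ∑ h : L ≃ₐ[F] L,
      if h.restrictScalars K = x⁻¹ * g * x then χ h else 0 := by
  rw [indChar, finsum_eq_sum_of_fintype]
  congr 1
  refine Finset.sum_congr rfl fun x _ => ?_
  rw [finsum_eq_sum_of_fintype]
  refine Finset.sum_congr rfl fun h _ => ?_
  by_cases hx : h.restrictScalars K = x⁻¹ * g * x
  · rw [finsum_eq_single _ hx (fun h1 h2 => absurd rfl h2), if_pos hx]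
  · have : IsEmpty (h.restrictScalars K = x⁻¹ * g * x) := ⟨hx⟩
    rw [finsum_of_isEmpty, if_neg hx]

lemma sum_J_ind (χ : (L ≃ₐ[F] L) → ℂ) (s : S) :
    ∑ J : L →+* N, Dd (indChar K F L χ) J s
      = (Nat.card (L ≃ₐ[K] L) : ℂ) * (Nat.card (L ≃ₐ[F] L) : ℂ)⁻¹ * ∑ J : L →+* N, Dd χ J s := by
  classical
  have h1 : ∀ J : L →+* N, Dd (indChar K F L χ) J s = (Nat.card (L ≃ₐ[F] L) : ℂ)⁻¹ *
      ∑ x : L ≃ₐ[K] L, ∑ h : L ≃ₐ[F] L, if Rl s J (x * h.restrictScalars K * x⁻¹) then χ h else 0 := by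
    intro J
    rw [Dd]
    simp only [indChar_sum]
    have h2 : ∀ g : L ≃ₐ[K] L, (if Rl s J g then (Nat.card (L ≃ₐ[F] L) : ℂ)⁻¹ *
        ∑ x : L ≃ₐ[K] L, ∑ h : L ≃ₐ[F] L, (if h.restrictScalars K = x⁻¹ * g * x then χ h else 0)
        else 0) = (Nat.card (L ≃ₐ[F] L) : ℂ)⁻¹ * ∑ x : L ≃ₐ[K] L, ∑ h : L ≃ₐ[F] L,
          if g = x * h.restrictScalars K * x⁻¹ then (if Rl s J g then χ h else 0) else 0 := by
      intro g
      have h3 : ∀ (x : L ≃ₐ[K] L) (h : L ≃ₐ[F] L), (h.restrictScalars K = x⁻¹ * g * x) ↔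
          g = x * h.restrictScalars K * x⁻¹ := by
        intro x h
        constructor
        · intro e; rw [e]; group
        · intro e; rw [e]; group
      simp only [h3]
      split_ifs with h4
      · rfl
      · simp
    rw [Finset.sum_congr rfl fun g _ => h2 g, ← Finset.mul_sum]
    congr 1
    rw [Finset.sum_comm]
    refine Finset.sum_congr rfl fun x _ => ?_
    rw [Finset.sum_comm]
    refine Finset.sum_congr rfl fun h _ => ?_
    rw [Finset.sum_ite_eq' Finset.univ (x * h.restrictScalars K * x⁻¹)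
      (fun g => if Rl s J g then χ h else 0), if_pos (Finset.mem_univ _)]
  rw [Finset.sum_congr rfl fun J _ => h1 J, ← Finset.mul_sum, mul_comm (Nat.card (L ≃ₐ[K] L) : ℂ),
    mul_assoc]
  congr 1
  rw [Finset.sum_comm]
  have h4 : ∀ x : L ≃ₐ[K] L, ∑ J : L →+* N, ∑ h : L ≃ₐ[F] L,
      (if Rl s J (x * h.restrictScalars K * x⁻¹) then χ h else 0) = ∑ J : L →+* N, Dd χ J s := by
    intro x
    let e : (L →+* N) ≃ (L →+* N) :=
      { toFun := fun J => J.comp (x : L →+* L)
        invFun := fun J => J.comp ((x⁻¹ : L ≃ₐ[K] L) : L →+* L)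
        left_inv := by
          intro J
          ext y
          change J (x (x⁻¹ y)) = J y
          rw [show x (x⁻¹ y) = y from AlgEquiv.apply_symm_apply x y]
        right_inv := by
          intro J
          ext y
          change J (x⁻¹ (x y)) = J y
          rw [show x⁻¹ (x y) = y from AlgEquiv.symm_apply_apply x y] }
    refine Fintype.sum_equiv e _ _ fun J => ?_
    rw [Dd]
    refine Finset.sum_congr rfl fun h _ => ?_
    have h5 : Rl s J (x * h.restrictScalars K * x⁻¹) ↔ Rl s (e J) h := by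
      constructor
      · intro h6 y
        have := h6 (x y)
        change _ = J (x (h (x⁻¹ (x y)))) at this
        rw [show x⁻¹ (x y) = y from AlgEquiv.symm_apply_apply x y] at this
        exact this
      · intro h6 y
        have := h6 (x⁻¹ y)
        change (s : N ≃ₐ[ℚ] N) (J (x (x⁻¹ y))) = _ at this
        rw [show x (x⁻¹ y) = y from AlgEquiv.apply_symm_apply x y] at this
        exact this
    simp only [h5]
  rw [Finset.sum_congr rfl fun x _ => h4 x, Finset.sum_const, nsmul_eq_mul, Finset.card_univ,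
    Nat.card_eq_fintype_card]

lemma FN_ind (χ : (L ≃ₐ[F] L) → ℂ) : FN S w K L (indChar K F L χ) = FN S w F L χ := by
  rw [FN, FN]
  simp only [sum_J_ind]
  have h1 : (Nat.card (L ≃ₐ[K] L) : ℂ) ≠ 0 := by exact_mod_cast Nat.card_pos.ne'
  have h2 : (Nat.card (L ≃ₐ[F] L) : ℂ) ≠ 0 := by exact_mod_cast Nat.card_pos.ne'
  have h3 : (Nat.card S : ℂ) ≠ 0 := by exact_mod_cast Nat.card_pos.ne'
  have h4 : ∀ s : S, w s * ((Nat.card (L ≃ₐ[K] L) : ℂ) * (Nat.card (L ≃ₐ[F] L) : ℂ)⁻¹
      * ∑ J : L →+* N, Dd χ J s) = ((Nat.card (L ≃ₐ[K] L) : ℂ) * (Nat.card (L ≃ₐ[F] L) : ℂ)⁻¹)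
      * (w s * ∑ J : L →+* N, Dd χ J s) := fun s => by ring
  rw [Finset.sum_congr rfl fun s _ => h4 s, ← Finset.mul_sum, ← mul_assoc]
  congr 1
  field_simp

end ind

end Pool.Agent.W2helper73.SO
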