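import Mathlib
import Pool.Agent.W2helper73.SO.Fn

/-!
# The invariant at a finite level: inflation
-/

set_option autoImplicit false
set_option linter.unusedSectionVars false

namespace Pool.Agent.W2helper73.SO

open Pool.Agent.K4H74.ST NumberField NumberField.ComplexEmbedding

section aut

variable {N : Type} [Field N] [NumberField N] [IsGalois ℚ N]

/-- the Galois group acts transitively on the embeddings -/
lemma exists_aut {L : Type} [Field L] [NumberField L] (J₁ J : L →+* N) :
    ∃ t : N ≃ₐ[ℚ] N, ∀ x, t (J₁ x) = J x := by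
  obtain ⟨j⟩ : Nonempty (N →+* ℂ) := inferInstance
  let : Algebra L N := J₁.toAlgebra
  have : IsScalarTower ℚ L N := IsScalarTower.of_algebraMap_eq' (RingHom.ext fun x => by simp)
  have : Algebra.IsAlgebraic L N := Algebra.IsAlgebraic.tower_top (K := ℚ) L
  let φ₁ : N →+* ℂ := ComplexEmbedding.lift N (j.comp J)
  have h1 : φ₁.comp (algebraMap L N) = j.comp J := ComplexEmbedding.lift_comp_algebraMap N _
  obtain ⟨σ, hσ⟩ := ComplexEmbedding.exists_comp_symm_eq_of_comp_eq (k := ℚ) j φ₁ (by ext x; simp)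
  refine ⟨σ.symm, fun x => ?_⟩
  apply j.injective
  have h2 := RingHom.congr_fun hσ (J₁ x)
  have h3 := RingHom.congr_fun h1 x
  exact h2.trans h3

lemma exists_lift {L M : Type} [Field L] [NumberField L] [Field M] [NumberField M] [Algebra L M]
    (e : M →+* N) (J : L →+* N) : ∃ J' : M →+* N, J'.comp (algebraMap L M) = J := by
  obtain ⟨t, ht⟩ := exists_aut (e.comp (algebraMap L M)) J
  refine ⟨(t : N →+* N).comp e, ?_⟩
  ext x
  exact ht x

/-- two embeddings which agree on the base field -/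
lemma exists_gal {K M : Type} [Field K] [NumberField K] [Field M] [NumberField M] [Algebra K M]
    [IsGalois K M] (J J' : M →+* N) (h : J.comp (algebraMap K M) = J'.comp (algebraMap K M)) :
    ∃ g : M ≃ₐ[K] M, ∀ x, J' x = J (g x) := by
  obtain ⟨j⟩ : Nonempty (N →+* ℂ) := inferInstance
  obtain ⟨σ, hσ⟩ := ComplexEmbedding.exists_comp_symm_eq_of_comp_eq (k := K) (j.comp J) (j.comp J')
    (by rw [RingHom.comp_assoc, RingHom.comp_assoc, h])
  refine ⟨σ.symm, fun x => ?_⟩
  apply j.injective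
  exact (RingHom.congr_fun hσ x).symm

end aut

section infl

variable {N : Type} [Field N] [NumberField N] [IsGalois ℚ N]
variable (S : Subgroup (N ≃ₐ[ℚ] N)) (w : S → ℂ)
variable (K L M : Type) [Field K] [NumberField K] [Field L] [NumberField L] [Field M]
    [NumberField M] [Algebra K L] [IsGalois K L] [Algebra K M] [IsGalois K M] [Algebra L M]
    [IsScalarTower K L M]

lemma Rl_unique {K L : Type} [Field K] [Field L] [Algebra K L] {s : S} {J : L →+* N}
    {h h' : L ≃ₐ[K] L} (e : Rl s J h) (e' : Rl s J h') : h = h' := by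
  ext x
  exact J.injective ((e x).symm.trans (e' x))

lemma Dd_eq {K L : Type} [Field K] [NumberField K] [Field L] [NumberField L] [Algebra K L]
    (χ : (L ≃ₐ[K] L) → ℂ) {s : S} {J : L →+* N} {h : L ≃ₐ[K] L} (e : Rl s J h) :
    Dd χ J s = χ h := by
  classical
  rw [Dd, Finset.sum_eq_single h, if_pos e]
  · intro b _ hb
    rw [if_neg]
    intro e'
    exact hb (Rl_unique S e' e)
  · intro h1
    exact absurd (Finset.mem_univ _) h1

lemma Dd_zero {K L : Type} [Field K] [NumberField K] [Field L] [NumberField L] [Algebra K L]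
    (χ : (L ≃ₐ[K] L) → ℂ) {s : S} {J : L →+* N} (e : ¬ ∃ h : L ≃ₐ[K] L, Rl s J h) :
    Dd χ J s = 0 := by
  classical
  rw [Dd]
  refine Finset.sum_eq_zero fun h _ => ?_
  rw [if_neg]
  intro e'
  exact e ⟨h, e'⟩

lemma Dd_infl (χ : (L ≃ₐ[K] L) → ℂ) (s : S) (J : M →+* N) :
    Dd (fun g : M ≃ₐ[K] M => χ (AlgEquiv.restrictNormalHom L g)) J s
      = Dd χ (J.comp (algebraMap L M)) s := by
  by_cases h : ∃ h : M ≃ₐ[K] M, Rl s J h
  · obtain ⟨h, hh⟩ := h
    rw [Dd_eq S _ hh]
    symm
    apply Dd_eq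
    intro x
    rw [RingHom.comp_apply, RingHom.comp_apply, res_apply]
    exact hh _
  · rw [Dd_zero S _ h, Dd_zero]
    rintro ⟨g, hg⟩
    apply h
    obtain ⟨h', hh'⟩ := exists_gal (K := K) J (((s : N ≃ₐ[ℚ] N) : N →+* N).comp J) (by
      ext x
      have h1 := hg (algebraMap K L x)
      rw [AlgEquiv.commutes, RingHom.comp_apply, ← IsScalarTower.algebraMap_apply K L M] at h1
      exact h1.symm)
    exact ⟨h', hh'⟩

lemma sum_fiber {L M : Type} [Field L] [NumberField L] [Field M] [NumberField M] [Algebra L M]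
    [IsGalois L M] (e : M →+* N) (g : (L →+* N) → ℂ) :
    ∑ J : M →+* N, g (J.comp (algebraMap L M)) = (Nat.card (M ≃ₐ[L] M) : ℂ) * ∑ J : L →+* N, g J := by
  classical
  rw [← Finset.sum_fiberwise (s := Finset.univ) (g := fun J : M →+* N => J.comp (algebraMap L M)),
    Finset.mul_sum]
  refine Finset.sum_congr rfl fun J _ => ?_
  have h1 : ∀ J' ∈ Finset.univ.filter (fun J' : M →+* N => J'.comp (algebraMap L M) = J),
      g (J'.comp (algebraMap L M)) = g J := by
    intro J' hJ'
    rw [Finset.mem_filter] at hJ'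
    rw [hJ'.2]
  rw [Finset.sum_congr rfl h1, Finset.sum_const, nsmul_eq_mul]
  congr 2
  obtain ⟨J₀, hJ₀⟩ := exists_lift e J
  let f : (M ≃ₐ[L] M) → (M →+* N) := fun g => J₀.comp (g : M →+* M)
  have hf : Function.Injective f := by
    intro a b hab
    ext x
    exact J₀.injective (RingHom.congr_fun hab x)
  have h2 : Finset.univ.filter (fun J' : M →+* N => J'.comp (algebraMap L M) = J)
      = Finset.univ.image f := by
    ext J'
    rw [Finset.mem_filter, Finset.mem_image]
    constructor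
    · rintro ⟨-, h3⟩
      obtain ⟨g', hg'⟩ := exists_gal (K := L) J₀ J' (by rw [h3, hJ₀])
      refine ⟨g', Finset.mem_univ _, ?_⟩
      ext x
      exact (hg' x).symm
    · rintro ⟨g', -, rfl⟩
      refine ⟨Finset.mem_univ _, ?_⟩
      rw [← hJ₀]
      ext x
      change J₀ (g' (algebraMap L M x)) = J₀ (algebraMap L M x)
      rw [AlgEquiv.commutes]
  rw [h2, Finset.card_image_of_injective _ hf, Finset.card_univ, Nat.card_eq_fintype_card]

lemma FN_infl (e : M →+* N) (χ : (L ≃ₐ[K] L) → ℂ) :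
    FN S w K M (fun g => χ (AlgEquiv.restrictNormalHom L g)) = FN S w K L χ := by
  have hG : IsGalois L M := IsGalois.tower_top_of_isGalois K L M
  rw [FN, FN]
  have h1 : ∀ s : S, ∑ J : M →+* N, Dd (fun g : M ≃ₐ[K] M => χ (AlgEquiv.restrictNormalHom L g)) J s
      = (Nat.card (M ≃ₐ[L] M) : ℂ) * ∑ J : L →+* N, Dd χ J s := by
    intro s
    rw [Finset.sum_congr rfl fun J _ => Dd_infl S K L M χ s J]
    exact sum_fiber e (fun J => Dd χ J s)
  simp only [h1]
  have h2 : (Nat.card (M ≃ₐ[K] M)) = Nat.card (L ≃ₐ[K] L) * Nat.card (M ≃ₐ[L] M) := by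
    rw [IsGalois.card_aut_eq_finrank, IsGalois.card_aut_eq_finrank, IsGalois.card_aut_eq_finrank,
      Module.finrank_mul_finrank]
  have h3 : (Nat.card (M ≃ₐ[L] M) : ℂ) ≠ 0 := by exact_mod_cast Nat.card_pos.ne'
  have h4 : (Nat.card (L ≃ₐ[K] L) : ℂ) ≠ 0 := by exact_mod_cast Nat.card_pos.ne'
  have h5 : (Nat.card S : ℂ) ≠ 0 := by exact_mod_cast Nat.card_pos.ne'
  have h6 : ∀ s : S, w s * ((Nat.card (M ≃ₐ[L] M) : ℂ) * ∑ J : L →+* N, Dd χ J s)
      = (Nat.card (M ≃ₐ[L] M) : ℂ) * (w s * ∑ J : L →+* N, Dd χ J s) := fun s => by ring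
  rw [Finset.sum_congr rfl fun s _ => h6 s, ← Finset.mul_sum, ← mul_assoc, h2]
  congr 1
  push_cast
  field_simp

end infl

end Pool.Agent.W2helper73.SO
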