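import Mathlib
import Pool.Agent.W2helper73.SO.Infl
import Pool.Agent.K4H74.ST.Exc

/-!
# The invariant at a finite level: parity
-/

set_option autoImplicit false
set_option linter.unusedSectionVars false

namespace Pool.Agent.W2helper73.SO

open Pool.Agent.K4H74.ST NumberField NumberField.ComplexEmbedding

section act

variable {N : Type} [Field N] [NumberField N] [IsGalois ℚ N]

/-- `(s, h)` acts on the embeddings of `L` by `J ↦ s J h⁻¹` -/
noncomputable instance actInst {S : Subgroup (N ≃ₐ[ℚ] N)} {K L : Type} [Field K] [Field L]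
    [Algebra K L] : MulAction (S × (L ≃ₐ[K] L)) (L →+* N) where
  smul a J := (((a.1 : N ≃ₐ[ℚ] N) : N →+* N).comp J).comp ((a.2⁻¹ : L ≃ₐ[K] L) : L →+* L)
  one_smul J := by
    ext x
    rfl
  mul_smul a b J := by
    ext x
    change (a.1 * b.1 : N ≃ₐ[ℚ] N) (J ((a.2 * b.2)⁻¹ x)) = (a.1 : N ≃ₐ[ℚ] N) ((b.1 : N ≃ₐ[ℚ] N) (J (b.2⁻¹ (a.2⁻¹ x))))
    rw [mul_inv_rev]
    rfl

lemma act_apply {S : Subgroup (N ≃ₐ[ℚ] N)} {K L : Type} [Field K] [Field L]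
    [Algebra K L] (a : S × (L ≃ₐ[K] L)) (J : L →+* N) (x : L) :
    (a • J) x = (a.1 : N ≃ₐ[ℚ] N) (J (a.2⁻¹ x)) := rfl

lemma fix_iff {S : Subgroup (N ≃ₐ[ℚ] N)} {K L : Type} [Field K] [Field L]
    [Algebra K L] (a : S × (L ≃ₐ[K] L)) (J : L →+* N) : a • J = J ↔ Rl a.1 J a.2 := by
  constructor
  · intro h x
    have h1 := RingHom.congr_fun h (a.2 x)
    rw [act_apply] at h1
    rw [show a.2⁻¹ (a.2 x) = x from AlgEquiv.symm_apply_apply a.2 x] at h1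
    exact h1
  · intro h
    ext x
    rw [act_apply, h]
    rw [show a.2 (a.2⁻¹ x) = x from AlgEquiv.apply_symm_apply a.2 x]

end act

section gen

variable {A Y : Type} [Group A] [Fintype A] [Fintype Y] [MulAction A Y]

noncomputable instance ftStab (y : Y) : Fintype (MulAction.stabilizer A y) := Fintype.ofFinite _

lemma Ss_stab (W : A → ℂ) (y : Y) :
    Ss W y = ∑ a : MulAction.stabilizer A y, W a := by
  classical
  rw [Ss, ← Finset.sum_filter]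
  apply Finset.sum_subtype
  intro a
  rw [Finset.mem_filter, MulAction.mem_stabilizer_iff]
  simp

lemma Bm_nat {W : A → ℂ} (hW : IsChar W) (y : Y) : ∃ n : ℕ, Bm W y = n := by
  obtain ⟨n, hn⟩ := avg_nat (hW.comp (MulAction.stabilizer A y).subtype)
  refine ⟨n, ?_⟩
  rw [← hn, Bm, Ss_stab]
  rfl

lemma Bm_sum {I : Type} [Fintype I] (W : I → A → ℂ) (y : Y) :
    Bm (fun a => ∑ i, W i a) y = ∑ i, Bm (W i) y := by
  classical
  simp only [Bm, Ss_stab, Finset.mul_sum]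
  rw [Finset.sum_comm]

lemma Ss_shift (W : A → ℂ) (y : Y) {a₀ : A} (h₀ : a₀ • y = y) {c : ℂ}
    (hc : ∀ a, W (a₀ * a) = c * W a) (hc1 : c ≠ 1) : Bm W y = 0 := by
  classical
  have h1 : Ss W y = c * Ss W y := by
    rw [Ss, Finset.mul_sum]
    refine (Fintype.sum_equiv (Equiv.mulLeft a₀) _ _ fun a => ?_).symm
    change (c * if a • y = y then W a else 0) = if (a₀ * a) • y = y then W (a₀ * a) else 0
    have h2 : (a₀ * a) • y = y ↔ a • y = y := by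
      rw [mul_smul]
      constructor
      · intro h
        have h3 : a₀ • a • y = a₀ • y := by rw [h, h₀]
        exact smul_left_cancel _ h3
      · intro h
        rw [h, h₀]
    simp only [h2, hc]
    split_ifs
    · rfl
    · rw [mul_zero]
  have h2 : (1 - c) * Ss W y = 0 := by
    rw [sub_mul, one_mul, ← h1, sub_self]
  rcases mul_eq_zero.mp h2 with h3 | h3
  · exact absurd (sub_eq_zero.mp h3).symm hc1
  · rw [Bm, h3, mul_zero]

lemma char_twist {G : Type} [Group G] {χ : G → ℂ} (h : IsChar χ) (μ : G →* ℂˣ) :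
    IsChar (fun g => χ g * (μ g : ℂˣ)) := by
  obtain ⟨V, _, _, _, ρ, rfl⟩ := h
  let σ : Representation ℂ G V :=
    { toFun := fun g => ((μ g : ℂˣ) : ℂ) • ρ g
      map_one' := by
        rw [map_one, map_one, Units.val_one, one_smul]
      map_mul' := by
        intro a b
        rw [map_mul, map_mul, Units.val_mul, smul_mul_smul_comm] }
  refine ⟨V, inferInstance, inferInstance, inferInstance, σ, ?_⟩
  funext g
  change _ = LinearMap.trace ℂ V (((μ g : ℂˣ) : ℂ) • ρ g)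
  rw [map_smul, smul_eq_mul, mul_comm]
  rfl

lemma char_conj {G : Type} [Group G] {χ : G → ℂ} (h : IsChar χ) (a b : G) :
    χ (a * b * a⁻¹) = χ b := by
  obtain ⟨V, _, _, _, ρ, rfl⟩ := h
  exact Representation.char_conj ρ b a

end gen

section par

variable {N : Type} [Field N] [NumberField N] [IsGalois ℚ N]
variable {S : Subgroup (N ≃ₐ[ℚ] N)} (θ : S →* ℂˣ)
variable {K L : Type} [Field K] [NumberField K] [Field L] [NumberField L] [Algebra K L]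
  [IsGalois K L]

/-- the weight -/
noncomputable def wt (s : S) : ℂ := ((θ s)⁻¹ : ℂˣ) * Lam s

/-- the class function of one quadratic character -/
noncomputable def Wl (χ : (L ≃ₐ[K] L) → ℂ) (l : S →* ℤˣ) (a : S × (L ≃ₐ[K] L)) : ℂ :=
  χ a.2 * ((θ a.1)⁻¹ : ℂˣ) * ((l a.1 : ℤ) : ℂ)

/-- the sign character as a complex character -/
noncomputable def toC (S : Type) [Group S] (l : S →* ℤˣ) : S →* ℂˣ := (Units.map (Int.castRingHom ℂ).toMonoidHom).comp l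

lemma toC_val {S : Type} [Group S] (l : S →* ℤˣ) (s : S) : ((toC S l s : ℂˣ) : ℂ) = ((l s : ℤ) : ℂ) := rfl

lemma Wl_char {χ : (L ≃ₐ[K] L) → ℂ} (h : IsChar χ) (l : S →* ℤˣ) : IsChar (Wl θ χ l) := by
  have h1 := char_twist (h.comp (MonoidHom.snd S (L ≃ₐ[K] L)))
    ((θ⁻¹ * toC S l).comp (MonoidHom.fst S (L ≃ₐ[K] L)))
  have h2 : (fun g => χ ((MonoidHom.snd S (L ≃ₐ[K] L)) g)
      * ((((θ⁻¹ * toC S l).comp (MonoidHom.fst S (L ≃ₐ[K] L))) g : ℂˣ) : ℂ)) = Wl θ χ l := by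
    funext a
    rw [Wl, mul_assoc]
    congr 1
  rw [← h2]
  exact h1

/-- the class function of the invariant -/
noncomputable def Ww (χ : (L ≃ₐ[K] L) → ℂ) (a : S × (L ≃ₐ[K] L)) : ℂ := χ a.2 * wt θ a.1

lemma Ww_eq (χ : (L ≃ₐ[K] L) → ℂ) : Ww θ χ = fun a => ∑ l : S →* ℤˣ, Wl θ χ l a := by
  funext a
  rw [Ww, wt, Lam, Finset.mul_sum, Finset.mul_sum]
  refine Finset.sum_congr rfl fun l _ => ?_
  rw [Wl]
  ring

lemma Ww_class {χ : (L ≃ₐ[K] L) → ℂ} (h : IsChar χ) (a b : S × (L ≃ₐ[K] L)) :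
    Ww θ χ (a * b * a⁻¹) = Ww θ χ b := by
  rw [Ww_eq]
  exact Finset.sum_congr rfl fun l _ => char_conj (Wl_char θ h l) a b

lemma FN_orbit {χ : (L ≃ₐ[K] L) → ℂ} (h : IsChar χ) :
    FN S (wt θ) K L χ = ∑ v : MulAction.orbitRel.Quotient (S × (L ≃ₐ[K] L)) (L →+* N),
      Bm (Ww θ χ) (rp v) := by
  classical
  rw [← orbit_sum (Ww_class θ h), FN, Nat.card_prod, Nat.cast_mul]
  congr 1
  have h1 : ∀ J : L →+* N, Ss (Ww θ χ) J = ∑ s : S, wt θ s * Dd χ J s := by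
    intro J
    rw [Ss, Fintype.sum_prod_type]
    refine Finset.sum_congr rfl fun s _ => ?_
    rw [Dd, Finset.mul_sum]
    refine Finset.sum_congr rfl fun g _ => ?_
    simp only [fix_iff]
    split_ifs
    · rw [Ww, mul_comm]
    · rw [mul_zero]
  simp only [h1]
  rw [Finset.sum_comm]
  refine Finset.sum_congr rfl fun s _ => ?_
  rw [Finset.mul_sum]

lemma Bm_eq (χ : (L ≃ₐ[K] L) → ℂ) (y : L →+* N) :
    Bm (Ww θ χ) y = ∑ l : S →* ℤˣ, Bm (Wl θ χ l) y := by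
  rw [Ww_eq, Bm_sum]

lemma Bm_int {χ : (L ≃ₐ[K] L) → ℂ} (h : IsChar χ) (y : L →+* N) :
    ∃ n : ℤ, Bm (Ww θ χ) y = n := by
  rw [Bm_eq]
  choose m hm using fun l => Bm_nat (Wl_char θ h l) y
  refine ⟨∑ l, (m l : ℤ), ?_⟩
  push_cast
  exact Finset.sum_congr rfl fun l _ => hm l

lemma FN_int {χ : (L ≃ₐ[K] L) → ℂ} (h : IsChar χ) : ∃ n : ℤ, FN S (wt θ) K L χ = n := by
  rw [FN_orbit θ h]
  choose m hm using fun y : L →+* N => Bm_int θ h y
  refine ⟨∑ v : MulAction.orbitRel.Quotient (S × (L ≃ₐ[K] L)) (L →+* N), m (rp v), ?_⟩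
  push_cast
  exact Finset.sum_congr rfl fun l _ => hm _

lemma FN_even {χ : (L ≃ₐ[K] L) → ℂ} (h : IsChar χ)
    (he : ∀ y : L →+* N, ∃ n : ℤ, Bm (Ww θ χ) y = 2 * n) :
    ∃ n : ℤ, FN S (wt θ) K L χ = 2 * n := by
  rw [FN_orbit θ h]
  choose m hm using he
  refine ⟨∑ v : MulAction.orbitRel.Quotient (S × (L ≃ₐ[K] L)) (L →+* N), m (rp v), ?_⟩
  push_cast
  rw [Finset.mul_sum]
  exact Finset.sum_congr rfl fun l _ => hm _

/-- orbits with a proper stabiliser -/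
lemma even_proper (hS : IsPGroup 2 S) {χ : (L ≃ₐ[K] L) → ℂ} (h : IsChar χ) (y : L →+* N)
    {s₀ : S} (h₀ : ¬ ∃ g : L ≃ₐ[K] L, Rl s₀ y g) : ∃ n : ℤ, Bm (Ww θ χ) y = 2 * n := by
  classical
  let T : Subgroup S := (MulAction.stabilizer (S × (L ≃ₐ[K] L)) y).map (MonoidHom.fst S (L ≃ₐ[K] L))
  have hT : T ≠ ⊤ := by
    intro hT
    have h1 : s₀ ∈ T := by rw [hT]; trivial
    obtain ⟨a, ha, ha'⟩ := h1
    apply h₀
    refine ⟨a.2, ?_⟩
    have h2 := (fix_iff a y).mp ha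
    have h3 : a.1 = s₀ := ha'
    rwa [h3] at h2
  obtain ⟨l, hl, hlT⟩ := exists_quad hS T hT
  rw [Bm_eq]
  refine even_sum (fun m => m * l) (fun m => ?_) (fun m hm => ?_) _
    (fun m => Bm_nat (Wl_char θ h m) y) (fun m => ?_)
  · ext s
    rw [MonoidHom.mul_apply, MonoidHom.mul_apply, mul_assoc, Int.units_mul_self, mul_one]
  · exact hl (mul_eq_left.mp hm)
  · rw [Bm, Bm]
    congr 1
    rw [Ss, Ss]
    refine Finset.sum_congr rfl fun a _ => ?_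
    by_cases ha : a • y = y
    · rw [if_pos ha, if_pos ha, Wl, Wl]
      have h1 : l a.1 = 1 := hlT _ ⟨a, ha, rfl⟩
      rw [MonoidHom.mul_apply, h1, mul_one]
    · rw [if_neg ha, if_neg ha]

/-- characters which are invariant under an automorphism which moves `θ` by a quadratic
character -/
lemma even_sigma (σ : ℂ →+* ℂ) {κ : S →* ℤˣ} (hκ : κ ≠ 1)
    (hσ : ∀ s, σ ((θ s)⁻¹ : ℂˣ) = ((θ s)⁻¹ : ℂˣ) * ((κ s : ℤ) : ℂ))
    {χ : (L ≃ₐ[K] L) → ℂ} (h : IsChar χ) (hχ : ∀ g, σ (χ g) = χ g) (y : L →+* N) :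
    ∃ n : ℤ, Bm (Ww θ χ) y = 2 * n := by
  classical
  rw [Bm_eq]
  refine even_sum (fun m => m * κ) (fun m => ?_) (fun m hm => ?_) _
    (fun m => Bm_nat (Wl_char θ h m) y) (fun m => ?_)
  · ext s
    rw [MonoidHom.mul_apply, MonoidHom.mul_apply, mul_assoc, Int.units_mul_self, mul_one]
  · exact hκ (mul_eq_left.mp hm)
  · obtain ⟨n, hn⟩ := Bm_nat (Wl_char θ h m) y
    have h1 : σ (Bm (Wl θ χ m) y) = Bm (Wl θ χ m) y := by rw [hn, map_natCast]
    rw [← h1, Bm, Bm, map_mul, map_inv₀, map_natCast]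
    congr 1
    rw [Ss, Ss, map_sum]
    refine Finset.sum_congr rfl fun a _ => ?_
    by_cases ha : a • y = y
    · rw [if_pos ha, if_pos ha, Wl, Wl, map_mul, map_mul, hχ, hσ, map_intCast,
        MonoidHom.mul_apply, Units.val_mul]
      push_cast
      ring
    · rw [if_neg ha, if_neg ha, map_zero]

/-- scalar elements -/
lemma zero_scalar {χ : (L ≃ₐ[K] L) → ℂ} (y : L →+* N)
    {s₀ : S} {g₀ : L ≃ₐ[K] L} (h₀ : Rl s₀ y g₀) (hθ : (θ s₀) ^ 2 ≠ 1) {e : ℂ} (he : e ^ 2 = 1)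
    (hg : ∀ g, χ (g₀ * g) = e * χ g) : Bm (Ww θ χ) y = 0 := by
  rw [Bm_eq]
  refine Finset.sum_eq_zero fun l _ => ?_
  refine Ss_shift (Wl θ χ l) y (a₀ := (s₀, g₀)) ((fix_iff _ y).mpr h₀)
    (c := e * ((θ s₀)⁻¹ : ℂˣ) * ((l s₀ : ℤ) : ℂ)) (fun a => ?_) ?_
  · rw [Wl, Wl]
    change χ (g₀ * a.2) * ((θ (s₀ * a.1))⁻¹ : ℂˣ) * ((l (s₀ * a.1) : ℤ) : ℂ) = _
    rw [hg, map_mul, map_mul, mul_inv, Units.val_mul, Units.val_mul]
    push_cast
    ring
  · intro h1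
    apply hθ
    have h2 : (e * ((θ s₀)⁻¹ : ℂˣ) * ((l s₀ : ℤ) : ℂ)) ^ 2 = 1 := by rw [h1, one_pow]
    have h3 : ((l s₀ : ℤ) : ℂ) ^ 2 = 1 := by
      have : (l s₀ : ℤˣ) ^ 2 = 1 := by rw [pow_two]; exact Int.units_mul_self _
      have h4 : ((l s₀ : ℤˣ) : ℤ) ^ 2 = 1 := by
        rw [← Units.val_pow_eq_pow_val, this, Units.val_one]
      exact_mod_cast h4
    rw [mul_pow, mul_pow, he, h3, one_mul, mul_one, ← Units.val_pow_eq_pow_val, inv_pow] at h2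
    have h4 : ((θ s₀) ^ 2)⁻¹ = 1 := Units.ext h2
    exact inv_eq_one.mp h4

/-- the value one -/
lemma one_val {χ : (L ≃ₐ[K] L) → ℂ} (y : L →+* N)
    (h₀ : ∀ s : S, ∃ g : L ≃ₐ[K] L, Rl s y g) (hg : ∀ (s : S) (g : L ≃ₐ[K] L), Rl s y g →
      χ g = (θ s : ℂˣ)) : Bm (Ww θ χ) y = 1 := by
  classical
  have hst : ∀ l : S →* ℤˣ, Bm (Wl θ χ l) y
      = Bm (fun a : S × (L ≃ₐ[K] L) => ((l a.1 : ℤ) : ℂ)) y := by
    intro l
    rw [Bm, Bm, Ss, Ss]
    congr 1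
    refine Finset.sum_congr rfl fun a _ => ?_
    by_cases ha : a • y = y
    · rw [if_pos ha, if_pos ha, Wl, hg a.1 a.2 ((fix_iff a y).mp ha), ← Units.val_mul,
        mul_inv_cancel, Units.val_one, one_mul]
    · rw [if_neg ha, if_neg ha]
  rw [Bm_eq, Finset.sum_eq_single 1]
  · rw [hst, Bm]
    have h1 : Ss (fun a : S × (L ≃ₐ[K] L) => ((((1 : S →* ℤˣ) a.1 : ℤˣ) : ℤ) : ℂ)) y
        = (Nat.card (MulAction.stabilizer (S × (L ≃ₐ[K] L)) y) : ℂ) := by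
      rw [Ss_stab]
      simp only [MonoidHom.one_apply, Units.val_one, Int.cast_one, Finset.sum_const,
        Finset.card_univ, nsmul_eq_mul, mul_one, Nat.card_eq_fintype_card]
    rw [h1, inv_mul_cancel₀]
    exact_mod_cast Nat.card_pos.ne'
  · intro l _ hl
    rw [hst]
    obtain ⟨s₀, hs₀⟩ : ∃ s₀, l s₀ ≠ 1 := by
      by_contra hc
      push Not at hc
      exact hl (MonoidHom.ext hc)
    obtain ⟨g₀, hg₀⟩ := h₀ s₀
    refine Ss_shift _ y (a₀ := (s₀, g₀)) ((fix_iff _ y).mpr hg₀) (c := ((l s₀ : ℤ) : ℂ))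
      (fun a => ?_) ?_
    · change ((l (s₀ * a.1) : ℤ) : ℂ) = _
      rw [map_mul, Units.val_mul]
      push_cast
      ring
    · intro h1
      apply hs₀
      have h2 : ((l s₀ : ℤˣ) : ℤ) = 1 := by exact_mod_cast h1
      exact Units.ext h2
  · intro h1
    exact absurd (Finset.mem_univ _) h1

/-- one odd orbit -/
lemma FN_odd {χ : (L ≃ₐ[K] L) → ℂ} (h : IsChar χ) (φ : L →+* N) (h1 : Bm (Ww θ χ) φ = 1)
    (he : ∀ y : L →+* N, (¬ ∃ g : L ≃ₐ[K] L, ∀ x, y x = φ (g x)) →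
      ∃ n : ℤ, Bm (Ww θ χ) y = 2 * n) :
    ∃ n : ℤ, FN S (wt θ) K L χ = 2 * n + 1 := by
  classical
  rw [FN_orbit θ h]
  let v₀ : MulAction.orbitRel.Quotient (S × (L ≃ₐ[K] L)) (L →+* N) := Quotient.mk _ φ
  have h2 : Bm (Ww θ χ) (rp v₀) = 1 := by
    obtain ⟨a, ha⟩ := exists_rp (A := S × (L ≃ₐ[K] L)) φ
    have h3 := Bm_smul (Ww_class θ h) a (rp v₀)
    rw [← ha, h1] at h3
    exact h3.symm
  have h3 : ∀ v : MulAction.orbitRel.Quotient (S × (L ≃ₐ[K] L)) (L →+* N), v ≠ v₀ →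
      ∃ n : ℤ, Bm (Ww θ χ) (rp v) = 2 * n := by
    intro v hv
    apply he
    rintro ⟨g, hg⟩
    apply hv
    rw [← rp_spec v]
    apply Quotient.sound
    apply MulAction.orbitRel_apply.mpr
    refine ⟨((1 : S), g⁻¹), ?_⟩
    ext x
    change φ ((g⁻¹)⁻¹ x) = _
    rw [inv_inv, hg]
  choose! m hm using h3
  refine ⟨∑ v ∈ Finset.univ.erase v₀, m v, ?_⟩
  rw [← Finset.add_sum_erase Finset.univ _ (Finset.mem_univ v₀), h2, add_comm]
  congr 1
  push_cast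
  rw [Finset.mul_sum]
  refine Finset.sum_congr rfl fun v hv => ?_
  exact hm v (Finset.ne_of_mem_erase hv)

end par

end Pool.Agent.W2helper73.SO
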