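import Mathlib
import Pool.Agent.W2helper73.SO.Par

/-!
# The two-group and its character
-/

set_option autoImplicit false
set_option linter.unusedSectionVars false

namespace Pool.Agent.W2helper73.SO

open Pool.Agent.K4H74.ST NumberField NumberField.ComplexEmbedding

section real

variable {K : Type} [Field K] [NumberField K]

/-- exactly one real embedding -/
lemma exists_real (hK : InfinitePlace.nrRealPlaces K = 1) :
    ∃ φ₀ : K →+* ℂ, IsReal φ₀ ∧ ∀ φ : K →+* ℂ, IsReal φ → φ = φ₀ := by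
  classical
  have h1 : Fintype.card { φ : K →+* ℂ // ComplexEmbedding.IsReal φ } = 1 := by
    rw [InfinitePlace.card_real_embeddings, hK]
  rw [Fintype.card_eq_one_iff] at h1
  obtain ⟨⟨φ₀, h0⟩, h2⟩ := h1
  exact ⟨φ₀, h0, fun φ hφ => congrArg Subtype.val (h2 ⟨φ, hφ⟩)⟩

end real

section dat

variable {N : Type} [Field N] [NumberField N] [IsGalois ℚ N]

noncomputable instance actG {K : Type} [Field K] : MulAction (N ≃ₐ[ℚ] N) (K →+* N) where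
  smul g J := (g : N →+* N).comp J
  one_smul J := by
    ext x
    rfl
  mul_smul a b J := by
    ext x
    rfl

lemma actG_apply {K : Type} [Field K] (g : N ≃ₐ[ℚ] N) (J : K →+* N) (x : K) :
    (g • J) x = g (J x) := rfl

instance actG_trans {K : Type} [Field K] [NumberField K] :
    MulAction.IsPretransitive (N ≃ₐ[ℚ] N) (K →+* N) where
  exists_smul_eq J J' := by
    obtain ⟨t, ht⟩ := exists_aut J J'
    exact ⟨t, RingHom.ext ht⟩

/-- the subgroup generated by the complex conjugations -/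
def Tc (N : Type) [Field N] [NumberField N] [IsGalois ℚ N] : Subgroup (N ≃ₐ[ℚ] N) :=
  Subgroup.closure (CC ℚ N)

instance Tc_normal : (Tc N).Normal := by
  refine ⟨fun t ht g => ?_⟩
  induction ht using Subgroup.closure_induction with
  | mem x hx =>
    have h1 := CC_conj hx g⁻¹
    rw [inv_inv] at h1
    exact Subgroup.subset_closure h1
  | one =>
    rw [mul_one, mul_inv_cancel]
    exact one_mem _
  | mul a b _ _ ha hb =>
    have : g * (a * b) * g⁻¹ = (g * a * g⁻¹) * (g * b * g⁻¹) := by group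
    rw [this]
    exact mul_mem ha hb
  | inv a _ ha =>
    have : g * a⁻¹ * g⁻¹ = (g * a * g⁻¹)⁻¹ := by group
    rw [this]
    exact inv_mem ha

variable {K : Type} [Field K] [NumberField K]

/-- if a complex conjugation fixes exactly one embedding of `K`, then the complex conjugations
generate a transitive group -/
lemma Tc_trans (φ : K →+* N) {c : N ≃ₐ[ℚ] N} (hc : c ∈ CC ℚ N) (h1 : c • φ = φ)
    (h2 : ∀ J : K →+* N, c • J = J → J = φ) (J : K →+* N) : ∃ t ∈ Tc N, t • J = φ := by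
  classical
  have hp : Fact (Nat.Prime 2) := ⟨Nat.prime_two⟩
  have hcc : c * c = 1 := by
    obtain ⟨j, hj⟩ := hc
    exact isConj_sq hj
  have hodd : ¬ 2 ∣ Nat.card (K →+* N) := by
    let f : Function.End (K →+* N) := fun J => c • J
    have hf : f ^ 2 ^ 1 = 1 := by
      funext J
      change c • (c • J) = J
      rw [smul_smul, hcc, one_smul]
    have h3 := Equiv.Perm.card_fixedPoints_modEq hf
    have h4 : Fintype.card (Function.fixedPoints f) = 1 := by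
      rw [Fintype.card_eq_one_iff]
      exact ⟨⟨φ, h1⟩, fun y => Subtype.ext (h2 y.1 y.2)⟩
    rw [h4] at h3
    rw [Nat.card_eq_fintype_card]
    intro h5
    have h6 := (Nat.modEq_zero_iff_dvd.mpr h5).symm.trans h3
    exact absurd h6 (by decide)
  have hB : MulAction.IsBlock (N ≃ₐ[ℚ] N) (MulAction.orbit (Tc N) J) :=
    MulAction.IsBlock.orbit_of_normal J
  have hd := hB.ncard_dvd_card ⟨J, MulAction.mem_orbit_self J⟩
  have hO : ¬ 2 ∣ Fintype.card (MulAction.orbit (Tc N) J) := by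
    intro h3
    apply hodd
    refine h3.trans ?_
    rw [← Nat.card_eq_fintype_card]
    exact hd
  let cT : Tc N := ⟨c, Subgroup.subset_closure hc⟩
  let σ : Equiv.Perm (MulAction.orbit (Tc N) J) := MulAction.toPerm cT
  have hσ : σ ^ 2 ^ 1 = 1 := by
    ext y
    change ((cT • (cT • y) : MulAction.orbit (Tc N) J) : K →+* N) _ = _
    rw [smul_smul]
    have : cT * cT = 1 := Subtype.ext hcc
    rw [this, one_smul]
    rfl
  obtain ⟨⟨y, hy⟩, h3⟩ := Equiv.Perm.exists_fixed_point_of_prime hO hσ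
  have h4 : c • y = y := congrArg Subtype.val h3
  have h5 := h2 y h4
  obtain ⟨t, ht⟩ := hy
  exact ⟨t, t.2, ht.trans h5⟩

variable {L : Type} [Field L] [NumberField L] [Algebra K L] [IsGalois K L]

/-- the stabiliser of the embedding of `K` -/
noncomputable def Hs (φ : K →+* N) : Subgroup (N ≃ₐ[ℚ] N) := MulAction.stabilizer (N ≃ₐ[ℚ] N) φ

lemma mem_Hs {φ : K →+* N} {g : N ≃ₐ[ℚ] N} : g ∈ Hs φ ↔ ∀ k, g (φ k) = φ k := by
  constructor
  · intro h k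
    exact RingHom.congr_fun h k
  · intro h
    exact RingHom.ext h

lemma exists_rho (φ : L →+* N) : ∃ ρ : Hs (φ.comp (algebraMap K L)) →* (L ≃ₐ[K] L),
    ∀ (g : Hs (φ.comp (algebraMap K L))) (x : L), (g : N ≃ₐ[ℚ] N) (φ x) = φ (ρ g x) := by
  have h1 : ∀ g : Hs (φ.comp (algebraMap K L)), ∃ r : L ≃ₐ[K] L,
      ∀ x, (g : N ≃ₐ[ℚ] N) (φ x) = φ (r x) := by
    intro g
    obtain ⟨r, hr⟩ := exists_gal (K := K) φ (((g : N ≃ₐ[ℚ] N) : N →+* N).comp φ) (by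
      ext k
      exact (mem_Hs.mp g.2 k).symm)
    exact ⟨r, hr⟩
  choose r hr using h1
  refine ⟨MonoidHom.mk' r fun a b => ?_, hr⟩
  ext x
  apply φ.injective
  rw [← hr]
  change (a : N ≃ₐ[ℚ] N) ((b : N ≃ₐ[ℚ] N) (φ x)) = φ (r a (r b x))
  rw [hr b, hr a]

lemma exists_twist_elt (φ : L →+* N)
    (ρ : Hs (φ.comp (algebraMap K L)) →* (L ≃ₐ[K] L))
    (hρ : ∀ (g : Hs (φ.comp (algebraMap K L))) (x : L), (g : N ≃ₐ[ℚ] N) (φ x) = φ (ρ g x))
    (htr : ∀ J : K →+* N, ∃ t ∈ Tc N, t • J = φ.comp (algebraMap K L))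
    (ψ : (L ≃ₐ[K] L) →* ℂˣ) (h4 : ∀ g, ψ g ^ 4 = 1) (h2 : ∃ g, ψ g ^ 2 ≠ 1)
    (hd : ∀ d : ℚ, IsSquare (algebraMap ℚ L d) → IsSquare (algebraMap ℚ K d)) :
    ∃ y : Hs (φ.comp (algebraMap K L)), (y : N ≃ₐ[ℚ] N) ∈ Tc N ∧ ψ (ρ y) ^ 2 ≠ 1 := by
  classical
  by_contra hcon
  push Not at hcon
  let φK : K →+* N := φ.comp (algebraMap K L)
  obtain ⟨g₀, hg₀⟩ := h2
  -- an element above `g₀`
  obtain ⟨y₁, hy₁, hρ₁⟩ : ∃ y₁ : Hs φK, (ρ y₁ = g₀) ∧ True := by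
    obtain ⟨t, ht⟩ := exists_aut φ (φ.comp (g₀ : L →+* L))
    have htH : t ∈ Hs φK := by
      rw [mem_Hs]
      intro k
      change t (φ (algebraMap K L k)) = φ (algebraMap K L k)
      rw [ht]
      change φ (g₀ (algebraMap K L k)) = _
      rw [AlgEquiv.commutes]
    refine ⟨⟨t, htH⟩, ?_, trivial⟩
    ext x
    apply φ.injective
    rw [← hρ]
    exact ht x
  let κ : Hs φK →* ℂˣ := (powMonoidHom 2 : ℂˣ →* ℂˣ).comp (ψ.comp ρ)
  have hκ : ∀ g, κ g = ψ (ρ g) ^ 2 := fun g => rfl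
  have hκ2 : ∀ g, κ g * κ g = 1 := fun g => by
    rw [hκ, ← pow_add]
    exact h4 _
  have hκ1 : κ y₁ ≠ 1 := by rw [hκ, hy₁]; exact hg₀
  have hκT : ∀ y : Hs φK, (y : N ≃ₐ[ℚ] N) ∈ Tc N → κ y = 1 := fun y hy => hcon y hy
  have hpm : ∀ u : ℂˣ, u * u = 1 → u = 1 ∨ u = -1 := by
    intro u hu
    have h5 : (u : ℂ) * (u : ℂ) = 1 := by rw [← Units.val_mul, hu, Units.val_one]
    rcases mul_self_eq_one_iff.mp h5 with h6 | h6
    · left; exact Units.ext h6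
    · right; exact Units.ext (by rw [h6]; simp)
  have hy1 : κ y₁ = -1 := (hpm _ (hκ2 y₁)).resolve_left hκ1
  let H₁ : Subgroup (N ≃ₐ[ℚ] N) := κ.ker.map (Hs φK).subtype
  have hH₁ : ∀ g : Hs φK, κ g = 1 → (g : N ≃ₐ[ℚ] N) ∈ H₁ := fun g hg => ⟨g, hg, rfl⟩
  let U : Subgroup (N ≃ₐ[ℚ] N) := H₁ ⊔ Tc N
  have hU : ∀ x, x ∈ U ↔ ∃ h ∈ H₁, ∃ t ∈ Tc N, h * t = x := fun x =>
    Subgroup.mem_sup_of_normal_right
  have hy₁U : (y₁ : N ≃ₐ[ℚ] N) ∉ U := by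
    rw [hU]
    rintro ⟨_, ⟨h, hh, rfl⟩, t, ht, e⟩
    have h5 : t = ((h⁻¹ * y₁ : Hs φK) : N ≃ₐ[ℚ] N) := by
      change t = (h : N ≃ₐ[ℚ] N)⁻¹ * y₁
      rw [← e]
      change t = (h : N ≃ₐ[ℚ] N)⁻¹ * ((h : N ≃ₐ[ℚ] N) * t)
      rw [inv_mul_cancel_left]
    have h6 := hκT (h⁻¹ * y₁) (by rw [← h5]; exact ht)
    rw [map_mul, map_inv] at h6
    have h7 : κ h = 1 := hh
    rw [h7, inv_one, one_mul] at h6
    exact hκ1 h6
  have hconj : ∀ u ∈ U, (y₁ : N ≃ₐ[ℚ] N)⁻¹ * u * y₁ ∈ U := by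
    intro u hu
    rw [hU] at hu ⊢
    obtain ⟨_, ⟨h, hh, rfl⟩, t, ht, rfl⟩ := hu
    refine ⟨((y₁⁻¹ * h * y₁ : Hs φK) : N ≃ₐ[ℚ] N), ⟨y₁⁻¹ * h * y₁, ?_, rfl⟩,
      (y₁ : N ≃ₐ[ℚ] N)⁻¹ * t * y₁, ?_, ?_⟩
    · have h7 : κ h = 1 := hh
      change κ (y₁⁻¹ * h * y₁) = 1
      rw [map_mul, map_mul, h7, mul_one, map_inv, inv_mul_cancel]
    · have h8 := (Tc_normal (N := N)).conj_mem t ht (y₁ : N ≃ₐ[ℚ] N)⁻¹
      rwa [inv_inv] at h8
    · change ((y₁ : N ≃ₐ[ℚ] N)⁻¹ * h * y₁) * ((y₁ : N ≃ₐ[ℚ] N)⁻¹ * t * y₁)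
        = (y₁ : N ≃ₐ[ℚ] N)⁻¹ * ((h : N ≃ₐ[ℚ] N) * t) * y₁
      group
  have hy2U : (y₁ : N ≃ₐ[ℚ] N) * y₁ ∈ U := by
    apply (le_sup_left : H₁ ≤ U)
    exact hH₁ (y₁ * y₁) (by rw [map_mul, hκ2])
  -- every element is in `U` or in `y₁ U`
  have hcov : ∀ g : N ≃ₐ[ℚ] N, g ∈ U ∨ (y₁ : N ≃ₐ[ℚ] N)⁻¹ * g ∈ U := by
    intro g
    obtain ⟨t, ht, h5⟩ := htr (g • φK)
    have h6 : t * g ∈ Hs φK := by
      change (t * g) • φK = φK
      rw [mul_smul]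
      exact h5
    have h7 : (t * g)⁻¹ * t⁻¹ * (t * g) ∈ Tc N := by
      have h8 := (Tc_normal (N := N)).conj_mem t⁻¹ (inv_mem ht) (t * g)⁻¹
      rwa [inv_inv] at h8
    have h8 : g = (t * g) * ((t * g)⁻¹ * t⁻¹ * (t * g)) := by group
    rcases hpm _ (hκ2 ⟨t * g, h6⟩) with h9 | h9
    · left
      rw [h8, hU]
      exact ⟨_, hH₁ ⟨t * g, h6⟩ h9, _, h7, rfl⟩
    · right
      rw [h8, hU]
      refine ⟨_, hH₁ (y₁⁻¹ * ⟨t * g, h6⟩) (by rw [map_mul, map_inv, hy1, h9]; simp), _, h7, ?_⟩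
      change ((y₁ : N ≃ₐ[ℚ] N)⁻¹ * (t * g)) * _ = _
      rw [mul_assoc]
  obtain ⟨z, hz, hz'⟩ : ∃ z : N, (∀ u ∈ U, u z = z) ∧ (y₁ : N ≃ₐ[ℚ] N) z ≠ z := by
    by_contra hc
    push Not at hc
    apply hy₁U
    rw [← IntermediateField.fixingSubgroup_fixedField U, IntermediateField.mem_fixingSubgroup_iff]
    intro x hx
    exact hc x fun u hu => hx ⟨u, hu⟩
  let w : N := z - (y₁ : N ≃ₐ[ℚ] N) z
  have hw0 : w ≠ 0 := sub_ne_zero.mpr (Ne.symm hz')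
  have hwU : ∀ u ∈ U, u w = w := by
    intro u hu
    have h5 := hz _ (hconj u hu)
    have h6 : u ((y₁ : N ≃ₐ[ℚ] N) z) = (y₁ : N ≃ₐ[ℚ] N) z := by
      have h7 : (y₁ : N ≃ₐ[ℚ] N) (((y₁ : N ≃ₐ[ℚ] N)⁻¹ * u * y₁) z) = (y₁ : N ≃ₐ[ℚ] N) z := by
        rw [h5]
      rw [← AlgEquiv.mul_apply] at h7
      rw [show (y₁ : N ≃ₐ[ℚ] N) * ((y₁ : N ≃ₐ[ℚ] N)⁻¹ * u * y₁) = u * y₁ by group] at h7
      exact h7
    change u (z - (y₁ : N ≃ₐ[ℚ] N) z) = _
    rw [map_sub, hz u hu, h6]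
  have hwy : (y₁ : N ≃ₐ[ℚ] N) w = -w := by
    have h5 := hz _ hy2U
    change (y₁ : N ≃ₐ[ℚ] N) (z - (y₁ : N ≃ₐ[ℚ] N) z) = -(z - (y₁ : N ≃ₐ[ℚ] N) z)
    rw [map_sub, ← AlgEquiv.mul_apply, h5]
    ring
  have hw2 : ∀ g : N ≃ₐ[ℚ] N, g (w * w) = w * w := by
    intro g
    rcases hcov g with h5 | h5
    · rw [map_mul, hwU g h5]
    · have h6 : g w = (y₁ : N ≃ₐ[ℚ] N) w := by
        have h7 := hwU _ h5
        have h8 : (y₁ : N ≃ₐ[ℚ] N) (((y₁ : N ≃ₐ[ℚ] N)⁻¹ * g) w) = (y₁ : N ≃ₐ[ℚ] N) w := by rw [h7]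
        rw [← AlgEquiv.mul_apply, mul_inv_cancel_left] at h8
        exact h8
      rw [map_mul, h6, hwy]
      ring
  obtain ⟨d, hd'⟩ := (IsGalois.mem_range_algebraMap_iff_fixed (F := ℚ) (w * w)).mpr hw2
  obtain ⟨w', hw'⟩ : ∃ w' : L, φ w' = w := by
    let φQ : L →ₐ[ℚ] N := φ.toRatAlgHom
    have h5 : w ∈ φQ.fieldRange := by
      rw [← IsGalois.fixedField_fixingSubgroup φQ.fieldRange, IntermediateField.mem_fixedField_iff]
      intro g hg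
      rw [IntermediateField.mem_fixingSubgroup_iff] at hg
      have h6 : g ∈ Hs φK := by
        rw [mem_Hs]
        intro k
        exact hg _ ⟨algebraMap K L k, rfl⟩
      have h7 : ρ ⟨g, h6⟩ = 1 := by
        ext x
        apply φ.injective
        rw [← hρ]
        exact hg _ ⟨x, rfl⟩
      apply hwU
      apply (le_sup_left : H₁ ≤ U)
      exact hH₁ ⟨g, h6⟩ (by rw [hκ, h7, map_one, one_pow])
    obtain ⟨w', hw'⟩ := h5
    exact ⟨w', hw'⟩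
  have hsq : IsSquare (algebraMap ℚ L d) := by
    refine ⟨w', ?_⟩
    apply φ.injective
    rw [map_mul, hw', ← hd']
    exact map_ratCast (φ.comp (algebraMap ℚ L)) d |>.trans (by simp)
  obtain ⟨v, hv⟩ := hd d hsq
  have h5 : φK v * φK v = w * w := by
    rw [← map_mul, ← hv, ← hd']
    simp
  have h6 : (y₁ : N ≃ₐ[ℚ] N) (φK v) = φK v := mem_Hs.mp y₁.2 v
  have h7 : (y₁ : N ≃ₐ[ℚ] N) w = w := by
    rcases mul_self_eq_mul_self_iff.mp h5 with h8 | h8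
    · rw [← h8]; exact h6
    · have h9 : w = - φK v := by rw [h8, neg_neg]
      rw [h9, map_neg, h6]
  rw [hwy] at h7
  have h8 : w = 0 := by
    have h9 : w + w = 0 := by
      nth_rewrite 1 [← h7]
      ring
    have h10 : (2 : N) * w = 0 := by rw [two_mul]; exact h9
    rcases mul_eq_zero.mp h10 with h11 | h11
    · exact absurd h11 two_ne_zero
    · exact h11
  exact hw0 h8

end dat

end Pool.Agent.W2helper73.SO
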