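import Mathlib
import Pool.Agent.W2helper73.SO.Grp
import Pool.Agent.K4H85.ST.Exact

/-!
# Exact base change: the group theory
-/

set_option autoImplicit false
set_option linter.unusedSectionVars false

namespace Pool.Agent.W2helper73.SO

open Pool.Agent.K4H74.ST Pool.Agent.R389 Pool.Agent.W446.AS Pool.Agent.H541R3.ART

section char

lemma char_mul {G : Type} [Group G] {χ χ' : G → ℂ} (h : IsChar χ) (h' : IsChar χ') :
    IsChar (fun g => χ g * χ' g) := by
  obtain ⟨V, _, _, _, ρ, rfl⟩ := h
  obtain ⟨W, _, _, _, τ, rfl⟩ := h'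
  refine ⟨TensorProduct ℂ V W, inferInstance, inferInstance, inferInstance, ρ.tprod τ, ?_⟩
  rw [Representation.char_tensor]
  rfl

lemma char_comp {G H : Type} [Group G] [Group H] {χ : G → ℂ} (h : IsChar χ) (ρ : H →* G) :
    IsChar (fun u => χ (ρ u)) := by
  obtain ⟨V, _, _, _, τ, rfl⟩ := h
  exact ⟨V, inferInstance, inferInstance, inferInstance, τ.comp ρ, rfl⟩

lemma char_class {G : Type} [Group G] {χ : G → ℂ} (h : IsChar χ) (g x : G) :
    χ (x * g * x⁻¹) = χ g := by
  obtain ⟨V, _, _, _, ρ, rfl⟩ := h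
  exact Representation.char_conj ρ g x

end char

section orb

variable {A Y : Type} [Group A] [Finite A] [Fintype Y] [MulAction A Y]

open Classical in
/-- the number of fixed points in the orbit of `y₀` -/
lemma ind_stab (y₀ : Y) (a : A) :
    ind (MulAction.stabilizer A y₀) (fun _ => (1 : ℂ)) a
      = ∑ y : Y, if y ∈ MulAction.orbit A y₀ ∧ a • y = y then 1 else 0 := by
  have : Fintype A := Fintype.ofFinite A
  have hS : (Nat.card (MulAction.stabilizer A y₀) : ℂ) ≠ 0 := by exact_mod_cast Nat.card_pos.ne'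
  rw [ind_eq, inv_mul_eq_iff_eq_mul₀ hS, Finset.mul_sum]
  have h1 : ∀ x : A, ext (MulAction.stabilizer A y₀) (fun _ => (1 : ℂ)) (x⁻¹ * a * x)
      = if a • (x • y₀) = x • y₀ then 1 else 0 := by
    intro x
    have h2 : x⁻¹ * a * x ∈ MulAction.stabilizer A y₀ ↔ a • (x • y₀) = x • y₀ := by
      rw [MulAction.mem_stabilizer_iff, mul_smul, mul_smul, inv_smul_eq_iff]
    by_cases h : a • (x • y₀) = x • y₀
    · rw [if_pos h, ext_mem _ _ (h2.mpr h)]
    · rw [if_neg h, ext_not _ _ (fun h3 => h (h2.mp h3))]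
  rw [Finset.sum_congr rfl fun x _ => h1 x,
    ← Finset.sum_fiberwise (s := Finset.univ) (g := fun x : A => x • y₀)]
  refine Finset.sum_congr rfl fun y _ => ?_
  have h3 : ∀ x ∈ Finset.univ.filter (fun x : A => x • y₀ = y),
      (if a • (x • y₀) = x • y₀ then (1 : ℂ) else 0) = if a • y = y then 1 else 0 := by
    intro x hx
    rw [Finset.mem_filter] at hx
    rw [hx.2]
  rw [Finset.sum_congr rfl h3, Finset.sum_const, nsmul_eq_mul]
  by_cases hy : y ∈ MulAction.orbit A y₀
  · have h4 : (Finset.univ.filter (fun x : A => x • y₀ = y)).card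
        = Nat.card (MulAction.stabilizer A y₀) := by
      obtain ⟨x₀, hx₀⟩ := hy
      rw [Nat.card_eq_fintype_card, ← Fintype.card_subtype]
      refine Fintype.card_congr
        { toFun := fun x => ⟨x₀⁻¹ * x.1, ?_⟩
          invFun := fun x => ⟨x₀ * x.1, ?_⟩
          left_inv := ?_
          right_inv := ?_ }
      · rw [MulAction.mem_stabilizer_iff, mul_smul, x.2, inv_smul_eq_iff]
        exact hx₀.symm
      · rw [mul_smul, MulAction.mem_stabilizer_iff.mp x.2]
        exact hx₀
      · intro x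
        apply Subtype.ext
        simp
      · intro x
        apply Subtype.ext
        simp
    rw [h4]
    simp only [hy, true_and]
  · have h4 : Finset.univ.filter (fun x : A => x • y₀ = y) = ∅ := by
      rw [Finset.filter_eq_empty_iff]
      intro x _ hx
      exact hy ⟨x, hx⟩
    rw [h4]
    simp [hy]

open Classical in
/-- the number of fixed points as a sum over the orbits -/
lemma fix_orb (a : A) :
    (∑ y : Y, if a • y = y then (1 : ℂ) else 0)
      = ∑ v : MulAction.orbitRel.Quotient A Y,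
        ind (MulAction.stabilizer A (rp (A := A) v)) (fun _ => (1 : ℂ)) a := by
  have : Fintype A := Fintype.ofFinite A
  simp only [ind_stab]
  rw [Finset.sum_comm]
  refine Finset.sum_congr rfl fun y _ => ?_
  rw [Finset.sum_eq_single (Quotient.mk _ y : MulAction.orbitRel.Quotient A Y)]
  · have h1 : y ∈ MulAction.orbit A (rp (A := A) (Quotient.mk _ y)) := by
      obtain ⟨b, hb⟩ := exists_rp (A := A) y
      exact ⟨b, hb.symm⟩
    simp only [h1, true_and]
  · intro v _ hv
    rw [if_neg]
    rintro ⟨h1, -⟩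
    apply hv
    rw [← rp_spec v]
    exact (Quotient.sound (MulAction.orbitRel_apply.mpr h1)).symm
  · intro h
    exact absurd (Finset.mem_univ _) h

end orb

section main

variable {G : Type} [Group G] [Finite G]

/-- a group with a normal Sylow `2`-subgroup -/
lemma nil_fix {V Q : Type} [Group V] [Finite V] [Group.IsNilpotent V] [Finite Q] [MulAction V Q]
    (X : Set V) (hX : ∀ c ∈ X, c * c = 1) (h1 : ∀ c ∈ X, ∃! q : Q, c • q = q) {c₀ : V}
    (hc₀ : c₀ ∈ X) : ∃ q₀ : Q, (∀ v : V, v • q₀ = q₀) ∧ ∀ c ∈ X, ∀ q : Q, c • q = q → q = q₀ := by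
  classical
  have hp : Fact (Nat.Prime 2) := ⟨Nat.prime_two⟩
  have : Fintype Q := Fintype.ofFinite Q
  obtain ⟨P⟩ : Nonempty (Sylow 2 V) := inferInstance
  have hPn : (P : Subgroup V).Normal := inferInstance
  have hmem : ∀ c ∈ X, c ∈ P := by
    intro c hc
    have h2 : IsPGroup 2 (Subgroup.zpowers c) := by
      rw [isPGroup_iff_pow_pow_eq_one]
      rintro ⟨_, i, rfl⟩
      refine ⟨1, Subtype.ext ?_⟩
      change (c ^ i) ^ 2 ^ 1 = 1
      rw [pow_one, ← zpow_natCast, ← zpow_mul, mul_comm, zpow_mul, zpow_natCast, pow_two, hX c hc,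
        one_zpow]
    obtain ⟨P', hP'⟩ := h2.exists_le_sylow
    have h3 : P' = P := by
      obtain ⟨g, hg⟩ := MulAction.exists_smul_eq V P P'
      rw [← hg]
      exact Sylow.smul_eq_of_normal
    rw [← h3]
    exact hP' (Subgroup.mem_zpowers c)
  obtain ⟨q₁, hq₁, hu₁⟩ := h1 c₀ hc₀
  have hodd : ¬ 2 ∣ Nat.card Q := by
    let f : Function.End Q := fun q => c₀ • q
    have hf : f ^ 2 ^ 1 = 1 := by
      funext q
      change c₀ • (c₀ • q) = q
      rw [smul_smul, hX c₀ hc₀, one_smul]
    have h3 := Equiv.Perm.card_fixedPoints_modEq hf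
    have h4 : Fintype.card (Function.fixedPoints f) = 1 := by
      rw [Fintype.card_eq_one_iff]
      exact ⟨⟨q₁, hq₁⟩, fun y => Subtype.ext (hu₁ y.1 y.2)⟩
    rw [h4] at h3
    rw [Nat.card_eq_fintype_card]
    intro h5
    have h6 := (Nat.modEq_zero_iff_dvd.mpr h5).symm.trans h3
    exact absurd h6 (by decide)
  obtain ⟨q₀, hq₀⟩ := P.2.nonempty_fixed_point_of_prime_not_dvd_card Q hodd
  have hq₀' : ∀ x ∈ P, x • q₀ = q₀ := fun x hx => hq₀ ⟨x, hx⟩
  have huniq : ∀ c ∈ X, ∀ q : Q, c • q = q → q = q₀ := by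
    intro c hc q hq
    obtain ⟨q', -, hu'⟩ := h1 c hc
    rw [hu' q hq, hu' q₀ (hq₀' c (hmem c hc))]
  refine ⟨q₀, fun v => ?_, huniq⟩
  apply huniq c₀ hc₀
  have h7 : v⁻¹ * c₀ * v ∈ P := by
    have := hPn.conj_mem c₀ (hmem c₀ hc₀) v⁻¹
    rwa [inv_inv] at this
  have h8 := hq₀' _ h7
  rw [mul_smul, mul_smul, inv_smul_eq_iff] at h8
  exact h8

open Classical in
lemma ind_one_eq [Fintype G] (H : Subgroup G) (g : G) :
    ind H (fun _ => (1 : ℂ)) g = ∑ q : G ⧸ H, if g • q = q then (1 : ℂ) else 0 := by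
  have h1 : MulAction.stabilizer G ((1 : G) : G ⧸ H) = H := by
    ext x
    rw [MulAction.mem_stabilizer_iff]
    change ((x * 1 : G) : G ⧸ H) = _ ↔ _
    rw [mul_one, QuotientGroup.eq]
    simp
  have h2 := ind_stab (A := G) (Y := G ⧸ H) ((1 : G) : G ⧸ H) g
  rw [h1] at h2
  rw [h2]
  refine Finset.sum_congr rfl fun q _ => ?_
  have h3 : q ∈ MulAction.orbit G ((1 : G) : G ⧸ H) := by
    rw [MulAction.orbit_eq_univ]
    trivial
  simp only [h3, true_and]

/-- **Exact base change.** If every element of `X` has exactly one fixed point on `G / H`, then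
`Ind (Res f) - f` is induced from subgroups disjoint from `X`. -/
theorem base_JJ (H : Subgroup G) (X : Set G) (hX : ∀ c ∈ X, c * c = 1)
    (h1 : ∀ c ∈ X, ∃! q : G ⧸ H, c • q = q) {f : G → ℂ} (hf : IsChar f) :
    ind H (fun h => f h) - f ∈ JJ X := by
  classical
  have : Fintype G := Fintype.ofFinite G
  let π : G → ℂ := ind H (fun _ => (1 : ℂ))
  have h1H : IsChar (fun _ : H => (1 : ℂ)) := by
    have h2 := IsChar.lc (1 : H →* ℂˣ)
    have h3 : lc (1 : H →* ℂˣ) = fun _ => 1 := by
      funext g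
      simp [lc]
    rwa [h3] at h2
  have hπ : IsChar π := Pool.Agent.K4H74.SC.isChar_ind H h1H
  let Φ : (G → ℂ) →+ (G → ℂ) := AddMonoidHom.mk' (fun g x => g x * (f x * (π x - 1)))
    (fun a b => by
      funext x
      change (a x + b x) * _ = a x * _ + b x * _
      ring)
  have hcl : ∀ g x : G, f (x * g * x⁻¹) * (π (x * g * x⁻¹) - 1) = f g * (π g - 1) := by
    intro g x
    rw [char_class hf, char_class hπ]
  have hPN : PN G ≤ (JJ X).comap Φ := by
    rw [PN, AddSubgroup.closure_le]
    rintro _ ⟨V, ψ, hV, rfl⟩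
    rw [SetLike.mem_coe, AddSubgroup.mem_comap]
    have h2 : Φ (ind V (fun h => ((ψ h : ℂˣ) : ℂ)))
        = ind V (fun h => ((ψ h : ℂˣ) : ℂ) * (f h * (π h - 1))) := by
      funext g
      exact (ind_mul V (fun h => ((ψ h : ℂˣ) : ℂ)) (F := fun x => f x * (π x - 1)) hcl g).symm
    rw [h2]
    have hψf : IsChar (fun h : V => ((ψ h : ℂˣ) : ℂ) * f h) :=
      char_mul (IsChar.lc ψ) (char_comp hf V.subtype)
    by_cases hc : ∃ c ∈ X, c ∈ V
    · obtain ⟨c, hcX, hcV⟩ := hc
      apply ind_JJ
      let XV : Set V := {x : V | (x : G) ∈ X}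
      obtain ⟨q₀, hq₀, hu⟩ := nil_fix (V := V) (Q := G ⧸ H) XV
        (fun x hx => Subtype.ext (hX x hx)) (fun x hx => h1 x hx) (c₀ := ⟨c, hcV⟩) hcX
      have h3 : ∀ v : V, π v = ∑ w : MulAction.orbitRel.Quotient V (G ⧸ H),
          ind (MulAction.stabilizer V (rp (A := V) w)) (fun _ => (1 : ℂ)) v := by
        intro v
        rw [← fix_orb]
        exact (ind_one_eq H (v : G)).trans (Finset.sum_congr rfl fun q _ => by congr)
      let w₀ : MulAction.orbitRel.Quotient V (G ⧸ H) := Quotient.mk _ q₀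
      have h4 : ∀ w : MulAction.orbitRel.Quotient V (G ⧸ H), w ≠ w₀ →
          ∀ x ∈ XV, x ∉ MulAction.stabilizer V (rp (A := V) w) := by
        intro w hw x hx hxs
        have h5 := hu x hx _ hxs
        apply hw
        rw [← rp_spec w, h5]
      have h5 : ∀ v : V, ind (MulAction.stabilizer V (rp (A := V) w₀)) (fun _ => (1 : ℂ)) v = 1 := by
        intro v
        have h6 : rp (A := V) w₀ = q₀ := by
          obtain ⟨b, hb⟩ := exists_rp (A := V) q₀
          have h7 : rp (A := V) w₀ = b⁻¹ • q₀ := by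
            rw [eq_inv_smul_iff]
            exact hb.symm
          rw [h7]
          exact hq₀ b⁻¹
        rw [h6]
        have h7 : MulAction.stabilizer V q₀ = ⊤ := by
          rw [eq_top_iff]
          intro x _
          exact hq₀ x
        have h8 := ind_stab (A := V) q₀ v
        rw [h8, Finset.sum_eq_single q₀]
        · rw [if_pos ⟨MulAction.mem_orbit_self q₀, hq₀ v⟩]
        · intro q _ hq
          rw [if_neg]
          rintro ⟨⟨b, hb⟩, -⟩
          apply hq
          rw [← hb]
          exact hq₀ b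
        · intro h9
          exact absurd (Finset.mem_univ _) h9
      have h6 : (fun h : V => ((ψ h : ℂˣ) : ℂ) * (f h * (π h - 1)))
          = ∑ w ∈ Finset.univ.erase w₀, ind (MulAction.stabilizer V (rp (A := V) w))
            (fun h => ((ψ h : ℂˣ) : ℂ) * f h) := by
        funext v
        rw [Finset.sum_apply]
        have h7 : π v - 1 = ∑ w ∈ Finset.univ.erase w₀,
            ind (MulAction.stabilizer V (rp (A := V) w)) (fun _ => (1 : ℂ)) v := by
          rw [h3 v, ← Finset.add_sum_erase Finset.univ _ (Finset.mem_univ w₀), h5 v]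
          ring
        rw [h7, ← mul_assoc, Finset.mul_sum]
        refine Finset.sum_congr rfl fun w _ => ?_
        have h8 := ind_mul (MulAction.stabilizer V (rp (A := V) w)) (fun _ => (1 : ℂ))
          (F := fun h : V => ((ψ h : ℂˣ) : ℂ) * f h) (fun g x => char_class hψf g x) v
        simp only [one_mul] at h8
        rw [mul_comm]
        exact h8.symm
      rw [h6]
      refine sum_mem fun w hw => ?_
      apply Pool.Agent.K4H85.ST.virt_free (X := XV) _ (h4 w (Finset.ne_of_mem_erase hw))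
      exact (char_comp hψf (MulAction.stabilizer V (rp (A := V) w)).subtype).virt
    · push Not at hc
      apply Pool.Agent.K4H85.ST.virt_free V hc
      have h3 : IsChar (fun h : V => (((ψ h : ℂˣ) : ℂ) * f h) * π h) :=
        char_mul hψf (char_comp hπ V.subtype)
      have h4 : (fun h : V => ((ψ h : ℂˣ) : ℂ) * (f h * (π h - 1)))
          = (fun h : V => (((ψ h : ℂˣ) : ℂ) * f h) * π h) - (fun h : V => ((ψ h : ℂˣ) : ℂ) * f h) := by
        funext h
        change _ = (((ψ h : ℂˣ) : ℂ) * f h) * π h - ((ψ h : ℂˣ) : ℂ) * f h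
        ring
      rw [h4]
      exact AddSubgroup.sub_mem _ h3.virt hψf.virt
  have h2 := hPN (one_mem_pn (U := G))
  rw [AddSubgroup.mem_comap] at h2
  have h3 : Φ (fun _ => 1) = ind H (fun h => f h) - f := by
    funext g
    change (1 : ℂ) * (f g * (π g - 1)) = ind H (fun h => f h) g - f g
    have h4 := ind_mul H (fun _ => (1 : ℂ)) (F := f) (fun g x => char_class hf g x) g
    simp only [one_mul] at h4
    rw [h4]
    change _ = π g * f g - f g
    ring
  rwa [h3] at h2

end main

end Pool.Agent.W2helper73.SO
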