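import Mathlib
import Pool.Agent.W2helper73.SO.Dat

/-!
# The two-group and its character: existence
-/

set_option autoImplicit false
set_option linter.unusedSectionVars false

namespace Pool.Agent.W2helper73.SO

open Pool.Agent.K4H74.ST NumberField NumberField.ComplexEmbedding

variable {N : Type} [Field N] [NumberField N] [IsGalois ℚ N]
variable {K : Type} [Field K] [NumberField K]
variable {L : Type} [Field L] [NumberField L] [Algebra K L] [IsGalois K L]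

/-- a two-group of automorphisms over the real embedding of `K`, with the character `ψ` on it -/
theorem exists_datum (hK : InfinitePlace.nrRealPlaces K = 1) (φ : L →+* N)
    (ψ : (L ≃ₐ[K] L) →* ℂˣ) (h4 : ∀ g, ψ g ^ 4 = 1) (h2 : ∃ g, ψ g ^ 2 ≠ 1)
    (hd : ∀ d : ℚ, IsSquare (algebraMap ℚ L d) → IsSquare (algebraMap ℚ K d)) :
    ∃ (S : Subgroup (N ≃ₐ[ℚ] N)) (θ : S →* ℂˣ) (c x : S), IsPGroup 2 S ∧ (∀ s, θ s ^ 4 = 1) ∧
      (∀ s : S, ∃ g : L ≃ₐ[K] L, Rl s φ g) ∧ (∀ (s : S) (g : L ≃ₐ[K] L), Rl s φ g → ψ g = θ s) ∧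
      (∃ j : N →+* ℂ, IsConj j (c : N ≃ₐ[ℚ] N)) ∧
      (∀ J : K →+* N, (∀ k, (c : N ≃ₐ[ℚ] N) (J k) = J k) → J = φ.comp (algebraMap K L)) ∧
      (x : N ≃ₐ[ℚ] N) ∈ Tc N ∧ θ x ^ 2 ≠ 1 := by
  classical
  have hp : Fact (Nat.Prime 2) := ⟨Nat.prime_two⟩
  let φK : K →+* N := φ.comp (algebraMap K L)
  obtain ⟨φ₀, hφ₀, huniq⟩ := exists_real hK
  -- an embedding of `N` over the real embedding
  obtain ⟨j, hj⟩ : ∃ j : N →+* ℂ, j.comp φK = φ₀ := by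
    let : Algebra K N := φK.toAlgebra
    have : IsScalarTower ℚ K N := IsScalarTower.of_algebraMap_eq' (RingHom.ext fun x => by simp)
    have : Algebra.IsAlgebraic K N := Algebra.IsAlgebraic.tower_top (K := ℚ) K
    exact ⟨ComplexEmbedding.lift N φ₀, ComplexEmbedding.lift_comp_algebraMap N _⟩
  obtain ⟨c, hc⟩ := exists_conj (K := ℚ) (φ := j) (by
    rw [ComplexEmbedding.isReal_iff]
    ext x
    simp)
  have hfix : ∀ {j' : N →+* ℂ} {c' : N ≃ₐ[ℚ] N}, IsConj j' c' → ∀ J : K →+* N,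
      (∀ k, c' (J k) = J k) ↔ IsReal (j'.comp J) := by
    intro j' c' h J
    rw [ComplexEmbedding.isReal_iff]
    constructor
    · intro h1
      ext k
      have h3 := h.eq (J k)
      rw [h1] at h3
      exact h3.symm
    · intro h1 k
      apply j'.injective
      rw [h.eq]
      exact RingHom.congr_fun h1 k
  have hcH : c ∈ Hs φK := mem_Hs.mpr ((hfix hc φK).mpr (by rw [hj]; exact hφ₀))
  have hcu : ∀ J : K →+* N, (∀ k, c (J k) = J k) → J = φK := by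
    intro J hJ
    have h1 := huniq _ ((hfix hc J).mp hJ)
    rw [← hj] at h1
    ext k
    apply j.injective
    exact RingHom.congr_fun h1 k
  obtain ⟨ρ, hρ⟩ := exists_rho (K := K) φ
  have htr : ∀ J : K →+* N, ∃ t ∈ Tc N, t • J = φK := fun J =>
    Tc_trans φK ⟨j, hc⟩ (RingHom.ext (mem_Hs.mp hcH))
      (fun J' h => hcu J' fun k => RingHom.congr_fun h k) J
  obtain ⟨y, hyT, hy⟩ := exists_twist_elt φ ρ hρ htr ψ h4 h2 hd
  -- the part of two-power order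
  obtain ⟨a, m, hm, hn⟩ := Nat.exists_eq_two_pow_mul_odd (n := orderOf y) (orderOf_pos y).ne'
  let y₂ : Hs φK := y ^ m
  have hy₂T : (y₂ : N ≃ₐ[ℚ] N) ∈ Tc N := (Tc N).pow_mem hyT m
  have hy₂ : ψ (ρ y₂) ^ 2 ≠ 1 := by
    intro h1
    apply hy
    rw [map_pow, map_pow] at h1
    obtain ⟨b, rfl⟩ := hm
    have h3 : ψ (ρ y) ^ 2 = ((ψ (ρ y)) ^ (2 * b + 1)) ^ 2 := by
      rw [← pow_mul]
      have : (2 * b + 1) * 2 = 4 * b + 2 := by ring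
      rw [this, pow_add, pow_mul, h4, one_pow, one_mul]
    rw [h3, h1]
  have hy₂p : y₂ ^ 2 ^ a = 1 := by
    change (y ^ m) ^ 2 ^ a = 1
    rw [← pow_mul, mul_comm, ← hn, pow_orderOf_eq_one]
  have hz : ∀ (g : Hs φK) (b : ℕ), g ^ 2 ^ b = 1 → IsPGroup 2 (Subgroup.zpowers g) := by
    intro g b hg
    rw [isPGroup_iff_pow_pow_eq_one]
    rintro ⟨_, i, rfl⟩
    refine ⟨b, Subtype.ext ?_⟩
    change (g ^ i) ^ 2 ^ b = 1
    rw [← zpow_natCast, ← zpow_mul, mul_comm, zpow_mul, zpow_natCast, hg, one_zpow]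
  obtain ⟨P, hP⟩ := (hz y₂ a hy₂p).exists_le_sylow
  let cH : Hs φK := ⟨c, hcH⟩
  obtain ⟨P', hP'⟩ := (hz cH 1 (by
    rw [pow_one, pow_two]
    exact Subtype.ext (isConj_sq hc))).exists_le_sylow
  obtain ⟨h, hh⟩ := MulAction.exists_smul_eq (Hs φK) P' P
  have hc' : h * cH * h⁻¹ ∈ P := by
    rw [← hh]
    exact Subgroup.smul_mem_pointwise_smul cH (MulAut.conj h) (P' : Subgroup (Hs φK))
      (hP' (Subgroup.mem_zpowers cH))
  let S : Subgroup (N ≃ₐ[ℚ] N) := (P : Subgroup (Hs φK)).map (Hs φK).subtype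
  have hSH : S ≤ Hs φK := by
    rintro _ ⟨g, -, rfl⟩
    exact g.2
  let θ : S →* ℂˣ := (ψ.comp ρ).comp (Subgroup.inclusion hSH)
  have hθ : ∀ s : S, θ s = ψ (ρ ⟨s, hSH s.2⟩) := fun s => rfl
  refine ⟨S, θ, ⟨_, h * cH * h⁻¹, hc', rfl⟩, ⟨_, y₂, hP (Subgroup.mem_zpowers y₂), rfl⟩,
    ?_, fun s => h4 _, fun s => ⟨ρ ⟨s, hSH s.2⟩, fun x => hρ ⟨s, hSH s.2⟩ x⟩, fun s g hg => ?_, ?_, ?_, hy₂T, hy₂⟩
  · exact P.2.map _
  · rw [hθ]
    congr 1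
    ext x
    apply φ.injective
    rw [← hg x, ← hρ]
  · have h5 := hc.comp ((h⁻¹ : Hs φK) : N ≃ₐ[ℚ] N)
    have h6 : ((h⁻¹ : Hs φK) : N ≃ₐ[ℚ] N)⁻¹ * c * ((h⁻¹ : Hs φK) : N ≃ₐ[ℚ] N)
        = (h : N ≃ₐ[ℚ] N) * c * (h : N ≃ₐ[ℚ] N)⁻¹ := by
      change ((h : N ≃ₐ[ℚ] N)⁻¹)⁻¹ * c * (h : N ≃ₐ[ℚ] N)⁻¹ = _
      rw [inv_inv]
    rw [h6] at h5
    exact ⟨_, h5⟩
  · intro J hJ
    have h6 : ∀ k, c (((h : N ≃ₐ[ℚ] N)⁻¹ • J) k) = ((h : N ≃ₐ[ℚ] N)⁻¹ • J) k := by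
      intro k
      have h7 := hJ k
      change (h : N ≃ₐ[ℚ] N) (c ((h : N ≃ₐ[ℚ] N)⁻¹ (J k))) = J k at h7
      change c ((h : N ≃ₐ[ℚ] N)⁻¹ (J k)) = (h : N ≃ₐ[ℚ] N)⁻¹ (J k)
      nth_rewrite 2 [← h7]
      exact (AlgEquiv.symm_apply_apply (h : N ≃ₐ[ℚ] N) _).symm
    have h7 := hcu _ h6
    have h8 : (h : N ≃ₐ[ℚ] N) • φK = φK := h.2
    calc J = (h : N ≃ₐ[ℚ] N) • ((h : N ≃ₐ[ℚ] N)⁻¹ • J) := by
          rw [smul_smul, mul_inv_cancel, one_smul]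
      _ = (h : N ≃ₐ[ℚ] N) • φK := by rw [h7]
      _ = φK := h8

end Pool.Agent.W2helper73.SO
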