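import Mathlib
import Pool.Agent.W2helper73.SO.Datum

/-!
# The invariant at a finite level: the properties
-/

set_option autoImplicit false
set_option linter.unusedSectionVars false

namespace Pool.Agent.W2helper73.SO

open Pool.Agent.K4H74.ST NumberField NumberField.ComplexEmbedding

section lam

variable {S : Type} [Group S] [Finite S]

lemma Lam_mul (k : S →* ℤˣ) (s : S) : ((k s : ℤ) : ℂ) * Lam s = Lam s := by
  rw [Lam, Finset.mul_sum]
  refine Fintype.sum_equiv (Equiv.mulLeft k) _ _ fun l => ?_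
  change _ = (((k s * l s : ℤˣ) : ℤ) : ℂ)
  rw [Units.val_mul]
  push_cast
  rfl

lemma Lam_eq (s : S) : Lam s = 0 ∨ Lam s = (Fintype.card (S →* ℤˣ) : ℂ) := by
  by_cases h : ∃ k : S →* ℤˣ, k s ≠ 1
  · left
    obtain ⟨k, hk⟩ := h
    have h1 := Lam_mul k s
    have h2 : k s = -1 := (Int.units_eq_one_or (k s)).resolve_left hk
    rw [h2, Units.val_neg, Units.val_one] at h1
    push_cast at h1
    have h3 : (2 : ℂ) * Lam s = 0 := by linear_combination -h1
    rcases mul_eq_zero.mp h3 with h4 | h4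
    · exact absurd h4 two_ne_zero
    · exact h4
  · right
    push Not at h
    rw [Lam]
    simp [h]

lemma Lam_norm (s : S) : ((‖Lam s‖ : ℝ) : ℂ) = Lam s := by
  rcases Lam_eq s with h | h
  · rw [h]; simp
  · rw [h]; simp

lemma Lam_sum [Fintype S] : ∑ s : S, Lam s = (Fintype.card S : ℂ) := by
  classical
  simp only [Lam]
  rw [Finset.sum_comm, Finset.sum_eq_single 1]
  · simp
  · intro l _ hl
    obtain ⟨s₀, hs₀⟩ : ∃ s₀, l s₀ ≠ 1 := by
      by_contra hc
      push Not at hc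
      exact hl (MonoidHom.ext hc)
    have h2 : l s₀ = -1 := (Int.units_eq_one_or (l s₀)).resolve_left hs₀
    have h1 : ∑ s : S, ((l s : ℤ) : ℂ) = - ∑ s : S, ((l s : ℤ) : ℂ) := by
      rw [← Finset.sum_neg_distrib]
      refine Fintype.sum_equiv (Equiv.mulLeft s₀) _ _ fun s => ?_
      change _ = -(((l (s₀ * s) : ℤˣ) : ℤ) : ℂ)
      rw [map_mul, h2]
      simp
    have h3 : (2 : ℂ) * ∑ s : S, ((l s : ℤ) : ℂ) = 0 := by linear_combination h1
    rcases mul_eq_zero.mp h3 with h4 | h4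
    · exact absurd h4 two_ne_zero
    · exact h4
  · intro h
    exact absurd (Finset.mem_univ _) h

end lam

section lev

variable {N : Type} [Field N] [NumberField N] [IsGalois ℚ N]
variable {S : Subgroup (N ≃ₐ[ℚ] N)} (θ : S →* ℂˣ)
variable {K L : Type} [Field K] [NumberField K] [Field L] [NumberField L] [Algebra K L]
  [IsGalois K L]

lemma norm_theta {θ : S →* ℂˣ} (h4 : ∀ s, θ s ^ 4 = 1) (s : S) : ‖((θ s : ℂˣ) : ℂ)‖ = 1 := by
  have h1 : ‖((θ s : ℂˣ) : ℂ)‖ ^ 4 = 1 := by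
    rw [← norm_pow, ← Units.val_pow_eq_pow_val, h4, Units.val_one, norm_one]
  exact (pow_eq_one_iff_of_nonneg (norm_nonneg _) (by norm_num)).mp h1

lemma conj_theta {θ : S →* ℂˣ} (h4 : ∀ s, θ s ^ 4 = 1) (s : S) :
    star (((θ s)⁻¹ : ℂˣ) : ℂ) = ((θ s : ℂˣ) : ℂ) := by
  have h1 := norm_theta h4 s
  have h2 : ((θ s : ℂˣ) : ℂ) * star ((θ s : ℂˣ) : ℂ) = 1 := by
    change _ * (starRingEnd ℂ) _ = 1
    rw [Complex.mul_conj, Complex.normSq_eq_norm_sq, h1]
    simp
  have h3 : star (((θ s)⁻¹ : ℂˣ) : ℂ) * star ((θ s : ℂˣ) : ℂ) = 1 := by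
    rw [← star_mul', ← Units.val_mul, inv_mul_cancel, Units.val_one, star_one]
  have h4' : star ((θ s : ℂˣ) : ℂ) ≠ 0 := by
    intro h
    rw [h, mul_zero] at h2
    exact zero_ne_one h2
  exact mul_right_cancel₀ h4' (h3.trans h2.symm)

/-- the quadratic character `θ²` -/
lemma exists_kappa {θ : S →* ℂˣ} (h4 : ∀ s, θ s ^ 4 = 1) :
    ∃ k : S →* ℤˣ, ∀ s, ((θ s : ℂˣ) : ℂ) ^ 2 = ((k s : ℤ) : ℂ) := by
  classical
  have hpm : ∀ s, θ s ^ 2 = 1 ∨ θ s ^ 2 = -1 := by
    intro s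
    have h5 : ((θ s ^ 2 : ℂˣ) : ℂ) * ((θ s ^ 2 : ℂˣ) : ℂ) = 1 := by
      rw [← Units.val_mul, ← pow_add, h4, Units.val_one]
    rcases mul_self_eq_one_iff.mp h5 with h6 | h6
    · left; exact Units.ext h6
    · right; exact Units.ext (by rw [h6]; simp)
  have hne : (-1 : ℂˣ) ≠ 1 := neg_one_ne
  refine ⟨MonoidHom.mk' (fun s => if θ s ^ 2 = 1 then 1 else -1) ?_, ?_⟩
  · intro a b
    have h : θ (a * b) ^ 2 = θ a ^ 2 * θ b ^ 2 := by rw [map_mul, mul_pow]
    rcases hpm a with ha | ha <;> rcases hpm b with hb | hb <;>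
      rw [ha, hb] at h <;> simp only [h, ha, hb] <;> simp [hne]
  · intro s
    change _ = (((if θ s ^ 2 = 1 then 1 else -1 : ℤˣ) : ℤ) : ℂ)
    rcases hpm s with ha | ha
    · rw [if_pos ha, ← Units.val_pow_eq_pow_val, ha]
      simp
    · rw [if_neg (by rw [ha]; exact hne), ← Units.val_pow_eq_pow_val, ha]
      simp

/-- totally complex base fields -/
lemma lev_complex (hS : IsPGroup 2 S) {c : S} (hc : ∃ j : N →+* ℂ, IsConj j (c : N ≃ₐ[ℚ] N))
    (hK : IsTotallyComplex K) {χ : (L ≃ₐ[K] L) → ℂ} (h : IsChar χ) :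
    ∃ n : ℤ, FN S (wt θ) K L χ = 2 * n := by
  refine FN_even θ h fun y => even_proper θ hS h y (s₀ := c) ?_
  rintro ⟨g, hg⟩
  obtain ⟨j, hj⟩ := hc
  have h1 : IsReal ((j.comp y).comp (algebraMap K L)) := by
    rw [ComplexEmbedding.isReal_iff]
    ext k
    have h2 := hj.eq (y (algebraMap K L k))
    have h3 := hg (algebraMap K L k)
    rw [AlgEquiv.commutes] at h3
    rw [h3] at h2
    exact h2.symm
  have h2 := hK.isComplex (InfinitePlace.mk ((j.comp y).comp (algebraMap K L)))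
  rw [InfinitePlace.isComplex_mk_iff] at h2
  exact h2 h1

/-- real valued characters -/
lemma lev_real (h4 : ∀ s, θ s ^ 4 = 1) {x : S} (hx : θ x ^ 2 ≠ 1)
    {χ : (L ≃ₐ[K] L) → ℂ} (h : IsChar χ) (hr : ∀ g, (χ g).im = 0) :
    ∃ n : ℤ, FN S (wt θ) K L χ = 2 * n := by
  obtain ⟨k, hk⟩ := exists_kappa h4
  refine FN_even θ h fun y => even_sigma θ (starRingEnd ℂ) (κ := k) ?_ (fun s => ?_) h
    (fun g => Complex.conj_eq_iff_im.mpr (hr g)) y
  · intro h1
    apply hx
    apply Units.ext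
    rw [Units.val_pow_eq_pow_val, hk, h1]
    simp
  · change star _ = _
    rw [conj_theta h4, ← hk]
    have h5 : (((θ s)⁻¹ : ℂˣ) : ℂ) * ((θ s : ℂˣ) : ℂ) = 1 := by
      rw [← Units.val_mul, inv_mul_cancel, Units.val_one]
    rw [pow_two, ← mul_assoc, h5, one_mul]

/-- totally real base fields, complex conjugations act as scalars -/
lemma lev_scalar {x : S} (hx : θ x ^ 2 ≠ 1) (hxT : (x : N ≃ₐ[ℚ] N) ∈ Tc N)
    (hK : IsTotallyReal K) {χ : (L ≃ₐ[K] L) → ℂ} (h : IsChar χ)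
    (hc : ∀ c ∈ CC K L, ∃ e : ℂ, e ^ 2 = 1 ∧ ∀ g, χ (c * g) = e * χ g) :
    ∃ n : ℤ, FN S (wt θ) K L χ = 2 * n := by
  refine FN_even θ h fun y => ⟨0, ?_⟩
  have h1 : ∀ t ∈ Tc N, ∃ g : L ≃ₐ[K] L, (∀ z, t (y z) = y (g z)) ∧
      ∃ e : ℂ, e ^ 2 = 1 ∧ ∀ g', χ (g * g') = e * χ g' := by
    intro t ht
    induction ht using Subgroup.closure_induction with
    | mem t ht =>
      obtain ⟨j, hj⟩ := ht
      obtain ⟨g, hg⟩ := exists_conj (K := K) (φ := j.comp y) (by
        have h3 := hK.isReal (InfinitePlace.mk ((j.comp y).comp (algebraMap K L)))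
        rw [InfinitePlace.isReal_mk_iff] at h3
        exact h3)
      refine ⟨g, fun z => ?_, hc g ⟨_, hg⟩⟩
      apply j.injective
      rw [hj.eq]
      exact (hg.eq z).symm
    | one => exact ⟨1, fun z => rfl, 1, one_pow 2, fun g' => by rw [one_mul, one_mul]⟩
    | mul a b _ _ ha hb =>
      obtain ⟨g, hg, e, he, hχ⟩ := ha
      obtain ⟨g', hg', e', he', hχ'⟩ := hb
      refine ⟨g * g', fun z => ?_, e * e', ?_, fun u => ?_⟩
      · rw [AlgEquiv.mul_apply, AlgEquiv.mul_apply, hg', hg]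
      · rw [mul_pow, he, he', one_mul]
      · rw [mul_assoc, hχ, hχ', mul_assoc]
    | inv a _ ha =>
      obtain ⟨g, hg, e, he, hχ⟩ := ha
      refine ⟨g⁻¹, fun z => ?_, e, he, fun u => ?_⟩
      · apply a.injective
        rw [← AlgEquiv.mul_apply, mul_inv_cancel, AlgEquiv.one_apply, hg, ← AlgEquiv.mul_apply,
          mul_inv_cancel, AlgEquiv.one_apply]
      · have h3 := hχ (g⁻¹ * u)
        rw [mul_inv_cancel_left] at h3
        rw [h3, ← mul_assoc, ← pow_two, he, one_mul]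
  obtain ⟨g, hg, e, he, hχ⟩ := h1 x hxT
  rw [Int.cast_zero, mul_zero]
  exact zero_scalar θ y (s₀ := x) (g₀ := g) hg hx he hχ

/-- the odd value -/
lemma lev_odd (hS : IsPGroup 2 S) (φ : L →+* N) (ψ : (L ≃ₐ[K] L) →* ℂˣ)
    (h₀ : ∀ s : S, ∃ g : L ≃ₐ[K] L, Rl s φ g)
    (h₁ : ∀ (s : S) (g : L ≃ₐ[K] L), Rl s φ g → ψ g = θ s) {c : S}
    (hc : ∀ J : K →+* N, (∀ k, (c : N ≃ₐ[ℚ] N) (J k) = J k) → J = φ.comp (algebraMap K L)) :
    ∃ n : ℤ, FN S (wt θ) K L (lc ψ) = 2 * n + 1 := by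
  refine FN_odd θ (IsChar.lc ψ) φ (one_val θ φ h₀ fun s g hg => ?_) fun y hy => ?_
  · rw [← h₁ s g hg]
    rfl
  · refine even_proper θ hS (IsChar.lc ψ) y (s₀ := c) ?_
    rintro ⟨g, hg⟩
    apply hy
    apply exists_gal (K := K)
    symm
    apply hc
    intro k
    have h3 := hg (algebraMap K L k)
    rw [AlgEquiv.commutes] at h3
    exact h3

/-- the bound -/
lemma lev_bound (h4 : ∀ s, θ s ^ 4 = 1) (χ : (L ≃ₐ[K] L) → ℂ) :
    ‖FN S (wt θ) K L χ‖ ≤ Fintype.card (L →+* ℂ) * ∑ g, ‖χ g‖ := by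
  classical
  obtain ⟨j⟩ : Nonempty (N →+* ℂ) := inferInstance
  have hJ : (Fintype.card (L →+* N) : ℝ) ≤ Fintype.card (L →+* ℂ) := by
    exact_mod_cast Fintype.card_le_of_injective (fun J : L →+* N => j.comp J) (fun a b hab => by
      ext x
      exact j.injective (RingHom.congr_fun hab x))
  set C : ℝ := ∑ g, ‖χ g‖ with hC
  have hC0 : 0 ≤ C := Finset.sum_nonneg fun g _ => norm_nonneg _
  have hD : ∀ (J : L →+* N) (s : S), ‖Dd χ J s‖ ≤ C := by
    intro J s
    rw [Dd]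
    refine (norm_sum_le _ _).trans (Finset.sum_le_sum fun g _ => ?_)
    split_ifs
    · exact le_rfl
    · rw [norm_zero]; exact norm_nonneg _
  have hw : ∀ s : S, ‖wt θ s‖ = ‖Lam s‖ := by
    intro s
    rw [wt, norm_mul, Units.val_inv_eq_inv_val, norm_inv, norm_theta h4, inv_one, one_mul]
  have hL : ∑ s : S, ‖Lam s‖ = Nat.card S := by
    have h5 : ((∑ s : S, ‖Lam s‖ : ℝ) : ℂ) = (Nat.card S : ℂ) := by
      rw [Complex.ofReal_sum, Nat.card_eq_fintype_card, ← Lam_sum]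
      exact Finset.sum_congr rfl fun s _ => Lam_norm s
    exact_mod_cast h5
  have h6 : ‖∑ s : S, wt θ s * ∑ J : L →+* N, Dd χ J s‖
      ≤ Nat.card S * (Fintype.card (L →+* ℂ) * C) := by
    refine (norm_sum_le _ _).trans ?_
    rw [← hL, Finset.sum_mul]
    refine Finset.sum_le_sum fun s _ => ?_
    rw [norm_mul, hw]
    refine mul_le_mul_of_nonneg_left ?_ (norm_nonneg _)
    refine (norm_sum_le _ _).trans ?_
    refine (Finset.sum_le_sum fun J _ => hD J s).trans ?_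
    rw [Finset.sum_const, Finset.card_univ, nsmul_eq_mul]
    exact mul_le_mul_of_nonneg_right hJ hC0
  have hS0 : (0 : ℝ) < Nat.card S := by exact_mod_cast Nat.card_pos
  have hG0 : (1 : ℝ) ≤ Nat.card (L ≃ₐ[K] L) := by exact_mod_cast Nat.card_pos
  have hB0 : 0 ≤ (Fintype.card (L →+* ℂ) : ℝ) * C := mul_nonneg (Nat.cast_nonneg _) hC0
  rw [FN, norm_mul, norm_inv, norm_mul, Complex.norm_natCast, Complex.norm_natCast]
  rw [inv_mul_le_iff₀ (by positivity)]
  refine h6.trans ?_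
  rw [mul_assoc]
  refine mul_le_mul_of_nonneg_left ?_ hS0.le
  exact le_mul_of_one_le_left hB0 hG0

/-- conjugate characters -/
lemma lev_galois (h4 : ∀ s, θ s ^ 4 = 1) (σ : ℂ ≃+* ℂ) {χ : (L ≃ₐ[K] L) → ℂ} (h : IsChar χ) :
    FN S (wt θ) K L (fun g => σ (χ g)) = FN S (wt θ) K L χ := by
  classical
  have hfin : FiniteDimensional K L := Module.Finite.of_restrictScalars_finite ℚ K L
  obtain ⟨n, hn⟩ := FN_int θ h
  obtain ⟨k, hk⟩ := exists_kappa h4
  -- the action on the fourth roots of unity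
  have hu : (∀ u : ℂˣ, u ^ 4 = 1 → σ (u : ℂ) = u) ∨ (∀ u : ℂˣ, u ^ 4 = 1 → σ (u : ℂ) = (u : ℂ) ^ 3) := by
    have hcases : ∀ u : ℂˣ, u ^ 4 = 1 → (u : ℂ) = 1 ∨ (u : ℂ) = -1 ∨ (u : ℂ) = Complex.I ∨
        (u : ℂ) = -Complex.I := by
      intro u hu
      have h5 : (u : ℂ) ^ 4 = 1 := by rw [← Units.val_pow_eq_pow_val, hu, Units.val_one]
      have h6 : ((u : ℂ) - 1) * ((u : ℂ) + 1) * ((u : ℂ) - Complex.I) * ((u : ℂ) + Complex.I) = 0 := by
        have : Complex.I * Complex.I = -1 := Complex.I_mul_I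
        linear_combination h5 + (1 - (u : ℂ) ^ 2) * this
      rcases mul_eq_zero.mp h6 with h6 | h6
      · rcases mul_eq_zero.mp h6 with h6 | h6
        · rcases mul_eq_zero.mp h6 with h6 | h6
          · left; linear_combination h6
          · right; left; linear_combination h6
        · right; right; left; linear_combination h6
      · right; right; right; linear_combination h6
    have hI : σ Complex.I = Complex.I ∨ σ Complex.I = -Complex.I := by
      have h5 : (σ Complex.I - Complex.I) * (σ Complex.I + Complex.I) = 0 := by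
        have h6 : σ Complex.I * σ Complex.I = -1 := by
          rw [← map_mul, Complex.I_mul_I, map_neg, map_one]
        linear_combination h6 - Complex.I_mul_I
      rcases mul_eq_zero.mp h5 with h5 | h5
      · left; linear_combination h5
      · right; linear_combination h5
    rcases hI with hI | hI
    · left
      intro u hu
      rcases hcases u hu with h5 | h5 | h5 | h5 <;> rw [h5] <;> simp [hI]
    · right
      intro u hu
      have hI3 : Complex.I ^ 3 = -Complex.I := Complex.I_pow_three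
      have hI3' : (-Complex.I) ^ 3 = Complex.I := by
        rw [Odd.neg_pow (by decide), hI3, neg_neg]
      rcases hcases u hu with h5 | h5 | h5 | h5 <;> rw [h5]
      · simp
      · norm_num
      · rw [hI, hI3]
      · rw [map_neg, hI, hI3', neg_neg]
  have hwt : ∀ s, σ (wt θ s) = wt θ s := by
    intro s
    have hLs : σ (Lam s) = Lam s := by
      rw [Lam, map_sum]
      exact Finset.sum_congr rfl fun l _ => map_intCast σ _
    rw [wt, map_mul, hLs]
    have hinv : ((θ s)⁻¹ : ℂˣ) ^ 4 = 1 := by rw [inv_pow, h4, inv_one]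
    rcases hu with hu | hu
    · rw [hu _ hinv]
    · rw [hu _ hinv]
      have h5 : ((((θ s)⁻¹ : ℂˣ) : ℂ)) ^ 3 = (((θ s)⁻¹ : ℂˣ) : ℂ) * ((k s : ℤ) : ℂ) := by
        rw [← hk]
        have h6 : (((θ s)⁻¹ : ℂˣ) : ℂ) ^ 2 = ((θ s : ℂˣ) : ℂ) ^ 2 := by
          rw [← Units.val_pow_eq_pow_val, ← Units.val_pow_eq_pow_val]
          congr 1
          rw [inv_pow]
          rw [inv_eq_iff_mul_eq_one, ← pow_add]
          exact h4 s
        rw [pow_succ, h6]
        ring
      rw [h5, mul_assoc, Lam_mul]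
  have h7 : FN S (wt θ) K L (fun g => σ (χ g)) = σ (FN S (wt θ) K L χ) := by
    rw [FN, FN, map_mul, map_inv₀, map_mul, map_natCast, map_natCast, map_sum]
    congr 1
    refine Finset.sum_congr rfl fun s _ => ?_
    rw [map_mul, hwt, map_sum]
    congr 1
    refine Finset.sum_congr rfl fun J _ => ?_
    rw [Dd, Dd, map_sum]
    refine Finset.sum_congr rfl fun g _ => ?_
    split_ifs
    · rfl
    · rw [map_zero]
  rw [h7, hn, map_intCast]

end lev

end Pool.Agent.W2helper73.SO
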