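import Mathlib
import Pool.Agent.W2helper73.SO.Lev

/-!
# The invariant: passage to the limit
-/

set_option autoImplicit false
set_option linter.unusedSectionVars false

namespace Pool.Agent.W2helper73.SO

open Pool.Agent.K4H74.ST NumberField NumberField.ComplexEmbedding Filter

section lim

variable {I : Type} (U : Ultrafilter I)

lemma lim_exists {f : I → ℂ} {B : ℝ} (h : ∀ᶠ i in U, ∃ n : ℤ, f i = n) (hB : ∀ᶠ i in U, ‖f i‖ ≤ B) :
    ∃ n : ℤ, ∀ᶠ i in U, f i = n := by
  have h1 : ∀ᶠ i in U, ∃ n ∈ Set.Icc (-⌈B⌉) ⌈B⌉, f i = n := by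
    filter_upwards [h, hB] with i hi hi'
    obtain ⟨n, hn⟩ := hi
    refine ⟨n, ?_, hn⟩
    rw [hn, Complex.norm_intCast] at hi'
    have h2 : |(n : ℝ)| ≤ ⌈B⌉ := hi'.trans (Int.le_ceil B)
    rw [abs_le] at h2
    exact ⟨by exact_mod_cast h2.1, by exact_mod_cast h2.2⟩
  rw [Ultrafilter.eventually_exists_mem_iff (Set.finite_Icc _ _)] at h1
  obtain ⟨n, -, hn⟩ := h1
  exact ⟨n, hn⟩

open Classical in
/-- the limit -/
noncomputable def lm (f : I → ℂ) : ℤ := if h : ∃ n : ℤ, ∀ᶠ i in U, f i = n then h.choose else 0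

lemma lm_eq {f : I → ℂ} {n : ℤ} (h : ∀ᶠ i in U, f i = n) : lm U f = n := by
  have h1 : ∃ n : ℤ, ∀ᶠ i in U, f i = n := ⟨n, h⟩
  rw [lm, dif_pos h1]
  obtain ⟨i, hi, hi'⟩ := (h1.choose_spec.and h).exists
  rw [hi] at hi'
  exact_mod_cast hi'

lemma lm_congr {f g : I → ℂ} (h : ∀ᶠ i in U, f i = g i) : lm U f = lm U g := by
  by_cases h1 : ∃ n : ℤ, ∀ᶠ i in U, f i = n
  · obtain ⟨n, hn⟩ := h1
    rw [lm_eq U hn, lm_eq U (n := n)]
    filter_upwards [hn, h] with i hi hi'
    rw [← hi', hi]
  · rw [lm, lm, dif_neg h1, dif_neg]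
    rintro ⟨n, hn⟩
    apply h1
    refine ⟨n, ?_⟩
    filter_upwards [hn, h] with i hi hi'
    rw [hi', hi]

end lim

section idx

/-- the finite Galois extensions of `ℚ` in an algebraic closure -/
abbrev Ix : Type := FiniteGaloisIntermediateField ℚ (AlgebraicClosure ℚ)

instance (N : Ix) : NumberField N where
  to_charZero := inferInstance
  to_finiteDimensional := inferInstance

instance galIx (N : Ix) : IsGalois ℚ N.toIntermediateField := by
  have h := N.isGalois
  have e : (DivisionRing.toRatAlgebra : Algebra ℚ N.toIntermediateField)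
    = IntermediateField.algebra' _ := Subsingleton.elim _ _
  rw [e]
  exact h

instance algCl : IsAlgClosure ℚ (AlgebraicClosure ℚ) := by
  have h : @IsAlgClosure ℚ (AlgebraicClosure ℚ) _ _ (AlgebraicClosure.instAlgebra _) _ :=
    inferInstance
  have e : (DivisionRing.toRatAlgebra : Algebra ℚ (AlgebraicClosure ℚ))
    = AlgebraicClosure.instAlgebra _ := Subsingleton.elim _ _
  rw [e]
  exact h

lemma ev_emb (L : Type) [Field L] [NumberField L] :
    ∀ᶠ N : Ix in atTop, Nonempty (L →+* N) := by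
  let e : L →ₐ[ℚ] AlgebraicClosure ℚ := IsAlgClosed.lift
  have : FiniteDimensional ℚ e.fieldRange := (AlgEquiv.ofInjectiveField e).toLinearEquiv.finiteDimensional
  let N₁ : Ix :=
    { IntermediateField.normalClosure ℚ e.fieldRange (AlgebraicClosure ℚ) with
      finiteDimensional := normalClosure.is_finiteDimensional ℚ e.fieldRange (AlgebraicClosure ℚ)
      isGalois := IsGalois.normalClosure ℚ e.fieldRange (AlgebraicClosure ℚ) }
  filter_upwards [eventually_ge_atTop N₁] with N hN
  have h1 : e.fieldRange ≤ N.toIntermediateField :=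
    (IntermediateField.le_normalClosure e.fieldRange).trans hN
  exact ⟨(e : L →+* AlgebraicClosure ℚ).codRestrict N.toIntermediateField.toSubfield
    fun x => h1 ⟨x, rfl⟩⟩

end idx

end Pool.Agent.W2helper73.SO
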