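import Mathlib

/-!
# Sums of two squares which are not rational up to squares
-/

set_option autoImplicit false
set_option linter.unusedSectionVars false

namespace Pool.Agent.W2helper73.SO

open NumberField

section sep

variable {K : Type} [Field K] [NumberField K] {p : ℕ} [Fact p.Prime]

lemma surj_zmod (φ : 𝓞 K →+* ZMod p) : Function.Surjective φ := fun y => by
  obtain ⟨n, rfl⟩ := ZMod.intCast_surjective y
  exact ⟨n, by simp⟩

lemma ker_max (φ : 𝓞 K →+* ZMod p) : (RingHom.ker φ).IsMaximal :=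
  RingHom.ker_isMaximal_of_surjective φ (surj_zmod φ)

lemma eq_of_ker {φ φ' : 𝓞 K →+* ZMod p} (h : RingHom.ker φ ≤ RingHom.ker φ') : φ = φ' := by
  ext x
  obtain ⟨n, hn⟩ := ZMod.intCast_surjective (φ x)
  have h1 : x - (n : 𝓞 K) ∈ RingHom.ker φ := by
    rw [RingHom.mem_ker, map_sub, map_intCast, hn, sub_self]
  have h2 := h h1
  rw [RingHom.mem_ker, map_sub, map_intCast, hn, sub_eq_zero] at h2
  exact h2.symm

lemma exists_sep (φ : 𝓞 K →+* ZMod p) :
    ∃ x : 𝓞 K, φ x = 1 ∧ ∀ P : Ideal (𝓞 K), P.IsPrime → P.under ℤ = Ideal.span {(p : ℤ)} →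
      P ≠ RingHom.ker φ → x ∈ P := by
  classical
  have hp0 : (Ideal.span {(p : ℤ)}) ≠ ⊥ := by
    rw [Ne, Ideal.span_singleton_eq_bot]
    exact_mod_cast (Fact.out : p.Prime).ne_zero
  have hpm : (Ideal.span {(p : ℤ)}).IsMaximal :=
    ((Ideal.span_singleton_prime (by exact_mod_cast (Fact.out : p.Prime).ne_zero)).mpr
      (Nat.prime_iff_prime_int.mp Fact.out)).isMaximal hp0
  have hfin : (Ideal.primesOver (Ideal.span {(p : ℤ)}) (𝓞 K)).Finite :=
    IsDedekindDomain.primesOver_finite _ _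
  let S := hfin.toFinset.erase (RingHom.ker φ)
  have hmax := ker_max φ
  have h1 : ¬ S.inf id ≤ RingHom.ker φ := by
    rw [hmax.isPrime.inf_le']
    rintro ⟨P, hP, hle⟩
    rw [Finset.mem_erase, Set.Finite.mem_toFinset] at hP
    obtain ⟨hne, hPp, hPl⟩ := hP
    have hPm : P.IsMaximal := by
      have := hPp
      exact Ideal.IsMaximal.of_liesOver_isMaximal P (Ideal.span {(p : ℤ)})
    exact hne (hPm.eq_of_le hmax.ne_top hle)
  obtain ⟨y, hy, hy'⟩ := SetLike.not_le_iff_exists.mp h1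
  rw [RingHom.mem_ker] at hy'
  obtain ⟨n, hn⟩ := ZMod.intCast_surjective ((φ y)⁻¹)
  refine ⟨n * y, by rw [map_mul, map_intCast, hn, inv_mul_cancel₀ hy'], fun P hP hPu hne => ?_⟩
  have h2 : P ∈ S := by
    rw [Finset.mem_erase, Set.Finite.mem_toFinset]
    exact ⟨hne, hP, ⟨hPu.symm⟩⟩
  have h3 : S.inf id ≤ P := Finset.inf_le (f := id) h2
  exact P.mul_mem_left _ (h3 hy)

lemma exists_nonsq (hp2 : p ≠ 2) : ∃ b : ZMod p, ¬ IsSquare (1 + b ^ 2) := by
  by_contra hno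
  push Not at hno
  have h1 : ∀ n : ℕ, IsSquare (n : ZMod p) := by
    intro n
    induction n with
    | zero => simp
    | succ n ih =>
      obtain ⟨b, hb⟩ := ih
      have := hno b
      rw [sq, ← hb] at this
      rw [Nat.cast_succ, add_comm]
      exact this
  obtain ⟨a, ha⟩ := FiniteField.exists_nonsquare (F := ZMod p) (by
    rw [ZMod.ringChar_zmod_n]; exact hp2)
  obtain ⟨n, rfl⟩ := ZMod.natCast_zmod_surjective a
  exact ha (h1 n)

end sep

section sqp

lemma unit_part (p : ℕ) [hp : Fact p.Prime] (d : ℚ) (h : padicValRat p d = 0) (hd : d ≠ 0) :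
    ¬ (p : ℤ) ∣ d.num * d.den := by
  have hpi : Prime (p : ℤ) := Nat.prime_iff_prime_int.mp hp.out
  intro hdvd
  rw [padicValRat_def] at h
  have hnum : d.num ≠ 0 := Rat.num_ne_zero.mpr hd
  rcases hpi.dvd_or_dvd hdvd with h1 | h1
  · have h2 : 1 ≤ padicValInt p d.num := by
      rw [padicValInt]
      exact one_le_padicValNat_of_dvd (by simpa using hnum) (Int.natCast_dvd.mp h1)
    have h3 : padicValNat p d.den = 0 := by
      apply padicValNat.eq_zero_of_not_dvd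
      intro h4
      have h5 := Nat.dvd_gcd (Int.natCast_dvd.mp h1) h4
      rw [d.reduced.gcd_eq_one] at h5
      exact hp.out.one_lt.ne' (Nat.dvd_one.mp h5)
    omega
  · have h1' : p ∣ d.den := by exact_mod_cast h1
    have h2 : 1 ≤ padicValNat p d.den := one_le_padicValNat_of_dvd d.den_ne_zero h1'
    have h3 : padicValInt p d.num = 0 := by
      apply padicValInt.eq_zero_of_not_dvd
      intro h4
      have h5 := Nat.dvd_gcd (Int.natCast_dvd.mp h4) h1'
      rw [d.reduced.gcd_eq_one] at h5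
      exact hp.out.one_lt.ne' (Nat.dvd_one.mp h5)
    omega

lemma sq_part (p : ℕ) [hp : Fact p.Prime] (d : ℚ) (hd : d ≠ 0) (n : ℕ) (hn : Odd n) (N : ℤ)
    (hN : ¬ (p : ℤ) ∣ N) (c : ℚ) (h : d ^ n * N = c ^ 2) :
    ∃ (m : ℤ) (q : ℚ), q ≠ 0 ∧ ¬ (p : ℤ) ∣ m ∧ d = q ^ 2 * m := by
  have hN0 : (N : ℚ) ≠ 0 := by
    intro h0
    apply hN
    rw [Int.cast_eq_zero.mp h0]
    exact dvd_zero _
  have hc : c ≠ 0 := by
    intro h0
    rw [h0] at h
    exact (mul_ne_zero (pow_ne_zero n hd) hN0) (by rw [h]; norm_num)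
  have h1 := congrArg (padicValRat p) h
  rw [padicValRat.mul (pow_ne_zero n hd) hN0, padicValRat.pow, padicValRat.pow,
    padicValRat.of_int, padicValInt.eq_zero_of_not_dvd hN] at h1
  obtain ⟨j, hj⟩ := hn
  obtain ⟨k, hk⟩ : ∃ k : ℤ, padicValRat p d = 2 * k := by
    refine ⟨padicValRat p c - j * padicValRat p d, ?_⟩
    rw [hj] at h1
    push_cast at h1
    linarith
  have hp0 : (p : ℚ) ≠ 0 := by exact_mod_cast hp.out.ne_zero
  have hpk : (p : ℚ) ^ k ≠ 0 := zpow_ne_zero k hp0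
  set d' : ℚ := d / ((p : ℚ) ^ k) ^ 2 with hd'
  have hd'0 : d' ≠ 0 := div_ne_zero hd (pow_ne_zero 2 hpk)
  have hv : padicValRat p d' = 0 := by
    rw [hd', padicValRat.div hd (pow_ne_zero 2 hpk), padicValRat.pow, padicValRat.zpow,
      padicValRat.self hp.out.one_lt, hk]
    push_cast
    ring
  have hden : (d'.den : ℚ) ≠ 0 := by exact_mod_cast d'.den_ne_zero
  refine ⟨d'.num * d'.den, (p : ℚ) ^ k / d'.den, div_ne_zero hpk hden,
    unit_part p d' hv hd'0, ?_⟩
  have h2 : d = ((p : ℚ) ^ k) ^ 2 * d' := by rw [hd']; field_simp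
  have h3 : d' = d'.num / d'.den := (Rat.num_div_den d').symm
  rw [div_pow]
  push_cast
  have h4 : (d'.num : ℚ) = d' * d'.den := by rw [eq_comm]; exact Rat.mul_den_eq_num d'
  rw [h4]
  field_simp
  rw [← h2]


end sqp

section beta

variable {K : Type} [Field K] [NumberField K] {p : ℕ} [Fact p.Prime]

lemma under_ker (φ : 𝓞 K →+* ZMod p) : (RingHom.ker φ).under ℤ = Ideal.span {(p : ℤ)} := by
  rw [Ideal.under_def, RingHom.comap_ker]
  have h : φ.comp (algebraMap ℤ (𝓞 K)) = Int.castRingHom (ZMod p) := Subsingleton.elim _ _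
  rw [h, ZMod.ker_intCastRingHom]

theorem exists_beta_of (hodd : Odd (Module.finrank ℚ K)) (hp2 : p ≠ 2) (φ φ' : 𝓞 K →+* ZMod p)
    (hne : φ ≠ φ') :
    ∃ β : K, ∀ d : ℚ, d ≠ 0 → ¬ IsSquare (algebraMap ℚ K d * (1 + β ^ 2)) := by
  have hp : p.Prime := Fact.out
  obtain ⟨x, hx, hx'⟩ := exists_sep φ'
  obtain ⟨b, hb⟩ := exists_nonsq hp2
  obtain ⟨n, rfl⟩ := ZMod.intCast_surjective b
  have hker : RingHom.ker φ ≠ RingHom.ker φ' := fun h => hne (eq_of_ker h.le)
  have hφx : φ x = 0 := hx' _ (ker_max φ).isPrime (under_ker φ) hker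
  set α : 𝓞 K := 1 + (n * x) ^ 2 with hα
  have h1 : φ α = 1 := by
    rw [hα, map_add, map_one, map_pow, map_mul, hφx]
    ring
  have h2 : φ' α = 1 + (n : ZMod p) ^ 2 := by
    rw [hα, map_add, map_one, map_pow, map_mul, hx, map_intCast, mul_one]
  have hN : ¬ (p : ℤ) ∣ Algebra.norm ℤ α := by
    intro hdvd
    have h3 : p ∣ Ideal.absNorm (Ideal.span {α}) := by
      rw [Ideal.absNorm_span_singleton]
      exact Int.natCast_dvd.mp hdvd
    obtain ⟨P, hPm, hPu, hPd⟩ := Ideal.exists_isMaximal_dvd_of_dvd_absNorm' hp _ h3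
    have hαP : α ∈ P := (Ideal.dvd_span_singleton.mp hPd)
    by_cases hP : P = RingHom.ker φ'
    · rw [hP, RingHom.mem_ker, h2] at hαP
      exact hb (by rw [hαP]; simp)
    · have hxP := hx' P hPm.isPrime hPu hP
      have h4 : (n * x) ^ 2 ∈ P := by
        rw [sq]
        exact P.mul_mem_left _ (P.mul_mem_left _ hxP)
      have h5 : (1 : 𝓞 K) ∈ P := by
        have := P.sub_mem hαP h4
        rwa [hα, add_sub_cancel_right] at this
      exact hPm.ne_top ((Ideal.eq_top_iff_one P).mpr h5)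
  refine ⟨((n * x : 𝓞 K) : K), fun d hd hsq => ?_⟩
  have e1 : (1 + ((n * x : 𝓞 K) : K) ^ 2) = ((α : 𝓞 K) : K) := by
    rw [hα]; push_cast; rfl
  rw [e1] at hsq
  obtain ⟨γ, hγ⟩ := hsq
  have h6 : d ^ Module.finrank ℚ K * ((Algebra.norm ℤ α : ℤ) : ℚ) = (Algebra.norm ℚ γ) ^ 2 := by
    rw [Algebra.coe_norm_int, sq, ← map_mul, ← hγ, map_mul, Algebra.norm_algebraMap]
  obtain ⟨m, q, hq, hm, hdm⟩ := sq_part p d hd _ hodd _ hN _ h6
  have hq' : algebraMap ℚ K q ≠ 0 := (map_ne_zero _).mpr hq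
  have h7 : (γ / algebraMap ℚ K q) ^ 2 = (m : K) * algebraMap (𝓞 K) K α := by
    have e2 : algebraMap ℚ K (m : ℚ) = (m : K) := by simp
    rw [div_pow, sq γ, ← hγ, hdm, map_mul, map_pow, e2]
    field_simp
  have h8 : IsIntegral ℤ (γ / algebraMap ℚ K q) := by
    apply IsIntegral.of_pow (n := 2) (by norm_num)
    rw [h7]
    exact (isIntegral_algebraMap (x := m)).mul (RingOfIntegers.isIntegral_coe _)
  obtain ⟨g, hg⟩ : ∃ g : 𝓞 K, algebraMap (𝓞 K) K g = γ / algebraMap ℚ K q := ⟨⟨_, h8⟩, rfl⟩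
  have h9 : g ^ 2 = m * α := by
    apply FaithfulSMul.algebraMap_injective (𝓞 K) K
    rw [map_pow, hg, h7, map_mul, map_intCast]
  have h10 : φ g ^ 2 = (m : ZMod p) := by
    rw [← map_pow, h9, map_mul, map_intCast, h1, mul_one]
  have h11 : φ' g ^ 2 = (m : ZMod p) * (1 + (n : ZMod p) ^ 2) := by
    rw [← map_pow, h9, map_mul, map_intCast, h2]
  have hm0 : (m : ZMod p) ≠ 0 := by
    rw [Ne, ZMod.intCast_zmod_eq_zero_iff_dvd]
    exact hm
  have hg0 : φ g ≠ 0 := by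
    intro h0
    rw [h0] at h10
    exact hm0 (by rw [← h10]; ring)
  apply hb
  refine ⟨φ' g / φ g, ?_⟩
  rw [← h10] at h11
  field_simp
  linear_combination -h11

end beta

end Pool.Agent.W2helper73.SO
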