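import Mathlib

/-!
# Cyclic quartic extensions and sums of two squares
-/

set_option autoImplicit false
set_option linter.unusedSectionVars false

namespace Pool.Agent.W2helper73.SO

open NumberField

/-- the Gaussian rationals -/
abbrev GQ := QuadraticAlgebra ℚ (-1) 0

/-- the imaginary unit -/
def wi : GQ := ⟨0, 1⟩

lemma wi_sq : wi * wi = -1 := by
  unfold wi
  ext
  · rw [QuadraticAlgebra.re_mul, QuadraticAlgebra.re_neg, QuadraticAlgebra.re_one]; norm_num
  · rw [QuadraticAlgebra.im_mul, QuadraticAlgebra.im_neg, QuadraticAlgebra.im_one]; norm_num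

lemma star_wi : (starRingEnd GQ) wi = -wi := by
  rw [starRingEnd_apply]
  unfold wi
  ext
  · rw [QuadraticAlgebra.re_star, QuadraticAlgebra.re_neg]; norm_num
  · rw [QuadraticAlgebra.im_star, QuadraticAlgebra.im_neg]

lemma star_alg (q : ℚ) : (starRingEnd GQ) (algebraMap ℚ GQ q) = algebraMap ℚ GQ q := by
  rw [starRingEnd_apply]
  ext
  · rw [QuadraticAlgebra.re_star]; simp
  · rw [QuadraticAlgebra.im_star]; simp

/-- a rational number that is a sum of two squares in a number field of odd degree is a sum of two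
rational squares -/
theorem two_squares_descent (K : Type) [Field K] [NumberField K] (hodd : Odd (Module.finrank ℚ K))
    (d : ℚ) (x y : K) (h : x * x + y * y = algebraMap ℚ K d) : ∃ u v : ℚ, u ^ 2 + v ^ 2 = d := by
  classical
  by_cases hd : d = 0
  · exact ⟨0, 0, by rw [hd]; norm_num⟩
  obtain ⟨m, hm⟩ := hodd
  let b := Module.finBasis ℚ K
  set n := Module.finrank ℚ K with hn
  let C : ℚ →+* GQ := algebraMap ℚ GQ
  have hCinj : Function.Injective C := (algebraMap ℚ GQ).injective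
  set P := Algebra.leftMulMatrix b x with hP
  set Q := Algebra.leftMulMatrix b y with hQ
  have hPQ : P * Q = Q * P := by rw [hP, hQ, ← map_mul, ← map_mul, mul_comm]
  have hsum : P * P + Q * Q = Matrix.scalar (Fin n) d := by
    rw [hP, hQ, ← map_mul, ← map_mul, ← map_add, h, AlgHom.commutes]
    rfl
  let cm : Matrix (Fin n) (Fin n) ℚ →+* Matrix (Fin n) (Fin n) GQ := C.mapMatrix
  let M := cm P + wi • cm Q
  let N := cm P - wi • cm Q
  have hMN : M * N = cm (P * P + Q * Q) := by
    have e1 : cm P * cm Q = cm Q * cm P := by rw [← map_mul, hPQ, map_mul]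
    show (cm P + wi • cm Q) * (cm P - wi • cm Q) = _
    rw [add_mul, mul_sub, mul_sub, smul_mul_assoc, smul_mul_smul_comm, mul_smul_comm, e1, wi_sq,
      map_add, map_mul, map_mul, neg_smul, one_smul]
    abel
  have hN : N = (starRingEnd GQ).mapMatrix M := by
    refine Matrix.ext fun i j => ?_
    have e1 : N i j = C (P i j) - wi * C (Q i j) := rfl
    have e2 : (starRingEnd GQ).mapMatrix M i j = (starRingEnd GQ) (C (P i j) + wi * C (Q i j)) := rfl
    rw [e1, e2, map_add, map_mul, star_wi, star_alg, star_alg]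
    ring
  have hdet : M.det * (starRingEnd GQ) M.det = C (d ^ n) := by
    rw [RingHom.map_det, ← hN, ← Matrix.det_mul, hMN, hsum]
    show (C.mapMatrix (Matrix.scalar (Fin n) d)).det = _
    rw [← RingHom.map_det, Matrix.scalar_apply, Matrix.det_diagonal]
    simp
  rw [starRingEnd_apply, ← QuadraticAlgebra.algebraMap_norm_eq_mul_star] at hdet
  have h1 : QuadraticAlgebra.norm M.det = d ^ n := hCinj hdet
  rw [QuadraticAlgebra.norm_def] at h1
  refine ⟨M.det.re / d ^ m, M.det.im / d ^ m, ?_⟩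
  have h2 : d ^ n = (d ^ m) ^ 2 * d := by rw [hm]; ring
  have h3 : d ^ m ≠ 0 := pow_ne_zero m hd
  rw [div_pow, div_pow, ← add_div, div_eq_iff (pow_ne_zero 2 h3)]
  rw [h2] at h1
  linear_combination h1

section cyc

variable {K L : Type} [Field K] [Field L] [Algebra K L] [CharZero K] [FiniteDimensional K L]
  [IsGalois K L]

lemma neg_one_ne_one_units : (-1 : ℂˣ) ≠ 1 := by
  intro h
  have := congrArg Units.val h
  norm_num at this

lemma units_sq_sq {u : ℂˣ} (h4 : u ^ 4 = 1) (h2 : u ^ 2 ≠ 1) : u ^ 2 = -1 := by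
  have h : (u ^ 2) ^ 2 = 1 ^ 2 := by rw [← pow_mul, h4, one_pow]
  have h' : ((u ^ 2 : ℂˣ) : ℂ) ^ 2 = 1 ^ 2 := by
    rw [← Units.val_pow_eq_pow_val, h]; simp
  rcases sq_eq_sq_iff_eq_or_eq_neg.mp h' with h3 | h3
  · exact absurd (Units.ext h3) h2
  · exact Units.ext h3

lemma exists_gen {ψ : (L ≃ₐ[K] L) →* ℂˣ} (hinj : Function.Injective ψ) (h4 : ∀ g, ψ g ^ 4 = 1)
    (h2 : ∃ g, ψ g ^ 2 ≠ 1) : ∃ τ, ψ τ ^ 2 = -1 ∧ ∀ g, ∃ n : ℕ, g = τ ^ n := by
  obtain ⟨τ, hτ⟩ := h2
  have e1 : ψ τ ^ 2 = -1 := units_sq_sq (h4 τ) hτ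
  refine ⟨τ, e1, fun g => ?_⟩
  have key : ∀ u : ℂˣ, u ^ 2 = 1 → u = 1 ∨ u = ψ τ ^ 2 := by
    intro u hu
    have h' : (u : ℂ) ^ 2 = 1 ^ 2 := by
      rw [← Units.val_pow_eq_pow_val, hu]; simp
    rcases sq_eq_sq_iff_eq_or_eq_neg.mp h' with h3 | h3
    · exact Or.inl (Units.ext h3)
    · refine Or.inr ?_
      rw [e1]
      exact Units.ext (by rw [h3, Units.val_neg, Units.val_one])
  by_cases hg : ψ g ^ 2 = 1
  · rcases key _ hg with h | h
    · exact ⟨0, hinj (by rw [h, pow_zero, map_one])⟩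
    · exact ⟨2, hinj (by rw [h, map_pow])⟩
  · have hg' : ψ g ^ 2 = -1 := units_sq_sq (h4 g) hg
    have h5 : (ψ g * (ψ τ)⁻¹) ^ 2 = 1 := by rw [mul_pow, inv_pow, hg', e1, mul_inv_cancel]
    rcases key _ h5 with h | h
    · refine ⟨1, hinj ?_⟩
      rw [pow_one]
      exact mul_inv_eq_one.mp h
    · refine ⟨3, hinj ?_⟩
      rw [mul_inv_eq_iff_eq_mul] at h
      rw [h, map_pow]
      group

lemma fixed_of_gen {τ : L ≃ₐ[K] L} (hgen : ∀ g, ∃ n : ℕ, g = τ ^ n) {x : L} (hx : τ x = x) :
    ∃ y : K, algebraMap K L y = x := by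
  refine (IsGalois.mem_range_algebraMap_iff_fixed (F := K) (E := L) x).mpr fun g => ?_
  obtain ⟨n, rfl⟩ := hgen g
  induction n with
  | zero => rfl
  | succ n ih => rw [pow_succ, AlgEquiv.mul_apply, hx, ih]

/-- the quadratic subextension of a cyclic quartic extension -/
theorem quad_sub {ψ : (L ≃ₐ[K] L) →* ℂˣ} (hinj : Function.Injective ψ) (h4 : ∀ g, ψ g ^ 4 = 1)
    (h2 : ∃ g, ψ g ^ 2 ≠ 1) {c : K} (hc : ¬ IsSquare c) {δ : L} (hδ : δ * δ = algebraMap K L c) :
    (∀ g : L ≃ₐ[K] L, g δ = δ ↔ ψ g ^ 2 = 1) ∧ ∃ a b : K, a ^ 2 + 1 = b ^ 2 * c := by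
  obtain ⟨τ, hτ, hgen⟩ := exists_gen hinj h4 h2
  have hδ0 : δ ≠ 0 := by
    intro h0
    apply hc
    have : c = 0 := (algebraMap K L).injective (by rw [← hδ, h0, mul_zero, map_zero])
    exact ⟨0, by rw [this, mul_zero]⟩
  have h1 : τ δ ^ 2 = δ ^ 2 := by rw [← map_pow, sq, hδ, τ.commutes]
  have hτδ : τ δ = -δ := by
    rcases sq_eq_sq_iff_eq_or_eq_neg.mp h1 with h | h
    · exfalso
      obtain ⟨y, hy⟩ := fixed_of_gen hgen h
      apply hc
      refine ⟨y, (algebraMap K L).injective ?_⟩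
      rw [map_mul, hy, hδ]
    · exact h
  have hpow : ∀ n : ℕ, (τ ^ n) δ = (-1) ^ n * δ := by
    intro n
    induction n with
    | zero => simp
    | succ n ih => rw [pow_succ, AlgEquiv.mul_apply, hτδ, map_neg, ih]; ring
  constructor
  · intro g
    obtain ⟨n, rfl⟩ := hgen g
    rw [hpow, map_pow, ← pow_mul, mul_comm n 2, pow_mul, hτ]
    rcases Nat.even_or_odd n with hn | hn
    · rw [hn.neg_one_pow, hn.neg_one_pow, one_mul]; simp
    · rw [hn.neg_one_pow, hn.neg_one_pow]
      constructor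
      · intro h
        exfalso
        apply hδ0
        have : CharZero L := charZero_of_injective_algebraMap (algebraMap K L).injective
        exact self_eq_neg.mp (by rw [neg_one_mul] at h; exact h.symm)
      · intro h
        exact absurd h neg_one_ne_one_units
  · have : CharZero L := charZero_of_injective_algebraMap (algebraMap K L).injective
    have hτ2 : τ * τ ≠ 1 := by
      intro h
      have := congrArg ψ h
      rw [map_mul, ← sq, hτ, map_one] at this
      exact neg_one_ne_one_units this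
    have hτ4 : ∀ x : L, τ (τ (τ (τ x))) = x := by
      intro x
      have : τ ^ 4 = 1 := hinj (by rw [map_pow, h4, map_one])
      have h5 := DFunLike.congr_fun this x
      simpa [pow_succ] using h5
    obtain ⟨y, hy⟩ : ∃ y : L, τ (τ y) ≠ y := by
      by_contra hno
      push Not at hno
      exact hτ2 (AlgEquiv.ext hno)
    set r : L := y - τ (τ y) with hr
    have hr0 : r ≠ 0 := fun h => hy (sub_eq_zero.mp h).symm
    have hτr : τ (τ r) = -r := by
      rw [hr, map_sub, map_sub, hτ4]; ring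
    have hτr0 : τ r ≠ 0 := (map_ne_zero_iff τ τ.injective).mpr hr0
    set γ : L := τ r / r with hγ
    have hτγ : τ γ = -r / τ r := by rw [hγ, map_div₀, hτr]
    have hττγ : τ (τ γ) = γ := by
      rw [hτγ, map_div₀, map_neg, hτr, hγ]
      field_simp
    have hN : γ * τ γ = -1 := by
      rw [hτγ, hγ]
      field_simp
    obtain ⟨a, ha⟩ := fixed_of_gen hgen (x := (γ + τ γ) / 2) (by
      rw [map_div₀, map_add, hττγ, map_ofNat, add_comm])
    obtain ⟨b, hb⟩ := fixed_of_gen hgen (x := (γ - τ γ) / (2 * δ)) (by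
      rw [map_div₀, map_sub, hττγ, map_mul, map_ofNat, hτδ]
      field_simp
      ring)
    refine ⟨a, b, (algebraMap K L).injective ?_⟩
    rw [map_add, map_mul, map_pow, map_pow, map_one, ← hδ, ha, hb]
    field_simp
    linear_combination (4 : L) * hN
end cyc


end Pool.Agent.W2helper73.SO
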