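import Mathlib
import Pool.Agent.W2helper73.SO.Lim

/-!
# The global invariant
-/

set_option autoImplicit false
set_option linter.unusedSectionVars false

namespace Pool.Agent.W2helper73.SO

open Pool.Agent.K4H74.ST NumberField NumberField.ComplexEmbedding Filter

/-- the data at a finite level -/
structure Dt (K L : Type) [Field K] [NumberField K] [Field L] [NumberField L] [Algebra K L]
    [IsGalois K L] (ψ : (L ≃ₐ[K] L) →* ℂˣ) (N : Type) [Field N] [NumberField N]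
    [IsGalois ℚ N] where
  S : Subgroup (N ≃ₐ[ℚ] N)
  θ : S →* ℂˣ
  c : S
  x : S
  φ : L →+* N
  hS : IsPGroup 2 S
  h4 : ∀ s, θ s ^ 4 = 1
  h0 : ∀ s : S, ∃ g : L ≃ₐ[K] L, Rl s φ g
  h1 : ∀ (s : S) (g : L ≃ₐ[K] L), Rl s φ g → ψ g = θ s
  hc : ∃ j : N →+* ℂ, IsConj j (c : N ≃ₐ[ℚ] N)
  hu : ∀ J : K →+* N, (∀ k, (c : N ≃ₐ[ℚ] N) (J k) = J k) → J = φ.comp (algebraMap K L)
  hT : (x : N ≃ₐ[ℚ] N) ∈ Tc N
  hx : θ x ^ 2 ≠ 1

section

variable (K L : Type) [Field K] [NumberField K] [Field L] [NumberField L] [Algebra K L]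
    [IsGalois K L] (ψ : (L ≃ₐ[K] L) →* ℂˣ)

/-- **The inductive invariant.** -/
theorem exists_invariant (hK : InfinitePlace.nrRealPlaces K = 1)
    (h4 : ∀ g, ψ g ^ 4 = 1) (h2 : ∃ g, ψ g ^ 2 ≠ 1)
    (hd : ∀ d : ℚ, IsSquare (algebraMap ℚ L d) → IsSquare (algebraMap ℚ K d)) :
    ∃ A : ArtinInvariant (Multiplicative ℤ),
      (∀ (F E : Type) [Field F] [NumberField F] [Field E] [NumberField E] [Algebra F E]
        [IsGalois F E] (χ : (E ≃ₐ[F] E) → ℂ), IsChar χ → ∀ σ : ℂ ≃+* ℂ,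
          A.val F E (fun g => σ (χ g)) = A.val F E χ) ∧
      (∀ (F E : Type) [Field F] [NumberField F] [Field E] [NumberField E] [Algebra F E]
        [IsGalois F E] (χ : (E ≃ₐ[F] E) → ℂ), IsChar χ →
          IsTotallyComplex F ∨ (∀ g, (χ g).im = 0) ∨
          (IsTotallyReal F ∧ ∀ c ∈ CC F E, ∃ e : ℂ, e ^ 2 = 1 ∧ ∀ g, χ (c * g) = e * χ g) →
          Even (A.val F E χ).toAdd) ∧
      Odd (A.val K L (lc ψ)).toAdd := by
  classical
  have hD : ∀ N : Ix, Nonempty (L →+* N) → Nonempty (Dt K L ψ N) := by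
    rintro N ⟨φ⟩
    obtain ⟨S, θ, c, x, a1, a2, a3, a4, a5, a6, a7, a8⟩ := exists_datum hK φ ψ h4 h2 hd
    exact ⟨⟨S, θ, c, x, φ, a1, a2, a3, a4, a5, a6, a7, a8⟩⟩
  let D : ∀ N : Ix, Nonempty (L →+* N) → Dt K L ψ N := fun N h => (hD N h).some
  let f : ∀ (F E : Type) [Field F] [NumberField F] [Field E] [NumberField E] [Algebra F E]
      [IsGalois F E] (_ : (E ≃ₐ[F] E) → ℂ), Ix → ℂ := fun F E _ _ _ _ _ _ χ N =>
    if h : Nonempty (L →+* N) then FN (D N h).S (wt (D N h).θ) F E χ else 0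
  let U : Ultrafilter Ix := Ultrafilter.of atTop
  have hU : ∀ {p : Ix → Prop}, (∀ᶠ N in atTop, p N) → ∀ᶠ N in U, p N := fun h =>
    (Ultrafilter.of_le atTop) h
  have hL : ∀ᶠ N : Ix in U, Nonempty (L →+* N) := hU (ev_emb L)
  have hf : ∀ (F E : Type) [Field F] [NumberField F] [Field E] [NumberField E] [Algebra F E]
      [IsGalois F E] (χ : (E ≃ₐ[F] E) → ℂ) (N : Ix) (h : Nonempty (L →+* N)),
      f F E χ N = FN (D N h).S (wt (D N h).θ) F E χ := fun F E _ _ _ _ _ _ χ N h => dif_pos h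
  have hint : ∀ (F E : Type) [Field F] [NumberField F] [Field E] [NumberField E] [Algebra F E]
      [IsGalois F E] (χ : (E ≃ₐ[F] E) → ℂ), IsChar χ →
      ∀ᶠ N in U, f F E χ N = lm U (f F E χ) := by
    intro F E _ _ _ _ _ _ χ hχ
    obtain ⟨n, hn⟩ := lim_exists U (f := f F E χ)
      (B := Fintype.card (E →+* ℂ) * ∑ g, ‖χ g‖) (by
        filter_upwards [hL] with N h
        rw [hf F E χ N h]
        exact FN_int _ hχ) (by
        filter_upwards [hL] with N h
        rw [hf F E χ N h]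
        exact lev_bound _ (D N h).h4 χ)
    rw [lm_eq U hn]
    exact hn
  have hlim : ∀ (F E : Type) [Field F] [NumberField F] [Field E] [NumberField E] [Algebra F E]
      [IsGalois F E] (χ : (E ≃ₐ[F] E) → ℂ), IsChar χ → ∃ (N : Ix) (h : Nonempty (L →+* N)),
      FN (D N h).S (wt (D N h).θ) F E χ = lm U (f F E χ) := by
    intro F E _ _ _ _ _ _ χ hχ
    obtain ⟨N, h, h'⟩ := ((hint F E χ hχ).and hL).exists
    exact ⟨N, h', by rw [← hf F E χ N h']; exact h⟩
  let A : ArtinInvariant (Multiplicative ℤ) :=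
    { val := fun F E _ _ _ _ _ _ χ => Multiplicative.ofAdd (lm U (f F E χ))
      val_add := by
        intro F E _ _ _ _ _ _ χ χ' hχ hχ'
        rw [← ofAdd_add]
        congr 1
        apply lm_eq
        filter_upwards [hint F E χ hχ, hint F E χ' hχ', hL] with N a b h
        rw [hf _ _ _ N h] at a b ⊢
        rw [FN_add, a, b]
        push_cast
        rfl
      val_infl := by
        intro F E M _ _ _ _ _ _ _ _ _ _ _ _ χ hχ
        congr 1
        apply lm_congr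
        filter_upwards [hL, hU (ev_emb M)] with N h h'
        rw [hf _ _ _ N h, hf _ _ _ N h]
        obtain ⟨e⟩ := h'
        exact FN_infl _ _ F E M e χ
      val_ind := by
        intro F F' E _ _ _ _ _ _ _ _ _ _ _ _ χ hχ
        congr 1
        apply lm_congr
        filter_upwards [hL] with N h
        rw [hf _ _ _ N h, hf _ _ _ N h]
        exact FN_ind _ _ F F' E χ }
  have hA : ∀ (F E : Type) [Field F] [NumberField F] [Field E] [NumberField E] [Algebra F E]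
      [IsGalois F E] (χ : (E ≃ₐ[F] E) → ℂ), (A.val F E χ).toAdd = lm U (f F E χ) :=
    fun F E _ _ _ _ _ _ χ => rfl
  refine ⟨A, ?_, ?_, ?_⟩
  · intro F E _ _ _ _ _ _ χ hχ σ
    change Multiplicative.ofAdd _ = Multiplicative.ofAdd _
    congr 1
    apply lm_congr
    filter_upwards [hL] with N h
    rw [hf _ _ _ N h, hf _ _ _ N h]
    exact lev_galois _ (D N h).h4 σ hχ
  · intro F E _ _ _ _ _ _ χ hχ hor
    rw [hA]
    obtain ⟨N, h, hN⟩ := hlim F E χ hχ
    have h5 : ∃ n : ℤ, FN (D N h).S (wt (D N h).θ) F E χ = 2 * n := by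
      rcases hor with ho | ho | ⟨ho, ho'⟩
      · exact lev_complex _ (D N h).hS (D N h).hc ho hχ
      · exact lev_real _ (D N h).h4 (D N h).hx hχ ho
      · exact lev_scalar _ (D N h).hx (D N h).hT ho hχ ho'
    obtain ⟨n, hn⟩ := h5
    rw [hN] at hn
    refine ⟨n, ?_⟩
    have h6 : lm U (f F E χ) = 2 * n := by exact_mod_cast hn
    rw [h6]
    ring
  · rw [hA]
    obtain ⟨N, h, hN⟩ := hlim K L (lc ψ) (IsChar.lc ψ)
    obtain ⟨n, hn⟩ := lev_odd _ (D N h).hS (D N h).φ ψ (D N h).h0 (D N h).h1 (D N h).hu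
    rw [hN] at hn
    exact ⟨n, by exact_mod_cast hn⟩

end

end Pool.Agent.W2helper73.SO
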