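import Mathlib
import Pool.Agent.W2helper73.SO.Base
import Pool.Agent.K4H74.SC.Inst
import Pool.Agent.K4H74.ST.Exc

/-!
# Exact base change for inductive invariants
-/

set_option autoImplicit false
set_option linter.unusedSectionVars false

namespace Pool.Agent.W2helper73.SO

open Pool.Agent.K4H74.ST Pool.Agent.R389 Pool.Agent.W446.AS Pool.Agent.H541R3.ART NumberField
  NumberField.ComplexEmbedding

/-- Exactly one real embedding of `K` lies over every real embedding of `k`. -/
def OneReal (k K : Type) [Field k] [Field K] [Algebra k K] : Prop :=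
  ∀ φ : k →+* ℂ, IsReal φ → ∃! φ' : K →+* ℂ, φ'.comp (algebraMap k K) = φ ∧ IsReal φ'

section bc

variable {k K N : Type} [Field k] [NumberField k] [Field K] [NumberField K] [Field N]
  [NumberField N] [Algebra k K] [Algebra K N] [Algebra k N] [IsScalarTower k K N] [IsGalois k N]
  [IsGalois K N]

/-- the automorphisms of `N` over `k` which fix `K` -/
def HK (k K N : Type) [Field k] [Field K] [Field N] [Algebra k K] [Algebra K N] [Algebra k N]
    [IsScalarTower k K N] : Subgroup (N ≃ₐ[k] N) where
  carrier := {g | ∀ a : K, g (algebraMap K N a) = algebraMap K N a}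
  mul_mem' := by
    intro a b ha hb x
    rw [AlgEquiv.mul_apply, hb, ha]
  one_mem' := fun x => rfl
  inv_mem' := by
    intro a ha x
    apply a.injective
    rw [← AlgEquiv.mul_apply, mul_inv_cancel, AlgEquiv.one_apply, ha]

lemma mem_HK {g : N ≃ₐ[k] N} : g ∈ HK k K N ↔ ∀ a : K, g (algebraMap K N a) = algebraMap K N a :=
  Iff.rfl

/-- restriction of scalars -/
def eHK (k K N : Type) [Field k] [Field K] [Field N] [Algebra k K] [Algebra K N] [Algebra k N]
    [IsScalarTower k K N] : HK k K N ≃* (N ≃ₐ[K] N) where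
  toFun h := { (h : N ≃ₐ[k] N) with commutes' := fun a => h.2 a }
  invFun h := ⟨h.restrictScalars k, fun a => h.commutes a⟩
  left_inv h := rfl
  right_inv h := rfl
  map_mul' a b := rfl

lemma indChar_res (χ : (N ≃ₐ[k] N) → ℂ) :
    indChar k K N (fun h => χ (h.restrictScalars k)) = ind (HK k K N) (fun h => χ h) := by
  classical
  let e := eHK k K N
  have he : ∀ h : HK k K N, (e h).restrictScalars k = (h : N ≃ₐ[k] N) := fun h => rfl
  have hc : Nat.card (HK k K N) = Nat.card (N ≃ₐ[K] N) := Nat.card_congr e.toEquiv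
  funext g
  rw [ind, indChar, hc]
  congr 1
  refine finsum_congr fun x => ?_
  by_cases hx : x⁻¹ * g * x ∈ HK k K N
  · rw [ext_mem _ _ hx]
    rw [finsum_eq_single _ (e ⟨_, hx⟩)]
    · rw [finsum_eq_single _ (he ⟨_, hx⟩)]
      · rfl
      · intro h1 h2
        exact absurd rfl h2
    · intro h hh
      refine @finsum_of_isEmpty _ _ _ ⟨fun h1 => ?_⟩ _
      apply hh
      apply e.symm.injective
      rw [MulEquiv.symm_apply_apply]
      apply Subtype.ext
      exact h1
  · rw [ext_not _ _ hx]
    apply finsum_eq_zero_of_forall_eq_zero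
    intro h
    refine @finsum_of_isEmpty _ _ _ ⟨fun h1 => ?_⟩ _
    apply hx
    rw [← h1]
    exact (e.symm h).2

lemma one_fixed (hR : OneReal k K) {c : N ≃ₐ[k] N} (hc : c ∈ CC k N) :
    ∃! q : (N ≃ₐ[k] N) ⧸ HK k K N, c • q = q := by
  obtain ⟨j, hj⟩ := hc
  have hreal : IsReal (j.comp (algebraMap k N)) := by
    rw [ComplexEmbedding.isReal_iff]
    ext a
    have h1 := hj.eq (algebraMap k N a)
    rw [AlgEquiv.commutes] at h1
    exact h1.symm
  obtain ⟨φ', ⟨h1, h2⟩, h3⟩ := hR _ hreal
  -- fixed cosets and real embeddings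
  have key : ∀ x : N ≃ₐ[k] N, x⁻¹ * c * x ∈ HK k K N ↔
      IsReal ((j.comp (x : N →+* N)).comp (algebraMap K N)) := by
    intro x
    have h4 := hj.comp x
    rw [ComplexEmbedding.isReal_iff]
    constructor
    · intro h5
      ext a
      have h6 := h4.eq (algebraMap K N a)
      rw [h5 a] at h6
      exact h6.symm
    · intro h5 a
      apply (j.comp (x : N →+* N)).injective
      have h6 := h4.eq (algebraMap K N a)
      refine h6.trans ?_
      exact RingHom.congr_fun h5 a
  have habove : ∀ x : N ≃ₐ[k] N, ((j.comp (x : N →+* N)).comp (algebraMap K N)).comp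
      (algebraMap k K) = j.comp (algebraMap k N) := by
    intro x
    ext a
    change j (x (algebraMap K N (algebraMap k K a))) = j (algebraMap k N a)
    rw [← IsScalarTower.algebraMap_apply k K N, AlgEquiv.commutes]
  have : FiniteDimensional K N := Module.Finite.of_restrictScalars_finite ℚ K N
  let j' : N →+* ℂ := ComplexEmbedding.lift N φ'
  have h4 : j'.comp (algebraMap K N) = φ' := ComplexEmbedding.lift_comp_algebraMap N φ'
  obtain ⟨σ, hσ⟩ := ComplexEmbedding.exists_comp_symm_eq_of_comp_eq (k := k) j j' (by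
    ext a
    have h5 := RingHom.congr_fun h1 a
    have h6 := RingHom.congr_fun h4 (algebraMap k K a)
    change j (algebraMap k N a) = j' (algebraMap k N a)
    rw [IsScalarTower.algebraMap_apply k K N a]
    refine Eq.trans ?_ h6.symm
    rw [← IsScalarTower.algebraMap_apply k K N a]
    exact h5.symm)
  let g : N ≃ₐ[k] N := σ.symm
  have hg : (j.comp (g : N →+* N)).comp (algebraMap K N) = φ' := by
    rw [← h4, ← hσ]
  have hfix : ∀ x : N ≃ₐ[k] N, c • (x : (N ≃ₐ[k] N) ⧸ HK k K N) = x ↔ x⁻¹ * c * x ∈ HK k K N := by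
    intro x
    change ((c * x : N ≃ₐ[k] N) : (N ≃ₐ[k] N) ⧸ HK k K N) = x ↔ _
    rw [eq_comm, QuotientGroup.eq, ← mul_assoc]
  refine ⟨(g : (N ≃ₐ[k] N) ⧸ HK k K N), ?_, ?_⟩
  · change c • (g : (N ≃ₐ[k] N) ⧸ HK k K N) = g
    rw [hfix, key, hg]
    exact h2
  · intro q hq
    obtain ⟨x, rfl⟩ := QuotientGroup.mk_surjective q
    have h5 := (key x).mp ((hfix x).mp hq)
    have h6 := h3 _ ⟨habove x, h5⟩
    rw [QuotientGroup.eq]
    intro a
    have h7 : x (algebraMap K N a) = g (algebraMap K N a) := by
      apply j.injective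
      have h8 := RingHom.congr_fun (h6.trans hg.symm) a
      exact h8
    rw [AlgEquiv.mul_apply]
    apply x.injective
    rw [← AlgEquiv.mul_apply, mul_inv_cancel, AlgEquiv.one_apply, h7]

/-- **Exact base change.** -/
theorem base_change {M : Type} [CommGroup M] {A : ArtinInvariant M} (hC : TrivComplex A)
    (hR : OneReal k K) {χ : (N ≃ₐ[k] N) → ℂ} (hχ : IsChar χ) :
    A.val K N (fun h => χ (h.restrictScalars k)) = A.val k N χ := by
  have hfin : FiniteDimensional k N := Module.Finite.of_restrictScalars_finite ℚ k N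
  have h1 : IsChar (fun h : N ≃ₐ[K] N => χ (h.restrictScalars k)) :=
    char_comp hχ ((HK k K N).subtype.comp (eHK k K N).symm.toMonoidHom)
  rw [← A.val_ind k K N _ h1, indChar_res]
  have h2 : IsChar (ind (HK k K N) (fun h => χ h)) :=
    Pool.Agent.K4H74.SC.isChar_ind _ (char_comp hχ (HK k K N).subtype)
  refine val_eq_of_sub A h2 hχ (JJ_le hC ?_)
  exact base_JJ (HK k K N) (CC k N) (fun c hc => by
    obtain ⟨j, hj⟩ := hc
    exact isConj_sq hj) (fun c hc => one_fixed hR hc) hχ

end bc

end Pool.Agent.W2helper73.SO
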