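import Mathlib
import Pool.Agent.W2helper73.SO.BC

/-!
# Quadratic twists, and characters which are quadratic twists of restrictions from `ℚ`
-/

set_option autoImplicit false
set_option linter.unusedSectionVars false

namespace Pool.Agent.W2helper73.SO

open Pool.Agent.K4H74.ST Pool.Agent.R389 NumberField NumberField.ComplexEmbedding

section tw

variable {M : Type} [CommGroup M] {A : ArtinInvariant M}
variable {K L : Type} [Field K] [NumberField K] [Field L] [NumberField L] [Algebra K L]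
  [IsGalois K L]

lemma odd_mul (hC : TrivComplex A) {s : (L ≃ₐ[K] L) →* ℂˣ} (hs : Sg s)
    (hX : ∀ c ∈ CC K L, s c = -1) (ψ : (L ≃ₐ[K] L) →* ℂˣ) :
    A.val K L (lc ψ) * A.val K L (lc (ψ * s)) = 1 := by
  have hfin : FiniteDimensional K L := Module.Finite.of_restrictScalars_finite ℚ K L
  have h3 := JJ_le hC (odd_JJ hs hX ψ)
  rwa [mem_TT_char A ((IsChar.lc _).add (IsChar.lc _)), Subgroup.mem_bot,
    A.val_add K L _ _ (IsChar.lc _) (IsChar.lc _)] at h3

/-- **Quadratic twists.** Over a field with at most one real place the value of a linear character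
does not change under quadratic twists. -/
theorem val_quad (hR : TrivOne A) (hC : TrivComplex A)
    (hK : ∀ φ φ' : K →+* ℂ, IsReal φ → IsReal φ' → φ = φ')
    (ψ : (L ≃ₐ[K] L) →* ℂˣ) {s : (L ≃ₐ[K] L) →* ℂˣ} (hs : Sg s) :
    A.val K L (lc (ψ * s)) = A.val K L (lc ψ) := by
  obtain ⟨N, i1, i2, i3, i4, i5, i6, ⟨j, hj⟩, -⟩ := exists_comm K L
  obtain ⟨η, hη, hηc⟩ := odd_i (K := K) hj
  let ψ' : (N ≃ₐ[K] N) →* ℂˣ := ψ.comp (AlgEquiv.restrictNormalHom L)
  let s' : (N ≃ₐ[K] N) →* ℂˣ := s.comp (AlgEquiv.restrictNormalHom L)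
  have hs' : Sg s' := fun g => hs _
  have e1 : A.val K N (lc ψ') = A.val K L (lc ψ) := val_lin_res ψ
  have e2 : A.val K N (lc (ψ' * s')) = A.val K L (lc (ψ * s)) := val_lin_res (ψ * s)
  rw [← e1, ← e2]
  have hsame : ∀ c ∈ CC K N, ∀ c' ∈ CC K N, s' c = s' c' := by
    rintro c ⟨φ, hφ⟩ c' ⟨φ', hφ'⟩
    refine conj_same s' hφ hφ' (hK _ _ ?_ ?_)
    · exact hφ.isReal_comp
    · exact hφ'.isReal_comp
  have h1 := odd_mul hC hη hηc (ψ' * s')
  by_cases hodd : ∃ c ∈ CC K N, s' c = 1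
  · obtain ⟨c₀, hc₀, h2⟩ := hodd
    have h3 := odd_mul hC (hs'.mul hη) (fun c hc => by
      rw [MonoidHom.mul_apply, hsame c hc c₀ hc₀, h2, one_mul]
      exact hηc c hc) ψ'
    rw [← mul_assoc ψ' s' η] at h3
    rw [← h3] at h1
    exact mul_right_cancel h1
  · push Not at hodd
    have h3 := odd_mul hC hs' (fun c hc => (hs' c).resolve_left (hodd c hc)) ψ'
    have h4 := val_lin_sq hR hC ψ'
    rw [pow_two] at h4
    rw [← h4] at h3
    exact mul_left_cancel h3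

lemma real_unique (hK : OneReal ℚ K) : ∀ φ φ' : K →+* ℂ, IsReal φ → IsReal φ' → φ = φ' := by
  intro φ φ' h h'
  obtain ⟨ψ, -, hψ⟩ := hK (algebraMap ℚ ℂ) (by
    rw [ComplexEmbedding.isReal_iff]
    ext x
    simp)
  rw [hψ φ ⟨RingHom.ext fun x => by simp, h⟩, hψ φ' ⟨RingHom.ext fun x => by simp, h'⟩]

/-- **The positive half.** -/
theorem val_restricted (hR : TrivOne A) (hC : TrivComplex A) (hO : TrivOdd A)
    (hK : OneReal ℚ K) (ψ : (L ≃ₐ[K] L) →* ℂˣ)
    {N : Type} [Field N] [NumberField N] [Algebra K N] [Algebra L N] [IsScalarTower K L N]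
    [IsGalois ℚ N] (χ : (N ≃ₐ[ℚ] N) →* ℂˣ)
    (h : ∀ g : N ≃ₐ[K] N, ψ (AlgEquiv.restrictNormalHom L g) ^ 2 = χ (g.restrictScalars ℚ) ^ 2) :
    A.val K L (lc ψ) = 1 := by
  have : IsScalarTower ℚ K N := IsScalarTower.of_algebraMap_eq' (RingHom.ext fun x => by simp)
  have : IsGalois K N := IsGalois.tower_top_of_isGalois ℚ K N
  let r : (N ≃ₐ[K] N) →* (N ≃ₐ[ℚ] N) :=
    { toFun := fun g => g.restrictScalars ℚ
      map_one' := rfl
      map_mul' := fun _ _ => rfl }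
  let ψ' : (N ≃ₐ[K] N) →* ℂˣ := ψ.comp (AlgEquiv.restrictNormalHom L)
  let χ' : (N ≃ₐ[K] N) →* ℂˣ := χ.comp r
  let s : (N ≃ₐ[K] N) →* ℂˣ := ψ' * χ'⁻¹
  have hs : Sg s := by
    intro g
    have h1 : s g ^ 2 = 1 := by
      change (ψ' g * (χ' g)⁻¹) ^ 2 = 1
      rw [mul_pow, inv_pow, mul_inv_eq_one]
      exact h g
    have h5 : ((s g : ℂˣ) : ℂ) * ((s g : ℂˣ) : ℂ) = 1 := by
      rw [← Units.val_mul, ← pow_two, h1, Units.val_one]
    rcases mul_self_eq_one_iff.mp h5 with h6 | h6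
    · left; exact Units.ext h6
    · right; exact Units.ext (by rw [h6]; simp)
  have e1 : A.val K N (lc ψ') = A.val K L (lc ψ) := val_lin_res ψ
  have e2 : ψ' = χ' * s := by
    ext g
    change ((ψ' g : ℂˣ) : ℂ) = ((χ' g * (ψ' g * (χ' g)⁻¹) : ℂˣ) : ℂ)
    rw [mul_comm (ψ' g), mul_inv_cancel_left]
  rw [← e1, e2, val_quad hR hC (real_unique hK) χ' hs]
  have h2 := base_change hC hK (k := ℚ) (N := N) (IsChar.lc χ)
  have h3 : (fun h : N ≃ₐ[K] N => lc χ (h.restrictScalars ℚ)) = lc χ' := rfl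
  rw [← h3, h2]
  exact val_lin_real hR hC hO inferInstance χ

end tw

end Pool.Agent.W2helper73.SO
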