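import Mathlib
import Pool.Agent.W2helper73.SO.Pos
import Pool.Agent.W2helper73.SO.Desc
import Pool.Agent.W2helper73.SO.Quart
import Pool.Agent.W2helper73.SO.Glob

/-!
# The criterion for quartic characters
-/

set_option autoImplicit false
set_option linter.unusedSectionVars false

namespace Pool.Agent.W2helper73.SO

open Pool.Agent.K4H74.ST Pool.Agent.R389 NumberField NumberField.ComplexEmbedding

section one

variable {K : Type} [Field K] [NumberField K]

lemma finrank_odd (hK : InfinitePlace.nrRealPlaces K = 1) : Odd (Module.finrank ℚ K) := by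
  rw [← InfinitePlace.card_add_two_mul_card_eq_rank K, hK, add_comm]
  exact odd_two_mul_add_one _

lemma oneReal_of (hK : InfinitePlace.nrRealPlaces K = 1) : OneReal ℚ K := by
  intro φ hφ
  obtain ⟨τ, hτ, hu⟩ := exists_real hK
  exact ⟨τ, ⟨RingHom.ext fun x => by simp, hτ⟩, fun φ' h => hu φ' h.2⟩

/-- the real embedding of a field with a real place -/
lemma exists_toReal (hK : InfinitePlace.nrRealPlaces K = 1) : Nonempty (K →+* ℝ) := by
  obtain ⟨τ, hτ, -⟩ := exists_real hK
  exact ⟨hτ.embedding⟩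

end one

section rat

/-- cyclic quartic extensions of `ℚ` -/
theorem exists_quartic_rat (β : ℚ) (hα : ¬ IsSquare (1 + β ^ 2)) :
    ∃ (F : Type) (_ : Field F) (_ : NumberField F) (_ : IsGalois ℚ F)
      (ψ : (F ≃ₐ[ℚ] F) →* ℂˣ), Function.Injective ψ ∧ (∀ g, ψ g ^ 4 = 1) ∧ (∃ g, ψ g ^ 2 ≠ 1) ∧
      ∃ δ : F, δ * δ = algebraMap ℚ F (1 + β ^ 2) ∧ ∀ g : F ≃ₐ[ℚ] F, g δ = δ ↔ ψ g ^ 2 = 1 := by
  obtain ⟨F, i1, i2, i3, i4, ψ, h⟩ := exists_quartic ℚ β hα
  have e : i3 = DivisionRing.toRatAlgebra := Subsingleton.elim _ _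
  subst e
  exact ⟨F, i1, i2, i4, ψ, h⟩

end rat

section pos

variable {M : Type} [CommGroup M] {A : ArtinInvariant M}
variable {K L : Type} [Field K] [NumberField K] [Field L] [NumberField L] [Algebra K L]
  [IsGalois K L]

/-- **The converse.** -/
theorem val_of_rational (hR : TrivOne A) (hC : TrivComplex A) (hO : TrivOdd A)
    (hK : InfinitePlace.nrRealPlaces K = 1) (ψ : (L ≃ₐ[K] L) →* ℂˣ)
    (hinj : Function.Injective ψ) (h4 : ∀ g, ψ g ^ 4 = 1) (h2 : ∃ g, ψ g ^ 2 ≠ 1)
    (d : ℚ) (hL : IsSquare (algebraMap ℚ L d)) (hd : ¬ IsSquare (algebraMap ℚ K d)) :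
    A.val K L (lc ψ) = 1 := by
  obtain ⟨δ, hδ⟩ := hL
  have hfin : FiniteDimensional K L := Module.Finite.of_restrictScalars_finite ℚ K L
  have hδ' : δ * δ = algebraMap K L (algebraMap ℚ K d) := by
    rw [← hδ]; simp
  obtain ⟨hq, a, b, hab⟩ := quad_sub hinj h4 h2 hd hδ'
  obtain ⟨ρ⟩ := exists_toReal hK
  have hb : b ≠ 0 := by
    intro h0
    rw [h0] at hab
    have h1 := congrArg ρ hab
    rw [map_add, map_pow, map_mul, map_pow, map_one, map_zero] at h1
    nlinarith [sq_nonneg (ρ a)]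
  obtain ⟨u, v, huv⟩ := two_squares_descent K (finrank_odd hK) d (a / b) (1 / b) (by
    field_simp
    linear_combination hab)
  have hu : u ≠ 0 := by
    intro h0
    apply hd
    exact ⟨algebraMap ℚ K v, by rw [← map_mul, ← huv, h0]; congr 1; ring⟩
  have hα : ¬ IsSquare (1 + (v / u) ^ 2) := by
    rintro ⟨z, hz⟩
    apply hd
    refine ⟨algebraMap ℚ K (u * z), ?_⟩
    rw [← map_mul, ← huv]
    congr 1
    field_simp at hz
    linear_combination hz
  obtain ⟨F, _, _, _, χ, -, hχ4, -, δF, hδF, hχ⟩ := exists_quartic_rat (v / u) hα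
  obtain ⟨N, ⟨iL⟩, ⟨iF⟩⟩ := ((ev_emb L).and (ev_emb F)).exists
  let _ : Algebra L N := iL.toAlgebra
  let _ : Algebra F N := iF.toAlgebra
  let _ : Algebra K N := (iL.comp (algebraMap K L)).toAlgebra
  have : IsScalarTower K L N := IsScalarTower.of_algebraMap_eq' rfl
  have : IsScalarTower ℚ F N := IsScalarTower.of_algebraMap_eq' (RingHom.ext fun x => by simp)
  refine val_restricted hR hC hO (oneReal_of hK) ψ (N := N)
    (χ.comp (AlgEquiv.restrictNormalHom F)) fun g => ?_
  have hψ' : ∀ x : ℂˣ, x ^ 4 = 1 → x ^ 2 = 1 ∨ x ^ 2 = -1 := fun x hx => by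
    by_cases h : x ^ 2 = 1
    · exact Or.inl h
    · exact Or.inr (units_sq_sq hx h)
  have hiff : ψ (AlgEquiv.restrictNormalHom L g) ^ 2 = 1 ↔
      χ (AlgEquiv.restrictNormalHom F (g.restrictScalars ℚ)) ^ 2 = 1 := by
    rw [← hq, ← hχ]
    have e1 : algebraMap L N (AlgEquiv.restrictNormalHom L g δ) = g (algebraMap L N δ) :=
      AlgEquiv.restrictNormal_commutes g L δ
    have e2 : algebraMap F N (AlgEquiv.restrictNormalHom F (g.restrictScalars ℚ) δF)
        = g (algebraMap F N δF) :=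
      AlgEquiv.restrictNormal_commutes (g.restrictScalars ℚ) F δF
    have e3 : (algebraMap L N δ) ^ 2 = (algebraMap ℚ N u * algebraMap F N δF) ^ 2 := by
      rw [mul_pow, ← map_pow, ← map_pow, ← map_pow, sq δ, sq δF, ← hδ, hδF,
        show algebraMap L N (algebraMap ℚ L d) = algebraMap ℚ N d by simp,
        show algebraMap F N (algebraMap ℚ F (1 + (v / u) ^ 2))
          = algebraMap ℚ N (1 + (v / u) ^ 2) by simp, ← map_mul, ← huv]
      congr 1
      field_simp
    have hu' : algebraMap ℚ N u ≠ 0 := (map_ne_zero _).mpr hu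
    have hgu : g (algebraMap ℚ N u) = algebraMap ℚ N u := by simp
    rw [← (algebraMap L N).injective.eq_iff, ← (algebraMap F N).injective.eq_iff, e1, e2]
    rcases sq_eq_sq_iff_eq_or_eq_neg.mp e3 with h | h
    · rw [h, map_mul, hgu]
      exact ⟨fun h' => mul_left_cancel₀ hu' h', fun h' => by rw [h']⟩
    · rw [h, map_neg, map_mul, hgu, neg_inj]
      exact ⟨fun h' => mul_left_cancel₀ hu' h', fun h' => by rw [h']⟩
  show ψ (AlgEquiv.restrictNormalHom L g) ^ 2 = χ (AlgEquiv.restrictNormalHom F (g.restrictScalars ℚ)) ^ 2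
  rcases hψ' _ (h4 (AlgEquiv.restrictNormalHom L g)) with h | h
  · rw [h, hiff.mp h]
  · rcases hψ' _ (hχ4 (AlgEquiv.restrictNormalHom F (g.restrictScalars ℚ))) with h' | h'
    · rw [hiff.mpr h', h']
    · rw [h, h']

end pos

end Pool.Agent.W2helper73.SO
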