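import Mathlib
import Pool.Agent.W401.Cheb.Main
import Pool.Agent.W2helper73.SO.Beta
import Pool.Agent.W2helper73.SO.Crit

/-!
# Existence of obstructed quartic characters
-/

set_option autoImplicit false
set_option linter.unusedSectionVars false

namespace Pool.Agent.W2helper73.SO

open NumberField Pool.Agent.W401.Cheb

section primes

variable {K : Type} [Field K] [NumberField K]

/-- a field different from `ℚ` has two different homomorphisms to a prime field -/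
theorem exists_two_maps (h1 : Module.finrank ℚ K ≠ 1) :
    ∃ (p : ℕ) (_ : Fact p.Prime) (φ φ' : 𝓞 K →+* ZMod p), p ≠ 2 ∧ φ ≠ φ' := by
  obtain ⟨N, ⟨j⟩⟩ := (ev_emb K).exists
  -- an element which is moved
  obtain ⟨θ, σ, hσ⟩ : ∃ (θ : 𝓞 K) (σ : N ≃ₐ[ℚ] N), σ (j θ) ≠ j θ := by
    by_contra hno
    push Not at hno
    apply h1
    have h2 : ∀ x : K, ∃ q : ℚ, algebraMap ℚ K q = x := by
      intro x
      have h3 : ∀ σ : N ≃ₐ[ℚ] N, σ (j x) = j x := by
        intro σ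
        obtain ⟨a, b, hb, rfl⟩ := IsFractionRing.div_surjective (A := 𝓞 K) x
        rw [map_div₀, map_div₀]
        exact congrArg₂ _ (hno a σ) (hno b σ)
      obtain ⟨q, hq⟩ := (IsGalois.mem_range_algebraMap_iff_fixed (F := ℚ) (E := N) (j x)).mpr h3
      refine ⟨q, j.injective ?_⟩
      rw [← hq]
      simp
    have h4 : (⊥ : Subalgebra ℚ K) = ⊤ := by
      rw [eq_top_iff]
      intro x _
      obtain ⟨q, hq⟩ := h2 x
      exact ⟨q, hq⟩
    exact Subalgebra.bot_eq_top_iff_finrank_eq_one.mp h4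
  let jO : 𝓞 K →+* 𝓞 N := RingOfIntegers.mapRingHom j
  let sO : 𝓞 N →+* 𝓞 N := RingOfIntegers.mapRingHom (σ : N →+* N)
  set δ : 𝓞 N := sO (jO θ) - jO θ with hδ
  have hδ0 : δ ≠ 0 := by
    intro h0
    apply hσ
    have h2 : sO (jO θ) = jO θ := sub_eq_zero.mp h0
    exact congrArg (algebraMap (𝓞 N) N) h2
  have hn0 : Ideal.absNorm (Ideal.span {δ}) ≠ 0 := by
    rw [Ne, Ideal.absNorm_eq_zero_iff, Ideal.span_singleton_eq_bot]
    exact hδ0
  obtain ⟨p, ⟨hp, hxp⟩, hlt⟩ := (infinite_frob N (1 : Gal(N/ℚ))).exists_gt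
    (Ideal.absNorm (Ideal.span {δ}) + 2)
  have hpf : Fact p.Prime := ⟨hp⟩
  rw [xp, dif_pos hp] at hxp
  have hne := (Nat.card_ne_zero.mp hxp).1
  obtain ⟨φ, hφ⟩ := hne
  have hφ' : ∀ x : 𝓞 N, φ x ^ p = φ x := fun x => by
    have := hφ x
    rw [one_smul] at this
    exact this.symm
  let ι : ZMod p →+* AlgebraicClosure (ZMod p) := ZMod.castHom (m := p) dvd_rfl _
  have hr : ∀ x : 𝓞 N, φ x ∈ ι.fieldRange := by
    intro x
    rw [ZMod.fieldRange_castHom_eq_bot, Subfield.mem_bot_iff_pow_eq_self (AlgebraicClosure (ZMod p)) p]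
    exact hφ' x
  let e : ZMod p ≃+* ι.fieldRange := ι.rangeRestrictFieldEquiv
  let φ₀ : 𝓞 N →+* ZMod p := (e.symm : ι.fieldRange →+* ZMod p).comp (φ.codRestrict ι.fieldRange hr)
  refine ⟨p, hpf, φ₀.comp jO, φ₀.comp (sO.comp jO), by omega, fun heq => ?_⟩
  have h5 : φ₀ (jO θ) = φ₀ (sO (jO θ)) := DFunLike.congr_fun heq θ
  have h6 : φ₀ δ = 0 := by rw [hδ, map_sub, h5, sub_self]
  have h7 := Ideal.absNorm_mem (Ideal.span {δ})
  obtain ⟨c, hc⟩ := Ideal.mem_span_singleton.mp h7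
  have h8 : ((Ideal.absNorm (Ideal.span {δ}) : ℕ) : ZMod p) = 0 := by
    have := congrArg φ₀ hc
    rwa [map_natCast, map_mul, h6, zero_mul] at this
  rw [ZMod.natCast_eq_zero_iff] at h8
  have h9 := Nat.le_of_dvd (Nat.pos_of_ne_zero hn0) h8
  omega

/-- a field of odd degree different from `ℚ` contains a sum of two squares which is not a product
of a rational number and a square -/
theorem exists_beta (hodd : Odd (Module.finrank ℚ K)) (h1 : Module.finrank ℚ K ≠ 1) :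
    ∃ β : K, ∀ d : ℚ, d ≠ 0 → ¬ IsSquare (algebraMap ℚ K d * (1 + β ^ 2)) := by
  obtain ⟨p, _, φ, φ', hp2, hne⟩ := exists_two_maps h1
  exact exists_beta_of hodd hp2 φ φ' hne

/-- every field with exactly one real place, except `ℚ`, has a cyclic quartic extension whose
quadratic subextension does not come from `ℚ` -/
theorem exists_obstructed (hK : InfinitePlace.nrRealPlaces K = 1)
    (h1 : Module.finrank ℚ K ≠ 1) :
    ∃ (F : Type) (_ : Field F) (_ : NumberField F) (_ : Algebra K F) (_ : IsGalois K F)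
      (ψ : (F ≃ₐ[K] F) →* ℂˣ), Function.Injective ψ ∧ (∀ g, ψ g ^ 4 = 1) ∧ (∃ g, ψ g ^ 2 ≠ 1) ∧
      ∀ d : ℚ, IsSquare (algebraMap ℚ F d) → IsSquare (algebraMap ℚ K d) := by
  obtain ⟨β, hβ⟩ := exists_beta (finrank_odd hK) h1
  have hα : ¬ IsSquare (1 + β ^ 2) := by
    have := hβ 1 one_ne_zero
    rwa [map_one, one_mul] at this
  obtain ⟨F, i1, i2, i3, i4, ψ, hinj, h4, h2, δ, hδ, hψ⟩ := exists_quartic K β hα
  refine ⟨F, i1, i2, i3, i4, ψ, hinj, h4, h2, ?_⟩
  rintro d ⟨η, hη⟩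
  by_contra hd
  have hfin : FiniteDimensional K F := Module.Finite.of_restrictScalars_finite ℚ K F
  have hd0 : d ≠ 0 := by
    rintro rfl
    exact hd ⟨0, by simp⟩
  have hη' : η * η = algebraMap K F (algebraMap ℚ K d) := by rw [← hη]; simp
  obtain ⟨hq, -⟩ := quad_sub hinj h4 h2 hd hη'
  have h5 : ∀ g : F ≃ₐ[K] F, g (η * δ) = η * δ := by
    intro g
    have e1 : g η ^ 2 = η ^ 2 := by rw [← map_pow, sq, hη', g.commutes]
    have e2 : g δ ^ 2 = δ ^ 2 := by rw [← map_pow, sq, hδ, g.commutes]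
    rw [map_mul]
    by_cases hg : ψ g ^ 2 = 1
    · rw [(hq g).mpr hg, (hψ g).mpr hg]
    · have e3 : g η = -η := (sq_eq_sq_iff_eq_or_eq_neg.mp e1).resolve_left
        (fun h => hg ((hq g).mp h))
      have e4 : g δ = -δ := (sq_eq_sq_iff_eq_or_eq_neg.mp e2).resolve_left
        (fun h => hg ((hψ g).mp h))
      rw [e3, e4, neg_mul_neg]
  obtain ⟨x, hx⟩ := (IsGalois.mem_range_algebraMap_iff_fixed (F := K) (E := F) (η * δ)).mpr h5
  refine hβ d hd0 ⟨x, (algebraMap K F).injective ?_⟩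
  rw [map_mul, map_mul, hx, ← hη', ← hδ]
  ring

end primes

end Pool.Agent.W2helper73.SO
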