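import Mathlib
import Pool.Agent.K4H34.AL.Comb
import Pool.Agent.W2helper1.SI.Rel

/-!
# Products of Artin L-functions and inductive invariants
-/

set_option autoImplicit false
set_option linter.unusedSectionVars false

namespace Pool.Agent.W2helper73.SO

open NumberField Pool.Agent.K4H74 Pool.Agent.K4H74.SK Pool.Agent.K4H74.ST Pool.Agent.K4H34.AL

/-- `L(s, y) ^ n = ∏ L(s, x_i) ^ (k_i)` for `Re s > 1`, where all the `x_i` belong to the class
`P`. -/
def IsProd (P : Pair → Prop) (y : Pair) (n : ℤ) : Prop :=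
  ∃ (r : ℕ) (x : Fin r → Pair) (k : Fin r → ℤ), (∀ i, P (x i)) ∧
    ∀ s : ℂ, 1 < s.re → ∀ (l : ℂ) (l' : Fin r → ℂ), HasSum (logTerm y.2 s) l →
      (∀ i, HasSum (logTerm (x i).2 s) (l' i)) →
      Complex.exp l ^ n = ∏ i, Complex.exp (l' i) ^ k i

/-- the value of the L-function at `s` -/
noncomputable def evs (s : {s : ℂ // 1 < s.re}) :
    Multiplicative ({s : ℂ // 1 < s.re} → ℂ) →* ℂˣ :=
  MonoidHom.mk' (fun y => Units.mk0 (Complex.exp (Multiplicative.toAdd y s))
    (Complex.exp_ne_zero _)) (by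
    intro a b
    ext
    exact Complex.exp_add _ _)

/-- an L-function whose invariants are all trivial is a product -/
theorem isProd_of {P : Pair → Prop} {y : Pair} {n : ℤ}
    (h : ∀ (M : Type) [CommGroup M] (B : ArtinInvariant M), (∀ x, P x → pval B x = 1) →
      pval B y ^ n = 1) : IsProd P y n := by
  let H : Subgroup (Multiplicative ({s : ℂ // 1 < s.re} → ℂ)) :=
    Subgroup.closure {z | ∃ x : Pair, P x ∧ z = pval logInv x}
  let B := mapInv (QuotientGroup.mk' H) logInv
  have hB : ∀ x : Pair, P x → pval B x = 1 := by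
    intro x hx
    exact (QuotientGroup.eq_one_iff (N := H) _).mpr (Subgroup.subset_closure ⟨x, hx, rfl⟩)
  have h3 := h _ B hB
  have h4 : pval B y = QuotientGroup.mk' H (pval logInv y) := rfl
  rw [h4, ← map_zpow] at h3
  have h5 : pval logInv y ^ n ∈ H := (QuotientGroup.eq_one_iff _).mp h3
  obtain ⟨r, x, k, hx, h6⟩ := closure_form logInv P h5
  refine ⟨r, x, k, hx, fun s hs l l' hl hl' => ?_⟩
  have h7 := congrArg (fun u : ℂˣ => (u : ℂ)) (congrArg (evs ⟨s, hs⟩) h6)
  simp only [map_prod, map_zpow, Units.coe_prod, Units.val_zpow_eq_zpow_val] at h7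
  have h8 : ((evs ⟨s, hs⟩ (pval logInv y) : ℂˣ) : ℂ) = Complex.exp l :=
    congrArg Complex.exp (logInv_val _ _ hl)
  have h9 : ∀ i, ((evs ⟨s, hs⟩ (pval logInv (x i)) : ℂˣ) : ℂ) = Complex.exp (l' i) := fun i =>
    congrArg Complex.exp (logInv_val _ _ (hl' i))
  rwa [h8, Finset.prod_congr rfl (fun i _ => by rw [h9 i])] at h7

/-- products are respected by all inductive invariants -/
theorem isProd_val {P : Pair → Prop} {y : Pair} {n : ℤ} (hy : IsChar y.2)
    (hP : ∀ x, P x → IsChar x.2) (h : IsProd P y n) {M : Type} [CommGroup M]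
    (A : ArtinInvariant M) (hA : ∀ x, P x → pval A x = 1) : pval A y ^ n = 1 := by
  obtain ⟨r, x, k, hx, hprod⟩ := h
  let x' : Fin (r + 1) → Pair := Fin.cons y x
  let k' : Fin (r + 1) → ℤ := Fin.cons (-n) k
  have h1 := Pool.Agent.W2helper1.SI.rel x' k' (fun i => by
    refine Fin.cases ?_ (fun j => ?_) i
    · exact hy
    · exact hP _ (hx j)) (fun s => by
    have h2 := hprod s.1 s.2 (∑' z, logTerm y.2 s.1 z)
      (fun i => ∑' z, logTerm (x i).2 s.1 z) (logTerm_summable _ s.2).hasSum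
      (fun i => (logTerm_summable _ s.2).hasSum)
    have h3 : Multiplicative.toAdd (pval logInv y) s
        = ∑' z, logTerm y.2 s.1 z := logInv_val _ s (logTerm_summable _ s.2).hasSum
    have h4 : ∀ i, Multiplicative.toAdd (pval logInv (x i)) s
        = ∑' z, logTerm (x i).2 s.1 z := fun i =>
      logInv_val _ s (logTerm_summable _ s.2).hasSum
    have h5 : ∏ i, Complex.exp ((k i : ℂ) * Multiplicative.toAdd (pval logInv (x i)) s)
        = ∏ i, Complex.exp (∑' z, logTerm (x i).2 s.1 z) ^ k i :=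
      Finset.prod_congr rfl fun i _ => by rw [h4 i, Complex.exp_int_mul]
    rw [Fin.sum_univ_succ, Complex.exp_add, Complex.exp_sum]
    simp only [x', k', Fin.cons_zero, Fin.cons_succ]
    rw [h5, h3, Complex.exp_int_mul, zpow_neg, h2]
    exact inv_mul_cancel₀ (Finset.prod_ne_zero_iff.mpr fun i _ =>
      zpow_ne_zero _ (Complex.exp_ne_zero _))) A
  rw [Fin.prod_univ_succ] at h1
  simp only [x', k', Fin.cons_zero, Fin.cons_succ] at h1
  rw [Finset.prod_eq_one (fun i _ => by rw [hA (x i) (hx i), one_zpow]), mul_one, zpow_neg,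
    inv_eq_one] at h1
  exact h1

end Pool.Agent.W2helper73.SO
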