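import Mathlib
import Pool.Agent.W2helper73.SO.Exist
import Pool.Agent.W2helper73.SO.Prod

/-!
# The classes of characters
-/

set_option autoImplicit false
set_option linter.unusedSectionVars false

namespace Pool.Agent.W2helper73.SO

open NumberField NumberField.ComplexEmbedding Pool.Agent.K4H74 Pool.Agent.K4H74.SK
  Pool.Agent.K4H74.ST Pool.Agent.K4H34.AL

/-- The basic characters: the trivial characters, the totally odd linear characters of the
extensions of the totally real fields (for these two types Stark's conjecture is known, by the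
class number formula and Siegel's theorem), and the faithful linear characters of the extensions
of the totally complex fields. -/
inductive Basic : Pair → Prop
  | one (E : Ext) : Basic ⟨E, fun _ => 1⟩
  | odd (E : Ext) (ψ : G E →* ℂˣ) : IsTotallyReal E.K → (∀ t : G E, IsCC t → ψ t = -1) →
      Basic ⟨E, lin ψ⟩
  | complex (E : Ext) (ψ : G E →* ℂˣ) : IsTotallyComplex E.K → Function.Injective ψ →
      Basic ⟨E, lin ψ⟩

/-- The wide class: all the characters over the totally complex fields, all the real valued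
characters, all the characters over the totally real fields on which the complex conjugations act
as `1` or `-1` (for example the linear and the totally odd characters), and all the characters of
the abelian extensions of `ℚ`. It contains the characters for which Stark's conjecture is known by
the list of the problem. -/
inductive Wide : Pair → Prop
  | complex (E : Ext) (χ : G E → ℂ) : IsChr χ → IsTotallyComplex E.K → Wide ⟨E, χ⟩
  | real (E : Ext) (χ : G E → ℂ) : IsChr χ → (∀ g, (χ g).im = 0) → Wide ⟨E, χ⟩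
  | scalar (E : Ext) (χ : G E → ℂ) : IsChr χ → IsTotallyReal E.K →
      (∀ t : G E, IsCC t → χ t = χ 1 ∨ χ t = - χ 1) → Wide ⟨E, χ⟩
  | abelian (E : Ext) (χ : G E → ℂ) : IsChr χ → IsGalois ℚ E.L →
      (∀ g h : E.L ≃ₐ[ℚ] E.L, g * h = h * g) → Wide ⟨E, χ⟩

lemma isChar_const {G : Type} [Group G] : IsChar (fun _ : G => (1 : ℂ)) := by
  have h : (fun _ : G => (1 : ℂ)) = lc (1 : G →* ℂˣ) := by
    funext g
    simp [lc]
  rw [h]
  exact IsChar.lc 1

lemma Basic.isChar {x : Pair} (h : Basic x) : IsChar x.2 := by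
  cases h with
  | one E => exact isChar_const
  | odd E ψ _ _ => exact IsChar.lc ψ
  | complex E ψ _ _ => exact IsChar.lc ψ

lemma Wide.isChar {x : Pair} (h : Wide x) : IsChar x.2 := by
  cases h with
  | complex E χ h _ => exact isChr_iff.mp h
  | real E χ h _ => exact isChr_iff.mp h
  | scalar E χ h _ _ => exact isChr_iff.mp h
  | abelian E χ h _ _ => exact isChr_iff.mp h

lemma Basic.wide {x : Pair} (h : Basic x) : Wide x := by
  have h' := h.isChar
  cases h with
  | one E => exact Wide.real E _ (isChr_iff.mpr h') (fun g => by simp)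
  | odd E ψ h1 h2 =>
    refine Wide.scalar E _ (isChr_iff.mpr h') h1 fun t ht => Or.inr ?_
    simp [lin, h2 t ht]
  | complex E ψ h1 _ => exact Wide.complex E _ (isChr_iff.mpr h') h1

lemma basic_triv {M : Type} [CommGroup M] {A : ArtinInvariant M} (h : ∀ x, Basic x → pval A x = 1) :
    TrivOne A ∧ TrivComplex A ∧ TrivOdd A := by
  refine ⟨fun K _ _ => h ⟨⟨K, K⟩, fun _ => 1⟩ (Basic.one ⟨K, K⟩),
    fun K L _ _ _ _ _ _ hK ψ hψ => h ⟨⟨K, L⟩, lc ψ⟩ (Basic.complex ⟨K, L⟩ ψ hK hψ),
    fun K L _ _ _ _ _ _ hK ψ hψ => h ⟨⟨K, L⟩, lc ψ⟩ (Basic.odd ⟨K, L⟩ ψ hK ?_)⟩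
  rintro t ⟨φ, hφ⟩
  exact hψ φ t (RingHom.ext fun x => (hφ x).symm)

section scal

/-- an involution with maximal trace is the identity -/
lemma invol_one {V : Type} [AddCommGroup V] [Module ℂ V] [FiniteDimensional ℂ V] {T : V →ₗ[ℂ] V}
    (hT : T * T = 1) (htr : LinearMap.trace ℂ V T = LinearMap.trace ℂ V 1) : T = 1 := by
  let P : V →ₗ[ℂ] V := (1 / 2 : ℂ) • (1 - T)
  have hP : IsIdempotentElem P := by
    change ((1 / 2 : ℂ) • (1 - T)) * ((1 / 2 : ℂ) • (1 - T)) = (1 / 2 : ℂ) • (1 - T)
    rw [smul_mul_smul_comm, mul_sub, sub_mul, sub_mul, hT, one_mul, one_mul, mul_one]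
    have h1 : (1 - T - (T - 1) : V →ₗ[ℂ] V) = (2 : ℂ) • (1 - T) := by
      rw [two_smul]
      abel
    rw [h1, smul_smul]
    norm_num
  have htr : LinearMap.trace ℂ V P = 0 := by
    change LinearMap.trace ℂ V ((1 / 2 : ℂ) • (1 - T)) = 0
    rw [map_smul, map_sub, htr, sub_self, smul_zero]
  have hP0 : P = 0 := LinearMap.IsIdempotentElem.eq_zero_of_trace_eq_zero hP htr
  have h1 : (2 : ℂ) • P = 1 - T := by
    change (2 : ℂ) • ((1 / 2 : ℂ) • (1 - T)) = 1 - T
    rw [smul_smul]
    norm_num
  rw [hP0, smul_zero] at h1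
  exact (sub_eq_zero.mp h1.symm).symm

lemma scalar_of {G : Type} [Group G] {χ : G → ℂ} (h : IsChar χ) {c : G} (hc : c * c = 1)
    (ht : χ c = χ 1 ∨ χ c = - χ 1) : ∃ e : ℂ, e ^ 2 = 1 ∧ ∀ g, χ (c * g) = e * χ g := by
  obtain ⟨V, _, _, _, ρ, rfl⟩ := h
  have hT : ρ c * ρ c = 1 := by rw [← map_mul, hc, map_one]
  have h1 : ρ 1 = 1 := ρ.map_one
  rcases ht with ht | ht
  · refine ⟨1, by norm_num, fun g => ?_⟩
    have h2 : ρ c = 1 := invol_one hT (by
      have : LinearMap.trace ℂ V (ρ c) = LinearMap.trace ℂ V (ρ 1) := ht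
      rw [this, h1])
    change LinearMap.trace ℂ V (ρ (c * g)) = 1 * LinearMap.trace ℂ V (ρ g)
    rw [map_mul, h2, one_mul, one_mul]
  · refine ⟨-1, by norm_num, fun g => ?_⟩
    have h2 : -ρ c = 1 := invol_one (by rw [neg_mul_neg, hT]) (by
      have : LinearMap.trace ℂ V (ρ c) = - LinearMap.trace ℂ V (ρ 1) := ht
      rw [map_neg, this, h1, neg_neg])
    have h3 : ρ c = -1 := by rw [← h2, neg_neg]
    change LinearMap.trace ℂ V (ρ (c * g)) = -1 * LinearMap.trace ℂ V (ρ g)
    rw [map_mul, h3, neg_mul, one_mul, map_neg, neg_one_mul]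

end scal

section ab

/-- the subfields of the abelian extensions of `ℚ` are totally real or totally complex -/
lemma real_or_complex (L : Type) [Field L] [NumberField L] [IsGalois ℚ L]
    (hab : ∀ g h : L ≃ₐ[ℚ] L, g * h = h * g) (F : Type) [Field F] [NumberField F] [Algebra F L] :
    IsTotallyReal F ∨ IsTotallyComplex F := by
  obtain ⟨φ₀⟩ : Nonempty (L →+* ℂ) := inferInstance
  obtain ⟨c, hc⟩ := exists_conj (K := ℚ) (φ := φ₀) (by
    rw [ComplexEmbedding.isReal_iff]
    ext x
    simp)
  have key : ∀ τ : F →+* ℂ, IsReal τ ↔ ∀ x : F, c (algebraMap F L x) = algebraMap F L x := by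
    intro τ
    let φ : L →+* ℂ := ComplexEmbedding.lift L τ
    have hφ : φ.comp (algebraMap F L) = τ := ComplexEmbedding.lift_comp_algebraMap L τ
    obtain ⟨g, hg⟩ := ComplexEmbedding.exists_comp_symm_eq_of_comp_eq (k := ℚ) φ₀ φ
      (RingHom.ext fun x => by simp)
    have h1 : ∀ y : L, φ y = φ₀ (g.symm y) := fun y => by rw [← hg]; rfl
    have h2 : ∀ y : L, star (φ y) = φ (c y) := by
      intro y
      have h3 : g.symm (c y) = c (g.symm y) := by
        have := DFunLike.congr_fun (hab g.symm c) y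
        exact this
      rw [h1, h1, h3]
      exact RingHom.congr_fun hc (g.symm y)
    constructor
    · intro h x
      have h4 : star (τ x) = τ x := RingHom.congr_fun h x
      rw [← hφ] at h4
      change star (φ (algebraMap F L x)) = φ (algebraMap F L x) at h4
      rw [h2] at h4
      exact φ.injective h4
    · intro h
      refine RingHom.ext fun x => ?_
      change star (τ x) = τ x
      rw [← hφ]
      change star (φ (algebraMap F L x)) = φ (algebraMap F L x)
      rw [h2, h]
  by_cases h : ∀ x : F, c (algebraMap F L x) = algebraMap F L x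
  · left
    refine ⟨fun v => ?_⟩
    rw [← InfinitePlace.mk_embedding v, InfinitePlace.isReal_mk_iff]
    exact (key _).mpr h
  · right
    refine ⟨fun v => ?_⟩
    rw [← InfinitePlace.mk_embedding v, InfinitePlace.isComplex_mk_iff]
    exact fun h' => h ((key _).mp h')

end ab

end Pool.Agent.W2helper73.SO
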