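import Mathlib
import Pool.Agent.W2helper73.SO.Cls

/-!
# The criterion
-/

set_option autoImplicit false
set_option linter.unusedSectionVars false

namespace Pool.Agent.W2helper73.SO

open NumberField NumberField.ComplexEmbedding Pool.Agent.K4H74 Pool.Agent.K4H74.SK
  Pool.Agent.K4H74.ST Pool.Agent.K4H34.AL

/-- the sign of an integer -/
def sgn : Multiplicative ℤ →* ℤˣ := zpowersHom ℤˣ (-1)

lemma sgn_apply (z : Multiplicative ℤ) : sgn z = (-1) ^ z.toAdd := rfl

lemma sgn_even {z : Multiplicative ℤ} (h : Even z.toAdd) : sgn z = 1 := by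
  rw [sgn_apply, h.neg_one_zpow]

lemma sgn_odd {z : Multiplicative ℤ} (h : Odd z.toAdd) : sgn z = -1 := by
  rw [sgn_apply, h.neg_one_zpow]

lemma even_of_sgn {z : Multiplicative ℤ} (h : sgn z = 1) : Even z.toAdd := by
  rcases Int.even_or_odd z.toAdd with h1 | h1
  · exact h1
  · rw [sgn_odd h1] at h
    exact absurd h (by decide)

section

variable {K L : Type} [Field K] [NumberField K] [Field L] [NumberField L] [Algebra K L]
  [IsGalois K L] {ψ : (L ≃ₐ[K] L) →* ℂˣ}

/-- the invariant, and its values on the wide class -/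
theorem exists_wide (hK : InfinitePlace.nrRealPlaces K = 1)
    (h4 : ∀ g, ψ g ^ 4 = 1) (h2 : ∃ g, ψ g ^ 2 ≠ 1)
    (hd : ∀ d : ℚ, IsSquare (algebraMap ℚ L d) → IsSquare (algebraMap ℚ K d)) :
    ∃ A : ArtinInvariant (Multiplicative ℤ),
      (∀ (E : Ext) (χ : G E → ℂ), IsChr χ → ∀ σ : ℂ ≃+* ℂ,
          pval A ⟨E, fun g => σ (χ g)⟩ = pval A ⟨E, χ⟩) ∧
      (∀ x, Wide x → Even (pval A x).toAdd) ∧ Odd (A.val K L (lc ψ)).toAdd := by
  obtain ⟨A, h1, he, ho⟩ := exists_invariant (K := K) (L := L) (ψ := ψ) hK h4 h2 hd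
  refine ⟨A, fun E χ hχ σ => h1 E.K E.L χ (isChr_iff.mp hχ) σ, ?_, ho⟩
  intro x hx
  cases hx with
  | complex E χ h hE => exact he E.K E.L χ (isChr_iff.mp h) (Or.inl hE)
  | real E χ h hE => exact he E.K E.L χ (isChr_iff.mp h) (Or.inr (Or.inl hE))
  | scalar E χ h hE ht =>
    refine he E.K E.L χ (isChr_iff.mp h) (Or.inr (Or.inr ⟨hE, ?_⟩))
    rintro c ⟨φ, hφ⟩
    exact scalar_of (isChr_iff.mp h) (isConj_sq hφ) (ht c ⟨φ, fun x => hφ.eq x⟩)
  | abelian E χ h hE hab =>
    apply even_of_sgn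
    refine (brauer_red (A := A) (K := E.K) (L := E.L) sgn.ker (fun U θ => ?_)
      (isChr_iff.mp h) : _ ∈ sgn.ker)
    rw [MonoidHom.mem_ker]
    apply sgn_even
    refine he _ E.L _ (IsChar.lc θ) ?_
    rcases real_or_complex E.L hab (IntermediateField.fixedField U) with hr | hc
    · refine Or.inr (Or.inr ⟨hr, fun c hc => ?_⟩)
      obtain ⟨φ, hφ⟩ := hc
      refine scalar_of (IsChar.lc θ) (isConj_sq hφ) ?_
      have h3 : θ c * θ c = 1 := by rw [← map_mul, isConj_sq hφ, map_one]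
      have h5 : ((θ c : ℂˣ) : ℂ) * ((θ c : ℂˣ) : ℂ) = 1 := by
        rw [← Units.val_mul, h3, Units.val_one]
      rcases mul_self_eq_one_iff.mp h5 with h6 | h6
      · left; simp [lc, h6]
      · right; simp [lc, h6]
    · exact Or.inl hc

end

end Pool.Agent.W2helper73.SO
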