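import Mathlib
import Pool.Agent.H977R3.CM.Aut
import Pool.Agent.W2helper73.SO.Main

/-!
# Twisted systems of leading coefficients
-/

set_option autoImplicit false
set_option linter.unusedSectionVars false

namespace Pool.Agent.W2helper73.SO

open NumberField NumberField.ComplexEmbedding Pool.Agent.K4H74 Pool.Agent.K4H74.SK
  Pool.Agent.K4H74.ST Pool.Agent.K4H34.AL

/-- the square root of two -/
noncomputable def rt2 : ℂ := ((Real.sqrt 2 : ℝ) : ℂ)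

lemma rt2_sq : rt2 * rt2 = 2 := by
  unfold rt2
  rw [← Complex.ofReal_mul, Real.mul_self_sqrt (by norm_num)]
  norm_num

lemma rt2_ne : rt2 ≠ 0 := by
  intro h
  have := rt2_sq
  rw [h] at this
  norm_num at this

instance fact_two : Fact (∀ r : ℚ, r ^ 2 ≠ 2 + 0 * r) := by
  refine ⟨fun r hr => ?_⟩
  have h : IsSquare (2 : ℚ) := ⟨r, by rw [zero_mul, add_zero] at hr; rw [← hr, sq]⟩
  have h2 : IsSquare (2 : ℕ) := Rat.isSquare_natCast_iff.mp (by exact_mod_cast h)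
  obtain ⟨m, hm⟩ := h2
  have : m < 2 := by nlinarith
  interval_cases m <;> omega

/-- an automorphism of `ℂ` which changes the sign of the square root of two -/
theorem exists_sigma : ∃ σ : ℂ ≃+* ℂ, σ rt2 = -rt2 := by
  let L := QuadraticAlgebra ℚ 2 0
  let j : L →+* ℂ := (QuadraticAlgebra.lift (R := ℚ) (a := 2) (b := 0) (A := ℂ)
    ⟨rt2, by rw [rt2_sq]; simp⟩ : L →ₐ[ℚ] ℂ)
  let g : L ≃+* L := starRingAut
  let w : L := ⟨0, 1⟩
  obtain ⟨σ, hσ⟩ := Pool.Agent.H977R3.CM.exists_aut j g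
  have h1 : ∀ z : L, j z = z.re + z.im * rt2 := by
    intro z
    show (z.re • (1 : ℂ) + z.im • rt2) = _
    rw [Rat.smul_def, Rat.smul_def, mul_one]
  have h2 := hσ w
  have h3 : g w = ⟨0 + 0 * 1, -1⟩ := rfl
  rw [h3, h1, h1] at h2
  simp [w] at h2
  exact ⟨σ, h2⟩

lemma sigma_rt2 (σ : ℂ ≃+* ℂ) : σ rt2 = rt2 ∨ σ rt2 = -rt2 := by
  have h : σ rt2 * σ rt2 = rt2 * rt2 := by rw [← map_mul, rt2_sq, map_ofNat]
  exact mul_self_eq_mul_self_iff.mp h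

/-- The system `c` multiplied by the powers of the square root of `2` with the exponents `F`. -/
noncomputable def tw (c : Pair → ℂ) (F : Pair → ℤ) : Pair → ℂ := fun x => c x * rt2 ^ F x

section

variable {c : Pair → ℂ} {F : Pair → ℤ} {E : Ext} {χ : G E → ℂ} {σ : ℂ ≃+* ℂ}

lemma isA_tw {Λ : Y E →ₗ[ℂ] Y E} {a : ℂ} :
    IsA (tw c F) Λ χ a ↔ IsA c Λ χ (a * rt2 ^ F ⟨E, χ⟩) := by
  have h0 : rt2 ^ F ⟨E, χ⟩ ≠ 0 := zpow_ne_zero _ rt2_ne
  constructor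
  · rintro ⟨r, hr, ha⟩
    refine ⟨r, hr, ?_⟩
    rw [ha, tw, ← div_div, div_mul_cancel₀ _ h0]
  · rintro ⟨r, hr, ha⟩
    refine ⟨r, hr, ?_⟩
    rw [tw, ← div_div, ← ha, mul_div_cancel_right₀ _ h0]

lemma defect_tw {w : ℂˣ} (hF : F ⟨E, fun g => σ (χ g)⟩ = F ⟨E, χ⟩)
    (hw : σ (rt2 ^ F ⟨E, χ⟩) = w * rt2 ^ F ⟨E, χ⟩) (d : ℂˣ) :
    IsDefect (tw c F) σ χ d ↔ IsDefect c σ χ (d * w) := by
  have h0 : rt2 ^ F ⟨E, χ⟩ ≠ 0 := zpow_ne_zero _ rt2_ne
  constructor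
  · intro h Λ hΛ b b' hb hb'
    have h1 := h Λ hΛ (b / rt2 ^ F ⟨E, χ⟩) (b' / rt2 ^ F ⟨E, χ⟩)
      (isA_tw.mpr (by rw [div_mul_cancel₀ _ h0]; exact hb))
      (isA_tw.mpr (by rw [hF, div_mul_cancel₀ _ h0]; exact hb'))
    rw [map_div₀, hw] at h1
    rw [Units.val_mul]
    field_simp at h1
    linear_combination h1
  · intro h Λ hΛ a a' ha ha'
    have h1 := h Λ hΛ _ _ (isA_tw.mp ha) (isA_tw.mp ha')
    rw [map_mul, hw, hF, Units.val_mul] at h1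
    have h2 : ((w : ℂ) * rt2 ^ F ⟨E, χ⟩) * σ a = ((w : ℂ) * rt2 ^ F ⟨E, χ⟩) * (d * a') := by
      linear_combination h1
    exact mul_left_cancel₀ (mul_ne_zero w.ne_zero h0) h2

lemma sign_tw (hF : F ⟨E, fun g => σ (χ g)⟩ = F ⟨E, χ⟩) :
    StarkSign c σ χ ↔ StarkSign (tw c F) σ χ := by
  have h0 : rt2 ^ F ⟨E, χ⟩ ≠ 0 := zpow_ne_zero _ rt2_ne
  have hw : σ (rt2 ^ F ⟨E, χ⟩) = rt2 ^ F ⟨E, χ⟩ ∨ σ (rt2 ^ F ⟨E, χ⟩) = - rt2 ^ F ⟨E, χ⟩ := by
    rw [map_zpow₀]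
    rcases sigma_rt2 σ with h | h
    · left; rw [h]
    · rw [h]
      rcases Int.even_or_odd (F ⟨E, χ⟩) with h1 | h1
      · left; rw [h1.neg_zpow]
      · right; rw [h1.neg_zpow]
  constructor
  · intro h Λ hΛ a a' ha ha'
    have h1 := h Λ hΛ _ _ (isA_tw.mp ha) (isA_tw.mp ha')
    rw [map_mul, hF] at h1
    rcases hw with hw | hw <;> rw [hw] at h1
    · rcases h1 with h1 | h1
      · left; exact mul_right_cancel₀ h0 h1
      · right; rw [← neg_mul] at h1; exact mul_right_cancel₀ h0 h1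
    · rw [mul_neg, neg_inj] at h1
      rcases h1 with h1 | h1
      · right
        apply mul_right_cancel₀ h0
        linear_combination -h1
      · left; exact mul_right_cancel₀ h0 h1
  · intro h Λ hΛ b b' hb hb'
    have h1 := h Λ hΛ (b / rt2 ^ F ⟨E, χ⟩) (b' / rt2 ^ F ⟨E, χ⟩)
      (isA_tw.mpr (by rw [div_mul_cancel₀ _ h0]; exact hb))
      (isA_tw.mpr (by rw [hF, div_mul_cancel₀ _ h0]; exact hb'))
    rw [map_div₀] at h1
    rcases hw with hw | hw <;> rw [hw] at h1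
    · rcases h1 with h1 | h1
      · left; field_simp at h1; exact h1
      · right; field_simp at h1; exact h1
    · rcases h1 with h1 | h1
      · right; field_simp at h1; linear_combination -h1
      · left; field_simp at h1; linear_combination -h1

lemma stark_tw (hF : F ⟨E, fun g => σ (χ g)⟩ = F ⟨E, χ⟩)
    (h : Even (F ⟨E, χ⟩) ∨ σ rt2 = rt2) : Stark c σ χ ↔ Stark (tw c F) σ χ := by
  have hw : σ (rt2 ^ F ⟨E, χ⟩) = ((1 : ℂˣ) : ℂ) * rt2 ^ F ⟨E, χ⟩ := by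
    rw [map_zpow₀, Units.val_one, one_mul]
    rcases sigma_rt2 σ with h1 | h1
    · rw [h1]
    · rw [h1]
      rcases h with h | h
      · rw [h.neg_zpow]
      · rw [h1] at h
        rw [h]
  rw [← isDefect_one_iff, ← isDefect_one_iff, defect_tw hF hw, mul_one]

lemma not_both (hc : IsLeading c) (hχ : IsChr χ) (hF : F ⟨E, fun g => σ (χ g)⟩ = F ⟨E, χ⟩)
    (hodd : Odd (F ⟨E, χ⟩)) (hσ : σ rt2 = -rt2) : ¬ (Stark c σ χ ∧ Stark (tw c F) σ χ) := by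
  rintro ⟨h1, h2⟩
  have hw : σ (rt2 ^ F ⟨E, χ⟩) = ((-1 : ℂˣ) : ℂ) * rt2 ^ F ⟨E, χ⟩ := by
    rw [map_zpow₀, hσ, hodd.neg_zpow]
    simp
  rw [← isDefect_one_iff, defect_tw hF hw] at h2
  rw [← isDefect_one_iff] at h1
  have h3 := (existsUnique_defect hc σ hχ).unique h1 h2
  rw [one_mul] at h3
  exact neg_one_ne_one_units h3.symm

end

/-- the twisted system is formal -/
theorem formal_tw {c : Pair → ℂ} (hc : IsLeading c) (A : ArtinInvariant (Multiplicative ℤ)) :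
    ∃ C : ArtinInvariant ℂˣ, ∀ x : Pair, IsChr x.2 →
      ((pval C x : ℂˣ) : ℂ) = tw c (fun x => (pval A x).toAdd) x := by
  let u : ℂˣ := Units.mk0 rt2 rt2_ne
  let f : ℂˣ × Multiplicative ℤ →* ℂˣ := MonoidHom.coprod (MonoidHom.id ℂˣ) (zpowersHom ℂˣ u)
  refine ⟨mapInv f (prodInv (leadInv hc) A), fun x hx => ?_⟩
  have h1 : pval (mapInv f (prodInv (leadInv hc) A)) x
      = pval (leadInv hc) x * u ^ (pval A x).toAdd := rfl
  rw [h1, Units.val_mul, pval_lead hc hx, Units.val_zpow_eq_zpow_val]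
  rfl

end Pool.Agent.W2helper73.SO
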