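import Mathlib
import Pool.Agent.W2helper73.SO.Twist

/-!
# Assembly
-/

set_option autoImplicit false
set_option linter.unusedSectionVars false

namespace Pool.Agent.W2helper73.SO

open NumberField NumberField.ComplexEmbedding Pool.Agent.K4H74 Pool.Agent.K4H74.SK
  Pool.Agent.K4H74.ST Pool.Agent.K4H34.AL

/-- `K` has exactly one real place, and `ψ` is a faithful character of order `4` of the Galois group
of `L / K`. -/
structure Quartic (E : Ext) (ψ : G E →* ℂˣ) : Prop where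
  real : InfinitePlace.nrRealPlaces E.K = 1
  inj : Function.Injective ψ
  four : ∀ g, ψ g ^ 4 = 1
  two : ∃ g, ψ g ^ 2 ≠ 1

/-- The quadratic subextension of `L / K` comes from `ℚ`: it is generated by the square root of a
rational number `d`. -/
def FromQ (E : Ext) : Prop :=
  ∃ d : ℚ, IsSquare (algebraMap ℚ E.L d) ∧ ¬ IsSquare (algebraMap ℚ E.K d)

lemma IsProd.mono {P P' : Pair → Prop} (h : ∀ x, P x → P' x) {y : Pair} {n : ℤ}
    (hP : IsProd P y n) : IsProd P' y n := by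
  obtain ⟨r, x, k, hx, h1⟩ := hP
  exact ⟨r, x, k, fun i => h _ (hx i), h1⟩

/-- the value of a quartic character with rational quadratic subextension -/
lemma val_fromQ {M : Type} [CommGroup M] {B : ArtinInvariant M} (hB : ∀ x, Basic x → pval B x = 1)
    {E : Ext} {ψ : G E →* ℂˣ} (hψ : Quartic E ψ) (hQ : FromQ E) : pval B ⟨E, lin ψ⟩ = 1 := by
  obtain ⟨h1, h2, h3⟩ := basic_triv hB
  obtain ⟨d, hd, hd'⟩ := hQ
  exact val_of_rational (K := E.K) (L := E.L) h1 h2 h3 hψ.real ψ hψ.inj hψ.four hψ.two d hd hd'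

/-- the exceptional invariant -/
lemma exists_exc {E : Ext} {ψ : G E →* ℂˣ} (hψ : Quartic E ψ) (hQ : ¬ FromQ E) :
    ∃ A : ArtinInvariant (Multiplicative ℤ),
      (∀ (E : Ext) (χ : G E → ℂ), IsChr χ → ∀ σ : ℂ ≃+* ℂ,
          pval A ⟨E, fun g => σ (χ g)⟩ = pval A ⟨E, χ⟩) ∧
      (∀ x, Wide x → Even (pval A x).toAdd) ∧ Odd (pval A ⟨E, lin ψ⟩).toAdd := by
  refine exists_wide (K := E.K) (L := E.L) (ψ := ψ) hψ.real hψ.four hψ.two fun d hd => ?_
  by_contra h
  exact hQ ⟨d, hd, h⟩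

/-- **The criterion.** -/
theorem criterion {E : Ext} {ψ : G E →* ℂˣ} (hψ : Quartic E ψ) :
    List.TFAE [∃ n : ℤ, Odd n ∧ IsProd Wide ⟨E, lin ψ⟩ n, IsProd Basic ⟨E, lin ψ⟩ 1, FromQ E] := by
  tfae_have 3 → 2 := fun h => isProd_of fun M _ B hB => by
    rw [val_fromQ hB hψ h, one_zpow]
  tfae_have 2 → 1 := fun h => ⟨1, odd_one, h.mono fun x hx => hx.wide⟩
  tfae_have 1 → 3 := by
    rintro ⟨n, hn, h⟩
    by_contra hQ
    obtain ⟨A, -, hA, ho⟩ := exists_exc hψ hQ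
    have h1 := isProd_val (IsChar.lc (show (E.L ≃ₐ[E.K] E.L) →* ℂˣ from ψ)) (fun x hx => hx.isChar)
      h (mapInv sgn A) (fun x hx => sgn_even (hA x hx))
    have h2 : pval (mapInv sgn A) ⟨E, lin ψ⟩ = -1 := sgn_odd ho
    rw [h2, hn.neg_one_zpow] at h1
    exact absurd h1 (by decide)
  tfae_finish

/-- only the rational numbers have no obstruction -/
theorem all_iff (K : Type) [Field K] [NumberField K] (hK : InfinitePlace.nrRealPlaces K = 1) :
    (∀ (L : Type) [Field L] [NumberField L] [Algebra K L] [IsGalois K L] (ψ : G ⟨K, L⟩ →* ℂˣ),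
      Quartic ⟨K, L⟩ ψ → IsProd Basic ⟨⟨K, L⟩, lin ψ⟩ 1) ↔ Module.finrank ℚ K = 1 := by
  constructor
  · intro h
    by_contra h1
    obtain ⟨F, i1, i2, i3, i4, ψ, hinj, h4, h2, hd⟩ := exists_obstructed hK h1
    have hψ : Quartic ⟨K, F⟩ ψ := ⟨hK, hinj, h4, h2⟩
    obtain ⟨d, hd1, hd2⟩ := ((criterion hψ).out 1 2).mp (h F ψ hψ)
    exact hd2 (hd d hd1)
  · intro h1 L _ _ _ _ ψ _
    refine isProd_of fun M _ B hB => ?_
    obtain ⟨b1, b2, b3⟩ := basic_triv hB
    have hr : IsTotallyReal K := by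
      have h2 := InfinitePlace.card_add_two_mul_card_eq_rank K
      rw [hK, h1] at h2
      rw [← nrComplexPlaces_eq_zero_iff]
      omega
    have h3 : pval B ⟨⟨K, L⟩, lin ψ⟩ = 1 := val_lin_real b1 b2 b3 hr ψ
    rw [h3, one_zpow]

/-- the fields different from `ℚ` have exceptional quartic characters -/
theorem exists_not_fromQ (K : Type) [Field K] [NumberField K]
    (hK : InfinitePlace.nrRealPlaces K = 1) (h1 : Module.finrank ℚ K ≠ 1) :
    ∃ (L : Type) (_ : Field L) (_ : NumberField L) (_ : Algebra K L) (_ : IsGalois K L)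
      (ψ : G ⟨K, L⟩ →* ℂˣ), Quartic ⟨K, L⟩ ψ ∧ ¬ FromQ ⟨K, L⟩ := by
  obtain ⟨F, i1, i2, i3, i4, ψ, hinj, h4, h2, hd⟩ := exists_obstructed hK h1
  refine ⟨F, i1, i2, i3, i4, ψ, ⟨hK, hinj, h4, h2⟩, ?_⟩
  rintro ⟨d, hd1, hd2⟩
  exact hd2 (hd d hd1)

section bch

/-- The faithful linear characters over the totally complex fields. -/
inductive CxLin : Pair → Prop
  | mk (E : Ext) (ψ : G E →* ℂˣ) : IsTotallyComplex E.K → Function.Injective ψ → CxLin ⟨E, lin ψ⟩

lemma cx_triv {M : Type} [CommGroup M] {A : ArtinInvariant M} (h : ∀ x, CxLin x → pval A x = 1) :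
    TrivComplex A :=
  fun K L _ _ _ _ _ _ hK ψ hψ => h ⟨⟨K, L⟩, lc ψ⟩ (CxLin.mk ⟨K, L⟩ ψ hK hψ)

/-- `L(s, y) = L(s, z) ∏ L(s, x_i) ^ (k_i)` for `Re s > 1`, where all the `x_i` belong to the class
`P`. -/
def IsProdOver (P : Pair → Prop) (y z : Pair) : Prop :=
  ∃ (r : ℕ) (x : Fin r → Pair) (k : Fin r → ℤ), (∀ i, P (x i)) ∧
    ∀ s : ℂ, 1 < s.re → ∀ (l l₀ : ℂ) (l' : Fin r → ℂ), HasSum (logTerm y.2 s) l →
      HasSum (logTerm z.2 s) l₀ → (∀ i, HasSum (logTerm (x i).2 s) (l' i)) →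
      Complex.exp l = Complex.exp l₀ * ∏ i, Complex.exp (l' i) ^ k i

theorem isProdOver_of {P : Pair → Prop} {y z : Pair}
    (h : ∀ (M : Type) [CommGroup M] (B : ArtinInvariant M), (∀ x, P x → pval B x = 1) →
      pval B y = pval B z) : IsProdOver P y z := by
  let H : Subgroup (Multiplicative ({s : ℂ // 1 < s.re} → ℂ)) :=
    Subgroup.closure {z | ∃ x : Pair, P x ∧ z = pval logInv x}
  let B := mapInv (QuotientGroup.mk' H) logInv
  have hB : ∀ x : Pair, P x → pval B x = 1 := by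
    intro x hx
    exact (QuotientGroup.eq_one_iff (N := H) _).mpr (Subgroup.subset_closure ⟨x, hx, rfl⟩)
  have h3 := h _ B hB
  have h5 : (pval logInv z)⁻¹ * pval logInv y ∈ H := QuotientGroup.eq.mp h3.symm
  obtain ⟨r, x, k, hx, h6⟩ := closure_form logInv P h5
  refine ⟨r, x, k, hx, fun s hs l l₀ l' hl hl₀ hl' => ?_⟩
  have h7 := congrArg (fun u : ℂˣ => (u : ℂ)) (congrArg (evs ⟨s, hs⟩) (inv_mul_eq_iff_eq_mul.mp h6))
  simp only [map_mul, map_prod, map_zpow, Units.val_mul, Units.coe_prod,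
    Units.val_zpow_eq_zpow_val] at h7
  have h8 : ∀ {x : Pair} {l : ℂ}, HasSum (logTerm x.2 s) l →
      ((evs ⟨s, hs⟩ (pval logInv x) : ℂˣ) : ℂ) = Complex.exp l := fun hl =>
    congrArg Complex.exp (logInv_val _ _ hl)
  rwa [h8 hl, h8 hl₀, Finset.prod_congr rfl (fun i _ => by rw [h8 (hl' i)])] at h7

variable {k K N : Type} [Field k] [NumberField k] [Field K] [NumberField K] [Field N]
  [NumberField N] [Algebra k K] [Algebra K N] [Algebra k N] [IsScalarTower k K N] [IsGalois k N]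
  [IsGalois K N]

/-- The restriction of `χ` to the Galois group of `N / K`. -/
def res (k K N : Type) [Field k] [NumberField k] [Field K] [NumberField K] [Field N]
    [NumberField N] [Algebra k K] [Algebra K N] [Algebra k N] [IsScalarTower k K N] [IsGalois k N]
    [IsGalois K N] (χ : G ⟨k, N⟩ → ℂ) : G ⟨K, N⟩ → ℂ :=
  fun g => χ ((show N ≃ₐ[K] N from g).restrictScalars k)

theorem base_change_L (hK : OneReal k K) (χ : G ⟨k, N⟩ → ℂ) (hχ : IsChr χ) :
    IsProdOver CxLin ⟨⟨K, N⟩, res k K N χ⟩ ⟨⟨k, N⟩, χ⟩ :=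
  isProdOver_of fun _ _ _ hB => base_change (cx_triv hB) hK (k := k) (N := N) (isChr_iff.mp hχ)

lemma isChr_res (χ : G ⟨k, N⟩ → ℂ) (hχ : IsChr χ) : IsChr (res k K N χ) := by
  let r : (N ≃ₐ[K] N) →* (N ≃ₐ[k] N) :=
    { toFun := fun g => g.restrictScalars k
      map_one' := rfl
      map_mul' := fun _ _ => rfl }
  exact isChr_iff.mpr (char_comp (isChr_iff.mp hχ) r)

theorem base_change_stark {c : Pair → ℂ} (hc : IsLeading c) (σ : ℂ ≃+* ℂ)
    (hC : ∀ x, CxLin x → Stark c σ x.2) (hK : OneReal k K) (χ : G ⟨k, N⟩ → ℂ) (hχ : IsChr χ) :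
    Stark c σ (E := ⟨K, N⟩) (res k K N χ) ↔ Stark c σ (E := ⟨k, N⟩) χ := by
  have h1 : TrivComplex (inv hc σ) :=
    trivComplex_of hc σ fun E hE ψ hψ => hC ⟨E, lin ψ⟩ (CxLin.mk E ψ hE hψ)
  have h2 : (inv hc σ).val K N (res k K N χ) = (inv hc σ).val k N χ :=
    base_change h1 hK (k := k) (N := N) (isChr_iff.mp hχ)
  constructor
  · intro h
    exact of_val hc σ (E := ⟨k, N⟩) hχ
      (h2.symm.trans (to_val hc σ (E := ⟨K, N⟩) (isChr_res χ hχ) h))
  · intro h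
    exact of_val hc σ (E := ⟨K, N⟩) (isChr_res χ hχ)
      (h2.trans (to_val hc σ (E := ⟨k, N⟩) hχ h))

/-- Stark's conjecture for the quartic characters with rational quadratic subextension follows
from the basic cases. -/
theorem stark_fromQ {c : Pair → ℂ} (hc : IsLeading c) (σ : ℂ ≃+* ℂ)
    (hB : ∀ x, Basic x → Stark c σ x.2) {E : Ext} {ψ : G E →* ℂˣ} (hψ : Quartic E ψ)
    (hQ : FromQ E) : Stark c σ (lin ψ) :=
  of_val hc σ (isChr_lin ψ) (val_fromQ (B := inv hc σ)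
    (fun x hx => to_val hc σ (isChr_iff.mpr hx.isChar) (hB x hx)) hψ hQ)

end bch

end Pool.Agent.W2helper73.SO
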